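import Pool.Agent.Lib.MP_776403_ag.GQ.Spec
import Pool.Agent.Lib.MP_410da7_agP.Fre
import Pool.Agent.Lib.MP_410da7_agP.Reg
import Pool.Agent.Lib.MP_410da7_agP.Rlo

/-!
# MP_776403_ag, THEOREM GP: assembly
-/

set_option autoImplicit false

namespace Pool.Agent.GQ

open MvPolynomial Filter Topology

noncomputable section

namespace QAsmAux

variable {n c : ℕ}

theorem eval_act (g : Gl c) (F : Sx n c) (x : Fin (n + 1) → ℂ) (y : Fin c → ℂ) :
    eval (Sum.elim x y) (act g F) =
      eval (Sum.elim x ((g : Matrix (Fin c) (Fin c) ℂ).mulVec y)) F := by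
  have h : ((aeval (Sum.elim x y) : Sx n c →ₐ[ℂ] ℂ).comp (act g)) =
      aeval (Sum.elim x ((g : Matrix (Fin c) (Fin c) ℂ).mulVec y)) := by
    apply MvPolynomial.algHom_ext
    intro i
    rcases i with i | j
    · simp [act]
    · simp [act, Matrix.mulVec, dotProduct]
  have := congrArg (fun u => u F) h
  simpa [aeval_eq_eval] using this

theorem pderiv_act (g : Gl c) (F : Sx n c) (k : Fin c) :
    pderiv (Sum.inr k) (act g F) =
      ∑ j, C ((g : Matrix (Fin c) (Fin c) ℂ) j k) * act g (pderiv (Sum.inr j) F) := by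
  induction F using MvPolynomial.induction_on with
  | C a => simp [act]
  | add p q hp hq => simp only [map_add, hp, hq, mul_add, Finset.sum_add_distrib]
  | mul_X p i hp =>
    rw [map_mul, Derivation.leibniz, hp]
    have h2 : ∀ j : Fin c, pderiv (Sum.inr j) (p * X i) =
        p * pderiv (Sum.inr j) (X i) + X i * pderiv (Sum.inr j) p := by
      intro j
      rw [Derivation.leibniz]
      rfl
    simp only [h2, map_add, map_mul, mul_add, Finset.sum_add_distrib]
    have h3 : pderiv (Sum.inr k) (act (n := n) g (X i)) =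
        ∑ j, C ((g : Matrix (Fin c) (Fin c) ℂ) j k) * act (n := n) g (pderiv (Sum.inr j) (X i)) := by
      rcases i with i | i
      · simp [act, pderiv_X]
      · simp only [act, aeval_X, Sum.elim_inr, map_sum, Derivation.leibniz, pderiv_C, smul_zero,
          add_zero, pderiv_X, smul_eq_mul]
        rw [Finset.sum_eq_single k, Finset.sum_eq_single i]
        · simp
        · intro b _ hb
          rw [Pi.single_eq_of_ne (by simpa using hb.symm)]
          simp
        · simp
        · intro b _ hb
          rw [Pi.single_eq_of_ne (by simpa using hb)]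
          simp
        · simp
    rw [h3, smul_eq_mul, smul_eq_mul, Finset.mul_sum, Finset.mul_sum]
    congr 1
    · apply Finset.sum_congr rfl
      intro j _
      ring
    · apply Finset.sum_congr rfl
      intro j _
      ring

end QAsmAux

open QAsmAux in
theorem qAsm (hPhi : S_Phi) (hLin : S_Lin) (hGen : S_Gen) (hPt : S_Pt) (hCrv : S_Crv)
    (hNoe : S_Noe) (hLim : S_Lim) (hSpa : S_Spa) (hSpl : S_Spl) (hPol : S_Pol) (hInd : S_Ind)
    (hZer : S_Zer) (hCor : S_Cor) (n c : ℕ) (hc : c ≤ n) (G : Subgroup (Gl c)) [Finite G]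
    (I : Ideal (Sx n c)) (hD : Dat n c G I) :
    ∃ (t : Fin c → Vx c) (h : Fin c → Px n) (m : Fin c → ℕ),
      (∀ i, 0 < m i ∧ (t i).IsHomogeneous (m i) ∧ (h i).IsHomogeneous (m i)) ∧
      AlgebraicIndependent ℂ t ∧ Algebra.adjoin ℂ (Set.range t) = invAlg G ∧
      I = Ideal.span (Set.range fun i => iY (t i) - iX (h i)) := by
  obtain ⟨φ, hφ, hφh⟩ := hPhi n c G I hD
  have hlin : ∀ q : Fin c → Px n, (∑ j, iX (q j) * X (Sum.inr j)) ∈ I → q = 0 := by
    rcases Nat.eq_zero_or_pos c with h0 | h0
    · subst h0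
      intro q _
      exact Subsingleton.elim _ _
    · exact hLin n c G I hD (by omega)
  obtain ⟨D, hDI, hDv⟩ := hGen n c G I hD hlin
  obtain ⟨x₀, w₀, hon, hD0⟩ := hPt n c G I hD D hDI
  obtain ⟨q, hq1, hq2, hq3⟩ := hCrv n c G I hD hc x₀ w₀ hon
  have hunb : ∀ R : ℝ, ∃ x : Fin (n + 1) → ℂ, R < ‖x‖ ∧ OnX I x w₀ := by
    intro R
    obtain ⟨x, hx, hx2⟩ := hNoe n q hq1 hq2 R
    exact ⟨x, hx, hq3 x hx2⟩
  obtain ⟨p, hp0, hpX, hpF⟩ := hLim n c G I hD w₀ hunb
  have hy : ∀ F ∈ I, (∀ x : Fin (n + 1) → ℂ, eval (Sum.elim x (0 : Fin c → ℂ)) F = 0) →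
      ∀ j, eval (Sum.elim p (0 : Fin c → ℂ)) (pderiv (Sum.inr j) F) = 0 := by
    intro F hF hF0
    have key := hDv x₀ w₀ hon hD0
      (fun j => eval (Sum.elim p (0 : Fin c → ℂ)) (pderiv (Sum.inr j) F)) (by
        intro g hg
        have h1 := hpF (act g F) (hD.stable g hg F hF) (by
          intro x
          rw [eval_act, Matrix.mulVec_zero]
          exact hF0 x)
        simp only [pderiv_act, map_sum, map_mul, eval_C, eval_act, Matrix.mulVec_zero,
          Finset.sum_mul] at h1
        rw [Finset.sum_comm] at h1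
        rw [← h1]
        apply Finset.sum_congr rfl
        intro j _
        rw [Matrix.mulVec, dotProduct, Finset.mul_sum]
        apply Finset.sum_congr rfl
        intro k _
        ring)
    intro j
    exact congrFun key j
  have hspa := hSpa n c G I hD φ hφ p hpX hy
  obtain ⟨t, m, hm, hth, ht0, hli⟩ := hSpl n c G I hD φ hφ p hp0 hpX hspa
  have hgr : ∀ a ∈ invAlg G, ∀ k : ℕ, homogeneousComponent k a ∈ invAlg G := by
    intro a ha k g hg
    have hgrade : ∀ (b : Vx c) (l : ℕ), b.IsHomogeneous l → (actV g b).IsHomogeneous l := by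
      intro b l hb
      have := hb.aeval (fun j => ∑ k, C ((g : Matrix (Fin c) (Fin c) ℂ) j k) * X k) (n := 1) (by
        intro j
        apply IsHomogeneous.sum
        intro k _
        simpa using (isHomogeneous_C (Fin c) ((g : Matrix (Fin c) (Fin c) ℂ) j k)).mul
          (isHomogeneous_X ℂ k))
      simpa [actV] using this
    have e : actV g a = a := ha g hg
    have e2 : ∀ b : Vx c, homogeneousComponent k (actV g b) = actV g (homogeneousComponent k b) := by
      intro b
      conv_lhs => rw [← sum_homogeneousComponent b, map_sum, map_sum]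
      rw [Finset.sum_eq_single k]
      · rw [homogeneousComponent_of_mem (hgrade _ _ (homogeneousComponent_isHomogeneous k b)),
          if_pos rfl]
      · intro l _ hl
        rw [homogeneousComponent_of_mem (hgrade _ _ (homogeneousComponent_isHomogeneous l b)),
          if_neg (Ne.symm hl)]
      · intro hk
        have h0 : homogeneousComponent k b = 0 :=
          homogeneousComponent_eq_zero _ _ (by simpa using hk)
        rw [h0]
        simp
    rw [← e2, e]
  have hadj := hPol n c (invAlg G) φ p m t hgr hm hth ht0 hli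
  have hind := hInd n c m hm p (fun i => φ (t i)) ht0 hli
  have hz := hZer c G (fun i => (t i : Vx c)) m hm hth hadj
  obtain ⟨N, b, e, -, hb⟩ := Pool.Agent.PC.stmtFre
    (Pool.Agent.PC.stmtReg Pool.Agent.PC.stmtRlo) (Fin c) c (by simp) ℂ
    (fun _ => 1) (fun _ => one_pos) (fun i => (t i : Vx c)) m hm (fun i => hth i) (by
      intro a ha
      exact hz a ha)
  have hind2 : AlgebraicIndependent ℂ (fun i => (t i : Vx c)) := by
    have h1 : AlgebraicIndependent ℂ t := AlgebraicIndependent.of_comp φ hind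
    exact h1.map' (f := (invAlg G).val) Subtype.val_injective
  refine ⟨fun i => (t i : Vx c), fun i => φ (t i), m, fun i => ⟨hm i, hth i, hφh (t i) (m i) (hth i)⟩,
    hind2, le_antisymm ?_ (fun a ha => hadj a ha), hCor n c G I hD φ hφ t hadj hind N b hb⟩
  rw [Algebra.adjoin_le_iff]
  rintro _ ⟨i, rfl⟩
  exact (t i).2

end

end Pool.Agent.GQ
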