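import Pool.Agent.Lib.MP_776403_ag.GQ.Spec

/-!
# The ideal is generated by the `t_i - h_i`
-/

set_option autoImplicit false

namespace Pool.Agent.GQ

open MvPolynomial

namespace QCorAux

variable {n c : ℕ}

theorem act_iX (g : Gl c) (f : Px n) : act g (iX f : Sx n c) = iX f := by
  have h : (act g).comp (iX : Px n →ₐ[ℂ] Sx n c) = iX := by
    refine MvPolynomial.algHom_ext fun i => ?_
    show act g (iX (X i)) = iX (X i)
    unfold iX act
    rw [rename_X, aeval_X, Sum.elim_inl]
  exact DFunLike.congr_fun h f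

theorem act_iY (g : Gl c) (P : Vx c) : act g (iY P : Sx n c) = iY (actV g P) := by
  have h : (act g).comp (iY : Vx c →ₐ[ℂ] Sx n c) = iY.comp (actV g) := by
    refine MvPolynomial.algHom_ext fun j => ?_
    show act g (iY (X j)) = iY (actV g (X j))
    unfold iY act actV
    rw [rename_X, aeval_X, Sum.elim_inr, aeval_X, map_sum]
    refine Finset.sum_congr rfl fun k _ => ?_
    rw [map_mul, rename_C, rename_X]
  exact DFunLike.congr_fun h P

theorem actV_mul (g h : Gl c) (P : Vx c) : actV g (actV h P) = actV (h * g) P := by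
  have e : (actV g).comp (actV h) = actV (h * g) := by
    refine MvPolynomial.algHom_ext fun j => ?_
    show actV g (actV h (X j)) = actV (h * g) (X j)
    unfold actV
    rw [aeval_X, aeval_X, map_sum]
    have e1 : ∀ k, aeval (fun j => ∑ k, C ((g : Matrix (Fin c) (Fin c) ℂ) j k) * X k)
        (C ((h : Matrix (Fin c) (Fin c) ℂ) j k) * X k : Vx c) =
        ∑ l, C ((h : Matrix (Fin c) (Fin c) ℂ) j k * (g : Matrix (Fin c) (Fin c) ℂ) k l) * X l := by
      intro k
      rw [map_mul, aeval_X, ← algebraMap_eq, AlgHom.commutes, algebraMap_eq, Finset.mul_sum]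
      refine Finset.sum_congr rfl fun l _ => ?_
      rw [C_mul, mul_assoc]
    rw [Finset.sum_congr rfl fun k _ => e1 k, Finset.sum_comm]
    refine Finset.sum_congr rfl fun l _ => ?_
    rw [← Finset.sum_mul, ← map_sum]
    rfl
  exact DFunLike.congr_fun e P

end QCorAux

open QCorAux in
theorem qCor (h1 : S_Tra) : S_Cor := by
  classical
  intro n c G _ I hD φ hφ t hgen hind N b hb
  have _ : Fintype G := Fintype.ofFinite G
  obtain ⟨T, hT⟩ : ∃ T : Fin c → Vx c, T = fun i => (t i : Vx c) := ⟨_, rfl⟩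
  obtain ⟨H, hH⟩ : ∃ H : Fin c → Px n, H = fun i => φ (t i) := ⟨_, rfl⟩
  have hTi : ∀ i, (t i : Vx c) = T i := fun i => by rw [hT]
  have hHi : ∀ i, φ (t i) = H i := fun i => by rw [hH]
  have hgenJ : (fun i => iY (t i : Vx c) - iX (φ (t i))) = fun i => (iY (T i) - iX (H i) : Sx n c) := by
    funext i
    rw [hTi, hHi]
  rw [hgenJ]
  obtain ⟨J, hJ⟩ : ∃ J : Ideal (Sx n c), J = Ideal.span (Set.range fun i => (iY (T i) - iX (H i) : Sx n c)) :=
    ⟨_, rfl⟩
  rw [← hJ]
  have hTinv : ∀ i, ∀ g ∈ G, actV g (T i) = T i := fun i => by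
    rw [← hTi]
    exact (t i).2
  -- `J ≤ I`
  have hJI : J ≤ I := by
    rw [hJ, Ideal.span_le]
    rintro _ ⟨i, rfl⟩
    show iY (T i) - iX (H i) ∈ I
    rw [← hTi, ← hHi]
    exact hφ (t i)
  -- `J` is stable
  have hJst : ∀ g ∈ G, ∀ F ∈ J, act g F ∈ J := by
    intro g hg F hF
    have h2 : J ≤ J.comap (act g) := by
      conv_lhs => rw [hJ]
      rw [Ideal.span_le]
      rintro _ ⟨i, rfl⟩
      show act g (iY (T i) - iX (H i)) ∈ J
      rw [map_sub, act_iX, act_iY, hTinv i g hg, hJ]
      exact Ideal.subset_span ⟨i, rfl⟩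
    exact h2 hF
  -- (0)
  have h0 : ∀ P : Vx c, (iY (aeval T P) - iX (aeval H P) : Sx n c) ∈ J := by
    have e : (Ideal.Quotient.mkₐ ℂ J).comp ((iY : Vx c →ₐ[ℂ] Sx n c).comp (aeval T)) =
        (Ideal.Quotient.mkₐ ℂ J).comp ((iX : Px n →ₐ[ℂ] Sx n c).comp (aeval H)) := by
      refine MvPolynomial.algHom_ext fun i => ?_
      show Ideal.Quotient.mk J (iY (aeval T (X i))) = Ideal.Quotient.mk J (iX (aeval H (X i)))
      rw [aeval_X, aeval_X, Ideal.Quotient.eq, hJ]
      exact Ideal.subset_span ⟨i, rfl⟩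
    intro P
    rw [← Ideal.Quotient.eq]
    exact DFunLike.congr_fun e P
  have hb' : ∀ P : Vx c, ∃ q : Fin N → Vx c, P = ∑ i, aeval T (q i) * b i := by
    intro P
    obtain ⟨q, hq, -⟩ := hb P
    refine ⟨q, ?_⟩
    rw [hT]
    exact hq
  -- (1)
  have hstep : ∀ P : Vx c, ∃ q : Fin N → Px n, (iY P - ∑ i, iX (q i) * iY (b i) : Sx n c) ∈ J := by
    intro P
    obtain ⟨q, hq⟩ := hb' P
    refine ⟨fun i => aeval H (q i), ?_⟩
    have e : (iY P - ∑ i, iX (aeval H (q i)) * iY (b i) : Sx n c) =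
        ∑ i, (iY (aeval T (q i)) - iX (aeval H (q i))) * iY (b i) := by
      conv_lhs => rw [hq]
      rw [map_sum, ← Finset.sum_sub_distrib]
      refine Finset.sum_congr rfl fun i _ => ?_
      rw [map_mul, sub_mul]
    rw [e]
    exact J.sum_mem fun i _ => J.mul_mem_right _ (h0 _)
  have hall : ∀ F : Sx n c, ∀ P : Vx c, ∃ q : Fin N → Px n,
      (F * iY P - ∑ i, iX (q i) * iY (b i) : Sx n c) ∈ J := by
    intro F
    induction F using MvPolynomial.induction_on with
    | C a =>
      intro P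
      obtain ⟨q, hq⟩ := hstep (C a * P)
      refine ⟨q, ?_⟩
      have e : (C a * iY P : Sx n c) = iY (C a * P) := by
        rw [map_mul]
        congr 1
        unfold iY
        rw [rename_C]
      rw [e]
      exact hq
    | add F F' hF hF' =>
      intro P
      obtain ⟨q, hq⟩ := hF P
      obtain ⟨q', hq'⟩ := hF' P
      refine ⟨fun i => q i + q' i, ?_⟩
      have e : ((F + F') * iY P - ∑ i, iX (q i + q' i) * iY (b i) : Sx n c) =
          (F * iY P - ∑ i, iX (q i) * iY (b i)) + (F' * iY P - ∑ i, iX (q' i) * iY (b i)) := by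
        have e2 : (∑ i, iX (q i + q' i) * iY (b i) : Sx n c) =
            ∑ i, iX (q i) * iY (b i) + ∑ i, iX (q' i) * iY (b i) := by
          rw [← Finset.sum_add_distrib]
          refine Finset.sum_congr rfl fun i _ => ?_
          rw [map_add, add_mul]
        rw [e2]
        ring
      rw [e]
      exact J.add_mem hq hq'
    | mul_X F v hF =>
      intro P
      rcases v with i | j
      · obtain ⟨q, hq⟩ := hF P
        refine ⟨fun k => X i * q k, ?_⟩
        have e : (F * X (Sum.inl i) * iY P - ∑ k, iX (X i * q k) * iY (b k) : Sx n c) =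
            X (Sum.inl i) * (F * iY P - ∑ k, iX (q k) * iY (b k)) := by
          have e2 : (∑ k, iX (X i * q k) * iY (b k) : Sx n c) =
              X (Sum.inl i) * ∑ k, iX (q k) * iY (b k) := by
            rw [Finset.mul_sum]
            refine Finset.sum_congr rfl fun k _ => ?_
            have e3 : (iX (X i : Px n) : Sx n c) = X (Sum.inl i) := by
              unfold iX
              rw [rename_X]
            rw [map_mul, e3, mul_assoc]
          rw [e2]
          ring
        rw [e]
        exact J.mul_mem_left _ hq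
      · obtain ⟨q, hq⟩ := hF (X j * P)
        refine ⟨q, ?_⟩
        have e3 : (iY (X j : Vx c) : Sx n c) = X (Sum.inr j) := by
          unfold iY
          rw [rename_X]
        rw [map_mul, e3, ← mul_assoc] at hq
        exact hq
  -- (2)
  have hτ : ∀ i j, ∃ τ : Vx c, aeval T τ = ∑ g : G, actV (g : Gl c) (b i * b j) := by
    intro i j
    have hinv : (∑ g : G, actV (g : Gl c) (b i * b j)) ∈ invAlg G := by
      intro g hg
      rw [map_sum]
      have e : ∀ h : G, actV g (actV (h : Gl c) (b i * b j)) =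
          actV ((h * ⟨g, hg⟩ : G) : Gl c) (b i * b j) := fun h => actV_mul _ _ _
      rw [Finset.sum_congr rfl fun h _ => e h]
      exact Equiv.sum_comp (Equiv.mulRight (⟨g, hg⟩ : G)) fun h : G => actV (h : Gl c) (b i * b j)
    have h2 := hgen _ hinv
    rw [Algebra.adjoin_range_eq_range_aeval] at h2
    obtain ⟨τ, hτ⟩ := h2
    refine ⟨τ, ?_⟩
    rw [hT]
    exact hτ
  choose τ hτ using hτ
  have hdet : (Matrix.of τ).det ≠ 0 := by
    refine h1 c G T (fun i => ?_) N b ?_ (Matrix.of τ) (fun i j => hτ i j)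
    · rw [← hTi]
      exact (t i).2
    · intro P
      rw [hT]
      exact hb P
  refine le_antisymm ?_ hJI
  intro F hF
  obtain ⟨q, hq⟩ := hall F 1
  rw [map_one, mul_one] at hq
  -- (3)
  have h3 : ∀ j, ∑ i, q i * aeval H (τ i j) = 0 := by
    intro j
    apply hD.indep
    have m1 : (∑ g : G, act (g : Gl c) (F * iY (b j))) ∈ I :=
      I.sum_mem fun g _ => hD.stable _ g.2 _ (I.mul_mem_right _ hF)
    have m2 : (∑ g : G, act (g : Gl c) ((F - ∑ i, iX (q i) * iY (b i)) * iY (b j))) ∈ J :=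
      J.sum_mem fun g _ => hJst _ g.2 _ (J.mul_mem_right _ hq)
    have m3 : (∑ i, iX (q i) * (iY (aeval T (τ i j)) - iX (aeval H (τ i j))) : Sx n c) ∈ J :=
      J.sum_mem fun i _ => J.mul_mem_left _ (h0 _)
    have e1 : (∑ g : G, act (g : Gl c) ((F - ∑ i, iX (q i) * iY (b i)) * iY (b j)) : Sx n c) =
        ∑ g : G, act (g : Gl c) (F * iY (b j)) - ∑ i, iX (q i) * iY (aeval T (τ i j)) := by
      have e2 : (∑ i, iX (q i) * iY (aeval T (τ i j)) : Sx n c) =
          ∑ g : G, ∑ i, iX (q i) * iY (actV (g : Gl c) (b i * b j)) := by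
        rw [Finset.sum_comm]
        refine Finset.sum_congr rfl fun i _ => ?_
        rw [hτ, map_sum, Finset.mul_sum]
      rw [e2, ← Finset.sum_sub_distrib]
      refine Finset.sum_congr rfl fun g _ => ?_
      rw [sub_mul, map_sub, Finset.sum_mul, map_sum]
      congr 1
      refine Finset.sum_congr rfl fun i _ => ?_
      rw [map_mul, map_mul, act_iX, act_iY, act_iY, map_mul (actV (g : Gl c)), map_mul iY, mul_assoc]
    have e3 : (iX (∑ i, q i * aeval H (τ i j)) : Sx n c) =
        ∑ g : G, act (g : Gl c) (F * iY (b j)) -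
        (∑ g : G, act (g : Gl c) ((F - ∑ i, iX (q i) * iY (b i)) * iY (b j))) -
        ∑ i, iX (q i) * (iY (aeval T (τ i j)) - iX (aeval H (τ i j))) := by
      rw [e1, map_sum]
      have e4 : (∑ i, iX (q i) * (iY (aeval T (τ i j)) - iX (aeval H (τ i j))) : Sx n c) =
          ∑ i, iX (q i) * iY (aeval T (τ i j)) - ∑ i, iX (q i * aeval H (τ i j)) := by
        rw [← Finset.sum_sub_distrib]
        refine Finset.sum_congr rfl fun i _ => ?_
        rw [map_mul, mul_sub]
      rw [e4]
      ring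
    rw [e3]
    exact I.sub_mem (I.sub_mem m1 (hJI m2)) (hJI m3)
  -- (4)
  have hinj : Function.Injective (aeval H : Vx c →ₐ[ℂ] Px n) := by
    rw [hH]
    exact hind
  have hdet2 : ((Matrix.of τ).map (aeval H : Vx c →ₐ[ℂ] Px n)).det ≠ 0 := by
    have e : ((Matrix.of τ).map (aeval H : Vx c →ₐ[ℂ] Px n)).det =
        (aeval H : Vx c →ₐ[ℂ] Px n) (Matrix.of τ).det :=
      ((aeval H : Vx c →ₐ[ℂ] Px n).toRingHom.map_det (Matrix.of τ)).symm
    rw [e]
    exact fun h => hdet (hinj (by rw [h, map_zero]))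
  have hq0 : q = 0 := by
    apply Matrix.eq_zero_of_vecMul_eq_zero hdet2
    funext j
    show ∑ i, q i * aeval H (τ i j) = 0
    exact h3 j
  have e : F = F - ∑ i, iX (q i) * iY (b i) := by
    rw [hq0]
    simp
  rw [e]
  exact hq

end Pool.Agent.GQ
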