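import Pool.Agent.Lib.MP_776403_ag.GQ.Spec
import Pool.Agent.Lib.MP_7f581e_Z.FF.Zero

/-!
# MP_776403_ag, THEOREM GP: module CRV, the set of the `x` with `(x, w₀)` on the cone
-/

set_option autoImplicit false

namespace Pool.Agent.GQ

open MvPolynomial

noncomputable section

namespace QCrvAux

/-- The action is an action. -/
theorem act_act {n c : ℕ} (g h : Gl c) (F : Sx n c) : act g (act h F) = act (h * g) F := by
  have e : ((act g : Sx n c →ₐ[ℂ] Sx n c).comp (act h)) = act (h * g) := by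
    apply MvPolynomial.algHom_ext
    rintro (i | j)
    · simp [act]
    · simp only [act, AlgHom.comp_apply, aeval_X, Sum.elim_inr, map_sum, map_mul,
        Units.val_mul, Matrix.mul_apply]
      simp only [MvPolynomial.algHom_C, MvPolynomial.algebraMap_eq, Finset.mul_sum,
        Finset.sum_mul]
      rw [Finset.sum_comm]
      refine Finset.sum_congr rfl fun k _ => Finset.sum_congr rfl fun l _ => ?_
      ring
  rw [← AlgHom.comp_apply, e]

theorem act_one {n c : ℕ} (F : Sx n c) : act (1 : Gl c) F = F := by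
  have e : (act (1 : Gl c) : Sx n c →ₐ[ℂ] Sx n c) = AlgHom.id ℂ _ := by
    apply MvPolynomial.algHom_ext
    rintro (i | j)
    · simp [act]
    · simp only [act, aeval_X, Sum.elim_inr, Units.val_one, Matrix.one_apply, AlgHom.id_apply]
      rw [Finset.sum_eq_single j]
      · simp
      · intro k _ hk
        simp [Ne.symm hk]
      · simp
  rw [e, AlgHom.id_apply]

/-- The ring homomorphism `ℂ[x] → ℂ[x, y] / I`. -/
def ih {n c : ℕ} (I : Ideal (Sx n c)) : Px n →+* (Sx n c ⧸ I) :=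
  (Ideal.Quotient.mk I).comp (iX : Px n →ₐ[ℂ] Sx n c).toRingHom

theorem ih_apply {n c : ℕ} (I : Ideal (Sx n c)) (f : Px n) : ih I f = Ideal.Quotient.mk I (iX f) := rfl

theorem ih_inj {n c : ℕ} {G : Subgroup (Gl c)} {I : Ideal (Sx n c)} (h : Dat n c G I) :
    Function.Injective (ih I) := by
  rw [injective_iff_map_eq_zero]
  intro f hf
  exact h.indep f (Ideal.Quotient.eq_zero_iff_mem.1 hf)

/-- `ℂ[x, y] / I` is integral over `ℂ[x]`. -/
theorem ih_integral {n c : ℕ} {G : Subgroup (Gl c)} [Finite G] {I : Ideal (Sx n c)}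
    (h : Dat n c G I) : (ih I).IsIntegral := by
  classical
  have _ : Fintype G := Fintype.ofFinite G
  intro r
  obtain ⟨F, rfl⟩ := Ideal.Quotient.mk_surjective r
  set P : Polynomial (Sx n c) := ∏ g : G, (Polynomial.X - Polynomial.C (act (g : Gl c) F)) with hP
  have hPm : P.Monic := Polynomial.monic_prod_of_monic _ _ fun g _ => Polynomial.monic_X_sub_C _
  have hPF : P.eval F = 0 := by
    rw [hP, Polynomial.eval_prod]
    refine Finset.prod_eq_zero (Finset.mem_univ (1 : G)) ?_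
    rw [Subgroup.coe_one, act_one]
    simp
  have hinv : ∀ k ∈ G, P.map (act k : Sx n c →ₐ[ℂ] Sx n c).toRingHom = P := by
    intro k hk
    rw [hP, Polynomial.map_prod]
    refine Fintype.prod_equiv (Equiv.mulRight (⟨k, hk⟩ : G)) _ _ fun g => ?_
    have e1 : (act k : Sx n c →ₐ[ℂ] Sx n c).toRingHom (act (g : Gl c) F)
        = act ((g : Gl c) * k) F := act_act k (g : Gl c) F
    have e2 : ((Equiv.mulRight (⟨k, hk⟩ : G) g : G) : Gl c) = (g : Gl c) * k := rfl
    rw [Polynomial.map_sub, Polynomial.map_X, Polynomial.map_C, e1, e2]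
  have hcoef : ∀ i : ℕ, ∃ f : Px n, P.coeff i - iX f ∈ I := by
    intro i
    refine h.quot (P.coeff i) fun k hk => ?_
    have h1 := congrArg (fun p => Polynomial.coeff p i) (hinv k hk)
    simp only [Polynomial.coeff_map] at h1
    have h2 : act k (P.coeff i) = P.coeff i := h1
    rw [h2, sub_self]
    exact I.zero_mem
  have hlift : P.map (Ideal.Quotient.mk I) ∈ Polynomial.lifts (ih I) := by
    rw [Polynomial.lifts_iff_coeff_lifts]
    intro i
    obtain ⟨f, hf⟩ := hcoef i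
    refine ⟨f, ?_⟩
    rw [Polynomial.coeff_map, ih_apply]
    exact (Ideal.Quotient.eq.2 hf).symm
  obtain ⟨q, hq, -, hqm⟩ := Polynomial.lifts_and_natDegree_eq_and_monic hlift (hPm.map _)
  refine ⟨q, hqm, ?_⟩
  rw [← Polynomial.eval_map, hq, Polynomial.eval_map, Polynomial.eval₂_hom, hPF, map_zero]

/-- The maximal ideal of a point of the affine space has height at least `n + 1`. -/
theorem height_pt (n : ℕ) (x₀ : Fin (n + 1) → ℂ) :
    ((n + 1 : ℕ) : ℕ∞) ≤ (RingHom.ker (eval x₀ : Px n →+* ℂ)).height := by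
  let e : Px n ≃ₐ[ℂ] Px n := AlgEquiv.ofAlgHom
    (aeval fun i => (X i + C (x₀ i) : Px n)) (aeval fun i => (X i - C (x₀ i) : Px n))
    (by
      apply MvPolynomial.algHom_ext
      intro i
      simp [MvPolynomial.algHom_C])
    (by
      apply MvPolynomial.algHom_ext
      intro i
      simp [MvPolynomial.algHom_C])
  have h1 := MP7Z.Tsen.zP_height (𝕜 := ℂ) (n + 1) (n + 1) le_rfl
  have h2 : (MP7Z.Tsen.zP ℂ (n + 1) (n + 1)).comap e.toRingEquiv
      = RingHom.ker (eval x₀ : Px n →+* ℂ) := by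
    ext f
    rw [Ideal.mem_comap, MP7Z.Tsen.mem_zP, RingHom.mem_ker]
    have h3 : ((eval (0 : Fin (n + 1) → ℂ)).comp (e : Px n →+* Px n)) = eval x₀ := by
      apply MvPolynomial.ringHom_ext
      · intro r
        simp [e]
      · intro i
        simp [e]
    have h4 := RingHom.congr_fun h3 f
    rw [RingHom.comp_apply] at h4
    exact ⟨fun h => by rw [← h4]; exact h, fun h => by rw [← h4] at h; exact h⟩
  rw [← h2, RingEquiv.height_comap]
  exact h1

/-- The substitution `y = w₀`. -/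
def sw {n c : ℕ} (w₀ : Fin c → ℂ) : Sx n c →ₐ[ℂ] Px n := aeval (Sum.elim X fun j => C (w₀ j))

theorem eval_sw {n c : ℕ} (w₀ : Fin c → ℂ) (x : Fin (n + 1) → ℂ) (F : Sx n c) :
    eval x (sw w₀ F) = eval (Sum.elim x w₀) F := by
  have h : (eval x : Px n →+* ℂ).comp (sw w₀ : Sx n c →ₐ[ℂ] Px n).toRingHom
      = eval (Sum.elim x w₀) := by
    apply MvPolynomial.ringHom_ext
    · intro r
      simp [sw]
    · rintro (i | j)
      · simp [sw]
      · simp [sw]
  exact RingHom.congr_fun h F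

theorem sub_sw {n c : ℕ} (w₀ : Fin c → ℂ) (F : Sx n c) :
    F - iX (sw w₀ F) ∈ Ideal.span (Set.range fun j : Fin c => (X (Sum.inr j) - C (w₀ j) : Sx n c)) := by
  set J := Ideal.span (Set.range fun j : Fin c => (X (Sum.inr j) - C (w₀ j) : Sx n c)) with hJ
  rw [← Ideal.Quotient.eq]
  have h : (Ideal.Quotient.mkₐ ℂ J) =
      ((Ideal.Quotient.mkₐ ℂ J).comp (iX : Px n →ₐ[ℂ] Sx n c)).comp (sw w₀) := by
    apply MvPolynomial.algHom_ext
    rintro (i | j)
    · simp [sw, iX]
    · simp only [sw, iX, AlgHom.comp_apply, aeval_X, Sum.elim_inr, rename_C]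
      exact Ideal.Quotient.eq.2 (Ideal.subset_span ⟨j, rfl⟩)
  exact congrArg (fun f : Sx n c →ₐ[ℂ] (Sx n c ⧸ J) => f F) h

end QCrvAux

open QCrvAux

theorem qCrv : S_Crv := by
  classical
  intro n c G _ I h hcn x₀ w₀ hx
  have hIp : I.IsPrime := h.prime
  let _ : Algebra (Px n) (Sx n c ⧸ I) := (ih I).toAlgebra
  have halg : algebraMap (Px n) (Sx n c ⧸ I) = ih I := rfl
  have hint : Algebra.IsIntegral (Px n) (Sx n c ⧸ I) := ⟨ih_integral h⟩
  have hfaith : FaithfulSMul (Px n) (Sx n c ⧸ I) :=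
    (faithfulSMul_iff_algebraMap_injective _ _).2 (ih_inj h)
  let ev : (Sx n c ⧸ I) →+* ℂ := Ideal.Quotient.lift I (eval (Sum.elim x₀ w₀)) hx
  set M : Ideal (Sx n c ⧸ I) := RingHom.ker ev with hM
  have hMp : M.IsPrime := RingHom.ker_isPrime ev
  have hMx : M.comap (algebraMap (Px n) (Sx n c ⧸ I)) = RingHom.ker (eval x₀ : Px n →+* ℂ) := by
    ext f
    rw [Ideal.mem_comap, halg, ih_apply, hM, RingHom.mem_ker, RingHom.mem_ker]
    have e1 : ev (Ideal.Quotient.mk I (iX f)) = eval (Sum.elim x₀ w₀) (iX f) :=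
      Ideal.Quotient.lift_mk I _ hx
    have e2 : eval (Sum.elim x₀ w₀) (iX f : Sx n c) = eval x₀ f := by
      rw [iX, eval_rename]
      rfl
    rw [e1, e2]
  have hht : ((n + 1 : ℕ) : ℕ∞) ≤ M.height := by
    have hpp : (M.comap (algebraMap (Px n) (Sx n c ⧸ I))).IsPrime := Ideal.comap_isPrime _ _
    have hlo : M.LiesOver (M.comap (algebraMap (Px n) (Sx n c ⧸ I))) := ⟨rfl⟩
    rw [Ideal.height_eq_height_add_of_liesOver_of_hasGoingDown
      (M.comap (algebraMap (Px n) (Sx n c ⧸ I))) M]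
    refine le_trans ?_ le_self_add
    rw [hMx]
    exact height_pt n x₀
  let s : Finset (Sx n c ⧸ I) :=
    Finset.univ.image fun j : Fin c => Ideal.Quotient.mk I (X (Sum.inr j) - C (w₀ j))
  have hsM : Ideal.span (s : Set (Sx n c ⧸ I)) ≤ M := by
    rw [Ideal.span_le]
    intro r hr
    rw [Finset.mem_coe, Finset.mem_image] at hr
    obtain ⟨j, -, rfl⟩ := hr
    rw [SetLike.mem_coe, hM, RingHom.mem_ker]
    have e1 : ev (Ideal.Quotient.mk I (X (Sum.inr j) - C (w₀ j)))
        = eval (Sum.elim x₀ w₀) (X (Sum.inr j) - C (w₀ j)) := Ideal.Quotient.lift_mk I _ hx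
    rw [e1]
    simp
  obtain ⟨q', hq', hq'M⟩ := Ideal.exists_minimalPrimes_le hsM
  have hq'p : q'.IsPrime := hq'.1.1
  have hne : q' ≠ M := by
    intro heq
    rw [heq] at hq'
    have h1 := Ideal.height_le_card_of_mem_minimalPrimes_span_finset hq'
    have h2 : (s.card : ℕ∞) ≤ c := by
      exact_mod_cast (Finset.card_image_le).trans (by simp)
    have h3 : ((n + 1 : ℕ) : ℕ∞) ≤ (c : ℕ∞) := hht.trans (h1.trans h2)
    have h4 : n + 1 ≤ c := by exact_mod_cast h3
    omega
  refine ⟨q'.comap (algebraMap (Px n) (Sx n c ⧸ I)), Ideal.comap_isPrime _ _, ?_, ?_⟩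
  · intro hmax
    have h1 := Ideal.isMaximal_of_isIntegral_of_isMaximal_comap (R := Px n) q' hmax
    exact hne (h1.eq_of_le hMp.ne_top hq'M)
  · intro x hxq F hF
    rw [← eval_sw]
    apply hxq
    rw [Ideal.mem_comap, halg, ih_apply]
    have h1 := sub_sw w₀ F
    have h2 : Ideal.Quotient.mk I (F - iX (sw w₀ F)) ∈ q' := by
      have h3 := Ideal.mem_map_of_mem (Ideal.Quotient.mk I) h1
      rw [Ideal.map_span] at h3
      refine hq'.1.2 (Ideal.span_mono ?_ h3)
      rintro _ ⟨_, ⟨j, rfl⟩, rfl⟩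
      exact Finset.mem_coe.2 (Finset.mem_image.2 ⟨j, Finset.mem_univ _, rfl⟩)
    rw [map_sub, Ideal.Quotient.eq_zero_iff_mem.2 hF, zero_sub] at h2
    exact (Ideal.neg_mem_iff q').1 h2

end

end Pool.Agent.GQ
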