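import Mathlib

/-!
# Projective manifolds with a Galois linear projection: definitions

Coordinates of `P^(n+c)`: `x_0, …, x_n` (index `Sum.inl`) and `y_1, …, y_c` (index `Sum.inr`). The
projection is `(x : y) ↦ x`; its centre is `{x = 0}`. A finite group `G` of invertible `c × c` matrices
acts on the coordinates `y` only.
-/

set_option autoImplicit false

namespace Pool.Agent.GQ

open MvPolynomial

noncomputable section

/-- `ℂ[x_0, …, x_n, y_1, …, y_c]`. -/
abbrev Sx (n c : ℕ) : Type := MvPolynomial (Fin (n + 1) ⊕ Fin c) ℂ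

/-- `ℂ[x_0, …, x_n]`. -/
abbrev Px (n : ℕ) : Type := MvPolynomial (Fin (n + 1)) ℂ

/-- `ℂ[y_1, …, y_c]`. -/
abbrev Vx (c : ℕ) : Type := MvPolynomial (Fin c) ℂ

/-- Invertible complex `c × c` matrices. -/
abbrev Gl (c : ℕ) : Type := Matrix.GeneralLinearGroup (Fin c) ℂ

/-- `ℂ[x] → ℂ[x, y]`. -/
def iX {n c : ℕ} : Px n →ₐ[ℂ] Sx n c := rename Sum.inl

/-- `ℂ[y] → ℂ[x, y]`. -/
def iY {n c : ℕ} : Vx c →ₐ[ℂ] Sx n c := rename Sum.inr

/-- `F(x, y) ↦ F(x, g y)`. -/
def act {n c : ℕ} (g : Gl c) : Sx n c →ₐ[ℂ] Sx n c :=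
  aeval (Sum.elim (fun i => X (Sum.inl i)) fun j =>
    ∑ k, C ((g : Matrix (Fin c) (Fin c) ℂ) j k) * X (Sum.inr k))

/-- `t(y) ↦ t(g y)`. -/
def actV {c : ℕ} (g : Gl c) : Vx c →ₐ[ℂ] Vx c :=
  aeval fun j => ∑ k, C ((g : Matrix (Fin c) (Fin c) ℂ) j k) * X k

/-- The point `(x, y)` is on the affine cone of the projective variety with the ideal `I`. -/
def OnX {n c : ℕ} (I : Ideal (Sx n c)) (x : Fin (n + 1) → ℂ) (y : Fin c → ℂ) : Prop :=
  ∀ F ∈ I, eval (Sum.elim x y) F = 0

/-- `I` is the homogeneous ideal of a projective manifold `X ⊂ P^(n+c)` of dimension `n`, not contained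
in a hyperplane, on which the finite group `G` of matrices acts through the coordinates `y`, such that
`(x : y) ↦ x` is the quotient of `X` by `G`:
* `prime`, `homog`: `I` is a homogeneous prime ideal;
* `nondeg`: no nonzero linear form vanishes on `X`;
* `indep`: `x_0, …, x_n` are algebraically independent modulo `I`;
* `smooth`: at every point of `X` (every nonzero point `a` of the cone) the gradients of the elements of
  `I` span a space of dimension `c` (Jacobian criterion);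
* `stable`: `X` is mapped to itself by `G`;
* `quot`: the `G`-invariant elements of `ℂ[x, y] / I` are the classes of the polynomials in `x`. -/
structure Dat (n c : ℕ) (G : Subgroup (Gl c)) (I : Ideal (Sx n c)) : Prop where
  prime : I.IsPrime
  homog : ∀ F ∈ I, ∀ k : ℕ, homogeneousComponent k F ∈ I
  nondeg : ∀ F ∈ I, F.IsHomogeneous 1 → F = 0
  indep : ∀ f : Px n, iX f ∈ I → f = 0
  smooth : ∀ a : Fin (n + 1) ⊕ Fin c → ℂ, a ≠ 0 → (∀ F ∈ I, eval a F = 0) →
    Module.finrank ℂ (Submodule.span ℂ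
      {v : Fin (n + 1) ⊕ Fin c → ℂ | ∃ F ∈ I, v = fun i => eval a (pderiv i F)}) = c
  stable : ∀ g ∈ G, ∀ F ∈ I, act g F ∈ I
  quot : ∀ F : Sx n c, (∀ g ∈ G, act g F - F ∈ I) → ∃ f : Px n, F - iX f ∈ I

end

end Pool.Agent.GQ
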