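import Pool.Agent.Lib.MP_776403_ag.GQ.Spec

/-!
# Invariants with prescribed differential at a point with trivial stabilizer
-/

set_option autoImplicit false

namespace Pool.Agent.GQ

open MvPolynomial

noncomputable section

namespace QDifAux

variable {c : ℕ}

theorem actV_X (g : Gl c) (j : Fin c) :
    actV g (X j) = ∑ k, C ((g : Matrix (Fin c) (Fin c) ℂ) j k) * X k := by
  unfold actV
  rw [aeval_X]

theorem actV_C (g : Gl c) (a : ℂ) : actV g (C a) = C a := (actV g).commutes a

theorem actV_mul (g h : Gl c) (F : Vx c) : actV h (actV g F) = actV (g * h) F := by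
  have e : (actV h).comp (actV g) = actV (g * h) := by
    refine MvPolynomial.algHom_ext fun j => ?_
    rw [AlgHom.comp_apply, actV_X, actV_X, map_sum]
    have h1 : ∀ l, ((g * h : Gl c) : Matrix (Fin c) (Fin c) ℂ) j l =
        ∑ k, (g : Matrix (Fin c) (Fin c) ℂ) j k * (h : Matrix (Fin c) (Fin c) ℂ) k l := fun l => rfl
    have h2 : ∀ k, actV h (C ((g : Matrix (Fin c) (Fin c) ℂ) j k) * X k) =
        ∑ l, C ((g : Matrix (Fin c) (Fin c) ℂ) j k * (h : Matrix (Fin c) (Fin c) ℂ) k l) * X l := by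
      intro k
      rw [map_mul, actV_C, actV_X, Finset.mul_sum]
      exact Finset.sum_congr rfl fun l _ => by rw [C_mul, mul_assoc]
    rw [Finset.sum_congr rfl fun k _ => h2 k, Finset.sum_comm]
    refine Finset.sum_congr rfl fun l _ => ?_
    rw [h1, map_sum, Finset.sum_mul]
  exact DFunLike.congr_fun e F

theorem eval_actV (g : Gl c) (y : Fin c → ℂ) (F : Vx c) :
    eval y (actV g F) = eval ((g : Matrix (Fin c) (Fin c) ℂ).mulVec y) F := by
  induction F using MvPolynomial.induction_on with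
  | C a => rw [actV_C, eval_C, eval_C]
  | add p q hp hq => rw [map_add, map_add, map_add, hp, hq]
  | mul_X p j hp =>
    rw [map_mul, map_mul, map_mul, hp, actV_X, map_sum, eval_X]
    congr 1
    refine Finset.sum_congr rfl fun k _ => ?_
    rw [map_mul, eval_C, eval_X]

/-- chain rule -/
theorem pderiv_actV (g : Gl c) (i : Fin c) (F : Vx c) :
    pderiv i (actV g F) = ∑ k, actV g (pderiv k F) * C ((g : Matrix (Fin c) (Fin c) ℂ) k i) := by
  classical
  induction F using MvPolynomial.induction_on with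
  | C a =>
    rw [actV_C, pderiv_C]
    refine (Finset.sum_eq_zero fun k _ => ?_).symm
    rw [pderiv_C, map_zero, zero_mul]
  | add p q hp hq =>
    rw [map_add, map_add, hp, hq, ← Finset.sum_add_distrib]
    refine Finset.sum_congr rfl fun k _ => ?_
    rw [map_add, map_add, add_mul]
  | mul_X p j hp =>
    have h1 : pderiv i (actV g (X j)) = C ((g : Matrix (Fin c) (Fin c) ℂ) j i) := by
      rw [actV_X, map_sum, Finset.sum_eq_single i]
      · rw [pderiv_C_mul, pderiv_X_self, mul_one]
      · intro k _ hk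
        rw [pderiv_C_mul, pderiv_X_of_ne hk, mul_zero]
      · intro h
        exact absurd (Finset.mem_univ i) h
    have h2 : ∀ k, actV g (pderiv k (p * X j)) * C ((g : Matrix (Fin c) (Fin c) ℂ) k i) =
        actV g (pderiv k p) * C ((g : Matrix (Fin c) (Fin c) ℂ) k i) * actV g (X j) +
          (if k = j then actV g p * C ((g : Matrix (Fin c) (Fin c) ℂ) j i) else 0) := by
      intro k
      rw [pderiv_mul, map_add, map_mul, map_mul]
      by_cases hk : k = j
      · rw [if_pos hk, hk, pderiv_X_self, map_one]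
        ring
      · rw [if_neg hk, pderiv_X_of_ne (Ne.symm hk), map_zero]
        ring
    rw [map_mul, pderiv_mul, hp, h1, Finset.sum_congr rfl fun k _ => h2 k, Finset.sum_add_distrib,
      Finset.sum_ite_eq' Finset.univ j, if_pos (Finset.mem_univ j), Finset.sum_mul]

/-- a separating form -/
theorem sep {b b' : Fin c → ℂ} (h : b' ≠ b) : ∃ κ : Vx c, eval b κ = 1 ∧ eval b' κ = 0 := by
  obtain ⟨j, hj⟩ := Function.ne_iff.1 h
  refine ⟨C ((b j - b' j)⁻¹) * (X j - C (b' j)), ?_, ?_⟩
  · rw [map_mul, map_sub, eval_C, eval_X, eval_C]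
    exact inv_mul_cancel₀ (sub_ne_zero.2 (Ne.symm hj))
  · rw [map_mul, map_sub, eval_C, eval_X, eval_C, sub_self, mul_zero]

end QDifAux

open QDifAux

theorem qDif : S_Dif := by
  classical
  intro c G _ b hb v
  have : Fintype G := Fintype.ofFinite G
  have hκ : ∀ g : G, ∃ κ : Vx c, g ≠ 1 → (eval b κ = 1 ∧
      eval (((g : Gl c) : Matrix (Fin c) (Fin c) ℂ).mulVec b) κ = 0) := by
    intro g
    by_cases hg : g = 1
    · exact ⟨0, fun h => absurd hg h⟩
    · obtain ⟨κ, h1⟩ := sep (b := b) (b' := ((g : Gl c) : Matrix (Fin c) (Fin c) ℂ).mulVec b)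
        (fun h => hg (Subtype.ext (hb g g.2 h)))
      exact ⟨κ, fun _ => h1⟩
  choose κ hκ using hκ
  obtain ⟨L, hL⟩ : ∃ L : Vx c, L = ∑ i, C (v i) * (X i - C (b i)) := ⟨_, rfl⟩
  have hLb : eval b L = 0 := by
    rw [hL, map_sum]
    refine Finset.sum_eq_zero fun i _ => ?_
    rw [map_mul, map_sub, eval_X, eval_C, eval_C, sub_self, mul_zero]
  have hLd : ∀ i, pderiv i L = C (v i) := by
    intro i
    rw [hL, map_sum, Finset.sum_eq_single i]
    · rw [pderiv_C_mul, map_sub, pderiv_X_self, pderiv_C, sub_zero, mul_one]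
    · intro k _ hk
      rw [pderiv_C_mul, map_sub, pderiv_X_of_ne hk, pderiv_C, sub_zero, mul_zero]
    · intro h
      exact absurd (Finset.mem_univ i) h
  obtain ⟨Pr, hPr⟩ : ∃ Pr : Vx c, Pr = ∏ g ∈ Finset.univ.erase (1 : G), κ g ^ 2 := ⟨_, rfl⟩
  have hPb : eval b Pr = 1 := by
    rw [hPr, map_prod]
    refine Finset.prod_eq_one fun g hg => ?_
    rw [map_pow, (hκ g (Finset.ne_of_mem_erase hg)).1, one_pow]
  have hsum : ∀ i, ∀ g : G, g ≠ 1 → eval b (pderiv i (actV (g : Gl c) (L * Pr))) = 0 := by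
    intro i g hg
    have h0 := (hκ g hg).2
    rw [pderiv_actV, map_sum]
    refine Finset.sum_eq_zero fun k _ => ?_
    have h1 : L * Pr = κ g * (κ g * (L * ∏ g' ∈ (Finset.univ.erase (1 : G)).erase g, κ g' ^ 2)) := by
      rw [hPr, ← Finset.mul_prod_erase _ _ (Finset.mem_erase.2 ⟨hg, Finset.mem_univ g⟩)]
      ring
    rw [map_mul, eval_actV, h1, pderiv_mul]
    simp only [map_mul, map_add, h0, mul_zero, zero_mul, add_zero]
  have hone : ∀ i, eval b (pderiv i (actV ((1 : G) : Gl c) (L * Pr))) = v i := by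
    intro i
    rw [pderiv_actV, map_sum, Finset.sum_eq_single i]
    · rw [map_mul, eval_actV, pderiv_mul, hLd, map_add, map_mul, map_mul, eval_C, eval_C]
      have e1 : (((1 : G) : Gl c) : Matrix (Fin c) (Fin c) ℂ) = 1 := rfl
      rw [e1, Matrix.one_mulVec, Matrix.one_apply_eq, hLb, hPb]
      ring
    · intro k _ hk
      have e1 : (((1 : G) : Gl c) : Matrix (Fin c) (Fin c) ℂ) = 1 := rfl
      rw [map_mul, eval_C, e1, Matrix.one_apply_ne hk, mul_zero]
    · intro h
      exact absurd (Finset.mem_univ i) h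
  refine ⟨∑ g : G, actV (g : Gl c) (L * Pr), ?_, fun i => ?_⟩
  · intro h hh
    rw [map_sum]
    refine Fintype.sum_equiv (Equiv.mulRight (⟨h, hh⟩ : G)) _ _ fun g => ?_
    rw [actV_mul]
    rfl
  · rw [map_sum, map_sum, Finset.sum_eq_single (1 : G)]
    · exact hone i
    · intro g _ hg
      exact hsum i g hg
    · intro h
      exact absurd (Finset.mem_univ _) h

end

end Pool.Agent.GQ
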