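import Pool.Agent.Lib.MP_776403_ag.GQ.Spec

/-!
# FIB: the fibres of the projection
-/

set_option autoImplicit false

namespace Pool.Agent.GQ

open MvPolynomial Filter Topology

noncomputable section

namespace QFibAux

variable {n c : ℕ}

theorem eval_act (g : Gl c) (F : Sx n c) (x : Fin (n + 1) → ℂ) (y : Fin c → ℂ) :
    eval (Sum.elim x y) (act g F) =
      eval (Sum.elim x ((g : Matrix (Fin c) (Fin c) ℂ).mulVec y)) F := by
  induction F using MvPolynomial.induction_on with
  | C a => simp [act]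
  | add p q hp hq => rw [map_add, map_add, map_add, hp, hq]
  | mul_X p i hp =>
    rw [map_mul, map_mul, map_mul, hp]
    congr 1
    rcases i with i | j
    · simp [act]
    · simp [act, Matrix.mulVec, dotProduct]

theorem ext_eval {F H : Sx n c}
    (h : ∀ (x : Fin (n + 1) → ℂ) (y : Fin c → ℂ), eval (Sum.elim x y) F = eval (Sum.elim x y) H) :
    F = H := by
  refine MvPolynomial.funext fun z => ?_
  have hz : z = Sum.elim (fun i => z (Sum.inl i)) (fun j => z (Sum.inr j)) := by
    funext i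
    rcases i with i | j <;> rfl
  rw [hz]
  exact h _ _

theorem act_act (g h : Gl c) (F : Sx n c) : act g (act h F) = act (h * g) F := by
  refine ext_eval fun x y => ?_
  rw [eval_act, eval_act, eval_act, Matrix.mulVec_mulVec, Units.val_mul]

theorem act_one (F : Sx n c) : act 1 F = F := by
  refine ext_eval fun x y => ?_
  rw [eval_act, Units.val_one, Matrix.one_mulVec]

theorem eval_iX (f : Px n) (x : Fin (n + 1) → ℂ) (y : Fin c → ℂ) :
    eval (Sum.elim x y) (iX f : Sx n c) = eval x f := by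
  rw [iX, eval_rename]
  rfl

theorem act_iX (g : Gl c) (f : Px n) : act g (iX f : Sx n c) = iX f := by
  refine ext_eval fun x y => ?_
  rw [eval_act, eval_iX, eval_iX]

theorem act_sum (G : Subgroup (Gl c)) [Fintype G] (F : Sx n c) (h : Gl c) (hh : h ∈ G) :
    act h (∑ g : G, act (g : Gl c) F) = ∑ g : G, act (g : Gl c) F := by
  rw [map_sum]
  refine Fintype.sum_equiv (Equiv.mulRight (⟨h, hh⟩ : G)) _ _ fun g => ?_
  rw [act_act]
  rfl

theorem act_prod (G : Subgroup (Gl c)) [Fintype G] (F : Sx n c) (h : Gl c) (hh : h ∈ G) :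
    act h (∏ g : G, act (g : Gl c) F) = ∏ g : G, act (g : Gl c) F := by
  rw [map_prod]
  refine Fintype.prod_equiv (Equiv.mulRight (⟨h, hh⟩ : G)) _ _ fun g => ?_
  rw [act_act]
  rfl

/-- invariant polynomials are polynomials in `x` modulo `I` -/
theorem quot' {G : Subgroup (Gl c)} {I : Ideal (Sx n c)} (hD : Dat n c G I) {F : Sx n c}
    (h : ∀ g ∈ G, act g F = F) : ∃ f : Px n, F - iX f ∈ I :=
  hD.quot F fun g hg => by rw [h g hg, sub_self]; exact I.zero_mem

theorem eval_smul_hom {σ : Type} (F : MvPolynomial σ ℂ) (k : ℕ) (hF : F.IsHomogeneous k) (s : ℂ)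
    (a : σ → ℂ) : eval (s • a) F = s ^ k * eval a F := by
  rw [eval_eq, eval_eq, Finset.mul_sum]
  refine Finset.sum_congr rfl fun d hd => ?_
  rw [hF.degree_eq_sum_deg_support hd, ← Finset.prod_pow_eq_pow_sum]
  simp only [Pi.smul_apply, smul_eq_mul, mul_pow, Finset.prod_mul_distrib]
  ring

theorem scale {G : Subgroup (Gl c)} {I : Ideal (Sx n c)} (hD : Dat n c G I) (s : ℂ)
    (x : Fin (n + 1) → ℂ) (y : Fin c → ℂ) (h : OnX I x y) : OnX I (s • x) (s • y) := by
  intro F hF
  have h1 : (Sum.elim (s • x) (s • y) : Fin (n + 1) ⊕ Fin c → ℂ) = s • Sum.elim x y := by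
    funext i
    rcases i with i | j <;> rfl
  rw [h1, ← sum_homogeneousComponent F, map_sum]
  refine Finset.sum_eq_zero fun k _ => ?_
  rw [eval_smul_hom _ k (homogeneousComponent_isHomogeneous k F), h _ (hD.homog F hF k), mul_zero]

theorem root_bound (z : ℂ) (D : ℕ) (b : ℕ → ℂ) (K : ℝ) (hK : 0 ≤ K)
    (h : z ^ (D + 1) + ∑ i ∈ Finset.range (D + 1), b i * z ^ i = 0)
    (hb : ∀ i ∈ Finset.range (D + 1), ‖b i‖ ≤ K) : ‖z‖ ≤ 1 + (D + 1) * K := by
  by_cases hz : ‖z‖ ≤ 1
  · have : 0 ≤ ((D : ℝ) + 1) * K := by positivity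
    linarith
  · have hz1 : 1 ≤ ‖z‖ := le_of_lt (not_le.1 hz)
    have h1 : z ^ (D + 1) = -∑ i ∈ Finset.range (D + 1), b i * z ^ i := eq_neg_of_add_eq_zero_left h
    have h2 : ‖z‖ ^ (D + 1) ≤ (D + 1) * K * ‖z‖ ^ D := by
      rw [← norm_pow, h1, norm_neg]
      refine (norm_sum_le _ _).trans ?_
      have h3 : ∀ i ∈ Finset.range (D + 1), ‖b i * z ^ i‖ ≤ K * ‖z‖ ^ D := by
        intro i hi
        rw [norm_mul, norm_pow]
        have hi' : i ≤ D := Nat.lt_succ_iff.1 (Finset.mem_range.1 hi)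
        exact mul_le_mul (hb i hi) (pow_le_pow_right₀ hz1 hi') (by positivity) hK
      refine (Finset.sum_le_sum h3).trans ?_
      rw [Finset.sum_const, Finset.card_range, nsmul_eq_mul]
      push_cast
      rw [mul_assoc]
    have h4 : 0 < ‖z‖ ^ D := by positivity
    have h5 : ‖z‖ ≤ (D + 1) * K := by
      rw [pow_succ, mul_comm] at h2
      exact le_of_mul_le_mul_right h2 h4
    linarith

theorem surj {G : Subgroup (Gl c)} [Fintype G] {I : Ideal (Sx n c)} (hD : Dat n c G I)
    (a : Fin (n + 1) → ℂ) : ∃ y, OnX I a y := by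
  classical
  let K : Ideal (Sx n c) :=
    I ⊔ Ideal.span (Set.range fun i : Fin (n + 1) => (X (Sum.inl i) - C (a i) : Sx n c))
  by_cases hK : K = ⊤
  · exfalso
    have h1 : (1 : Sx n c) ∈ K := hK ▸ Submodule.mem_top
    obtain ⟨F, hF, s, hs, hFs⟩ := Submodule.mem_sup.1 h1
    obtain ⟨H, hH⟩ := Ideal.mem_span_range_iff_exists_fun.1 hs
    choose f hf using fun i : Fin (n + 1) => quot' hD (act_sum G (H i))
    have hfix : ∀ (g : Gl c) (i : Fin (n + 1)),
        act g (X (Sum.inl i) - C (a i) : Sx n c) = X (Sum.inl i) - C (a i) := by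
      intro g i
      simp [act]
    have h2 : ∑ g : G, act (g : Gl c) (1 : Sx n c) = ∑ g : G, act (g : Gl c) F +
        ∑ i, (∑ g : G, act (g : Gl c) (H i)) * (X (Sum.inl i) - C (a i)) := by
      rw [← hFs]
      simp only [map_add, Finset.sum_add_distrib]
      congr 1
      rw [← hH]
      simp only [map_sum, map_mul, hfix]
      rw [Finset.sum_comm]
      refine Finset.sum_congr rfl fun i _ => ?_
      rw [Finset.sum_mul]
    have h3 : ∑ g : G, act (g : Gl c) F ∈ I := I.sum_mem fun g _ => hD.stable g g.2 F hF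
    have h4 : iX (((Fintype.card G : ℕ) : Px n) - ∑ i, f i * (X i - C (a i))) ∈ I := by
      have h5 : (iX (((Fintype.card G : ℕ) : Px n) - ∑ i, f i * (X i - C (a i))) : Sx n c) =
          ∑ g : G, act (g : Gl c) F + ∑ i, ((∑ g : G, act (g : Gl c) (H i)) - iX (f i)) *
            (X (Sum.inl i) - C (a i)) := by
        have h6 : ∑ g : G, act (g : Gl c) (1 : Sx n c) = ((Fintype.card G : ℕ) : Sx n c) := by
          simp only [map_one]
          rw [Finset.sum_const, Finset.card_univ, nsmul_eq_mul, mul_one]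
        rw [h6] at h2
        simp only [sub_mul, Finset.sum_sub_distrib]
        rw [map_sub, map_natCast, h2, map_sum, ← add_sub_assoc]
        congr 1
        refine Finset.sum_congr rfl fun i _ => ?_
        rw [map_mul, map_sub]
        simp [iX]
      rw [h5]
      exact I.add_mem h3 (I.sum_mem fun i _ => I.mul_mem_right _ (hf i))
    have h7 := hD.indep _ h4
    have h8 := congrArg (eval a) h7
    rw [map_sub, map_natCast, map_sum, map_zero] at h8
    have h9 : ∑ i, eval a (f i * (X i - C (a i))) = 0 := Finset.sum_eq_zero fun i _ => by simp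
    rw [h9, sub_zero] at h8
    have h10 : (Fintype.card G : ℕ) ≠ 0 := Fintype.card_ne_zero
    exact h10 (by exact_mod_cast h8)
  · obtain ⟨M, hM, hKM⟩ := Ideal.exists_le_maximal K hK
    obtain ⟨z, hz⟩ := isMaximal_iff_eq_vanishingIdeal_singleton.1 hM
    have h1 : ∀ i, z (Sum.inl i) = a i := by
      intro i
      have h2 : (X (Sum.inl i) - C (a i) : Sx n c) ∈ M :=
        hKM ((le_sup_right : _ ≤ K) (Ideal.subset_span ⟨i, rfl⟩))
      rw [hz, mem_vanishingIdeal_singleton_iff] at h2
      simpa [sub_eq_zero] using h2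
    refine ⟨fun j => z (Sum.inr j), ?_⟩
    intro F hF
    have h2 : F ∈ M := hKM ((le_sup_left : _ ≤ K) hF)
    rw [hz, mem_vanishingIdeal_singleton_iff] at h2
    have h3 : (Sum.elim a fun j => z (Sum.inr j) : Fin (n + 1) ⊕ Fin c → ℂ) = z := by
      funext i
      rcases i with i | j
      · exact (h1 i).symm
      · rfl
    rw [h3]
    simpa using h2

theorem orbit {G : Subgroup (Gl c)} [Fintype G] {I : Ideal (Sx n c)} (hD : Dat n c G I)
    (x : Fin (n + 1) → ℂ) (y y' : Fin c → ℂ) (hy : OnX I x y) (hy' : OnX I x y') :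
    ∃ g ∈ G, y' = (g : Matrix (Fin c) (Fin c) ℂ).mulVec y := by
  classical
  by_contra hno
  push Not at hno
  have h1 : ∀ g : G, ∃ j, (((g : Gl c) : Matrix (Fin c) (Fin c) ℂ).mulVec y') j ≠ y j := by
    intro g
    by_contra hj
    push Not at hj
    have h2 : (((g : Gl c) : Matrix (Fin c) (Fin c) ℂ).mulVec y') = y := funext hj
    refine hno (g : Gl c)⁻¹ (G.inv_mem g.2) ?_
    rw [← h2, Matrix.mulVec_mulVec, ← Units.val_mul, inv_mul_cancel, Units.val_one, Matrix.one_mulVec]
  choose j hj using h1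
  let l : G → Sx n c := fun g =>
    C (((((g : Gl c) : Matrix (Fin c) (Fin c) ℂ).mulVec y') (j g) - y (j g))⁻¹) *
      (X (Sum.inr (j g)) - C (y (j g)))
  have hl1 : ∀ g, eval (Sum.elim x y) (l g) = 0 := by
    intro g
    simp [l]
  have hl2 : ∀ g : G, eval (Sum.elim x (((g : Gl c) : Matrix (Fin c) (Fin c) ℂ).mulVec y')) (l g) = 1 := by
    intro g
    simp only [l, map_mul, map_sub, eval_C, eval_X, Sum.elim_inr]
    exact inv_mul_cancel₀ (sub_ne_zero.2 (hj g))
  let U : Sx n c := 1 - ∏ g : G, (1 - l g)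
  have hU1 : eval (Sum.elim x y) U = 0 := by
    simp only [U, map_sub, map_one, map_prod, hl1, sub_zero]
    rw [Finset.prod_const_one, sub_self]
  have hU2 : ∀ g : G, eval (Sum.elim x (((g : Gl c) : Matrix (Fin c) (Fin c) ℂ).mulVec y')) U = 1 := by
    intro g
    have h3 : eval (Sum.elim x (((g : Gl c) : Matrix (Fin c) (Fin c) ℂ).mulVec y'))
        (∏ g : G, (1 - l g)) = 0 := by
      rw [map_prod]
      refine Finset.prod_eq_zero (Finset.mem_univ g) ?_
      rw [map_sub, map_one, hl2, sub_self]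
    rw [show U = 1 - ∏ g : G, (1 - l g) from rfl, map_sub, map_one, h3, sub_zero]
  obtain ⟨f, hf⟩ := quot' hD (act_prod G U)
  have e1 := hy _ hf
  have e2 := hy' _ hf
  rw [map_sub, eval_iX, map_prod] at e1 e2
  have e3 : ∏ g : G, eval (Sum.elim x y) (act (g : Gl c) U) = 0 := by
    refine Finset.prod_eq_zero (Finset.mem_univ (1 : G)) ?_
    rw [show ((1 : G) : Gl c) = 1 from rfl, act_one, hU1]
  have e4 : ∏ g : G, eval (Sum.elim x y') (act (g : Gl c) U) = 1 :=
    Finset.prod_eq_one fun g _ => by rw [eval_act, hU2]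
  rw [e3] at e1
  rw [e4] at e2
  have : (1 : ℂ) = 0 := by
    rw [← sub_eq_zero]
    linear_combination e2 - e1
  exact one_ne_zero this

/-- the characteristic polynomial of `y_j` -/
def cp (G : Subgroup (Gl c)) [Fintype G] (j : Fin c) : Polynomial (Sx n c) :=
  ∏ g : G, (Polynomial.X - Polynomial.C (act (g : Gl c) (X (Sum.inr j))))

theorem cp_monic (G : Subgroup (Gl c)) [Fintype G] (j : Fin c) : (cp (n := n) G j).Monic :=
  Polynomial.monic_prod_X_sub_C _ _

theorem cp_deg (G : Subgroup (Gl c)) [Fintype G] (j : Fin c) :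
    (cp (n := n) G j).natDegree = Fintype.card G := by
  rw [cp, Polynomial.natDegree_prod_of_monic _ _ fun g _ => Polynomial.monic_X_sub_C _]
  simp

theorem cp_inv (G : Subgroup (Gl c)) [Fintype G] (j : Fin c) (h : Gl c) (hh : h ∈ G) (i : ℕ) :
    act h ((cp (n := n) G j).coeff i) = (cp (n := n) G j).coeff i := by
  have h1 : (cp (n := n) G j).map (act h).toRingHom = cp (n := n) G j := by
    rw [cp, Polynomial.map_prod]
    refine Fintype.prod_equiv (Equiv.mulRight (⟨h, hh⟩ : G)) _ _ fun g => ?_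
    rw [Polynomial.map_sub, Polynomial.map_X, Polynomial.map_C]
    exact congrArg (fun t => Polynomial.X - Polynomial.C t) (act_act h g _)
  have h2 := congrArg (fun p => Polynomial.coeff p i) h1
  simp only [Polynomial.coeff_map] at h2
  exact h2

theorem cp_root (G : Subgroup (Gl c)) [Fintype G] (j : Fin c) :
    (cp (n := n) G j).eval (X (Sum.inr j)) = 0 := by
  rw [cp, Polynomial.eval_prod]
  refine Finset.prod_eq_zero (Finset.mem_univ (1 : G)) ?_
  rw [show ((1 : G) : Gl c) = 1 from rfl, act_one]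
  simp

theorem bdd {G : Subgroup (Gl c)} [Fintype G] {I : Ideal (Sx n c)} (hD : Dat n c G I) (R : ℝ) :
    ∃ B : ℝ, ∀ (x : Fin (n + 1) → ℂ) (y : Fin c → ℂ), ‖x‖ ≤ R → OnX I x y → ‖y‖ ≤ B := by
  classical
  choose f hf using fun (j : Fin c) (i : ℕ) => quot' hD (fun g hg => cp_inv (n := n) G j g hg i)
  obtain ⟨D, hDc⟩ : ∃ D, Fintype.card G = D + 1 := ⟨Fintype.card G - 1, by
    have := Fintype.card_pos (α := G)
    omega⟩
  have hcomp : IsCompact (Metric.closedBall (0 : Fin (n + 1) → ℂ) R) := isCompact_closedBall _ _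
  have hbd : ∀ (j : Fin c) (i : ℕ), ∃ K : ℝ, ∀ x ∈ Metric.closedBall (0 : Fin (n + 1) → ℂ) R,
      ‖eval x (f j i)‖ ≤ K := fun j i =>
    hcomp.exists_bound_of_continuousOn (MvPolynomial.continuous_eval (f j i)).continuousOn
  choose K hK using hbd
  let K' : ℝ := ∑ j, ∑ i ∈ Finset.range (D + 1), |K j i|
  have hK' : 0 ≤ K' := Finset.sum_nonneg fun j _ => Finset.sum_nonneg fun i _ => abs_nonneg _
  have hKK : ∀ j, ∀ i ∈ Finset.range (D + 1), K j i ≤ K' := by
    intro j i hi
    refine (le_abs_self _).trans ?_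
    refine le_trans ?_ (Finset.single_le_sum (f := fun j => ∑ i ∈ Finset.range (D + 1), |K j i|)
      (fun j _ => Finset.sum_nonneg fun i _ => abs_nonneg _) (Finset.mem_univ j))
    exact Finset.single_le_sum (f := fun i => |K j i|) (fun i _ => abs_nonneg _) hi
  refine ⟨1 + (D + 1) * K', ?_⟩
  intro x y hx hy
  rw [pi_norm_le_iff_of_nonneg (by positivity)]
  intro j
  refine root_bound (y j) D (fun i => eval x (f j i)) K' hK' ?_ ?_
  · have h1 := cp_root (n := n) G j
    rw [Polynomial.eval_eq_sum_range, cp_deg, hDc, Finset.sum_range_succ] at h1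
    have h2 : (cp (n := n) G j).coeff (D + 1) = 1 := by
      have := cp_monic (n := n) G j
      rw [Polynomial.Monic, Polynomial.leadingCoeff, cp_deg, hDc] at this
      exact this
    rw [h2, one_mul] at h1
    have h3 := congrArg (eval (Sum.elim x y)) h1
    rw [map_add, map_sum, map_zero, map_pow, eval_X, Sum.elim_inr] at h3
    have h4 : ∀ i, eval (Sum.elim x y) ((cp (n := n) G j).coeff i) = eval x (f j i) := by
      intro i
      have := hy _ (hf j i)
      rwa [map_sub, eval_iX, sub_eq_zero] at this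
    simp only [map_mul, map_pow, eval_X, Sum.elim_inr, h4] at h3
    rw [add_comm]
    exact h3
  · intro i hi
    exact (hK j i x (by simpa using hx)).trans (hKK j i hi)

end QFibAux

open QFibAux

theorem qFib : S_Fib := by
  intro n c G _ I hD
  haveI : Fintype G := Fintype.ofFinite G
  refine ⟨fun x => surj hD x, fun x y y' hy hy' => orbit hD x y y' hy hy', ?_, fun R => bdd hD R,
    fun s x y h => scale hD s x y h⟩
  intro g hg x y h F hF
  rw [← eval_act]
  exact h _ (hD.stable g hg F hF)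

end

end Pool.Agent.GQ
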