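import Pool.Agent.Lib.MP_776403_ag.GQ.Spec

/-!
# THEOREM GP, module Fix (helper26): there is no invariant linear form in `y`
-/

set_option autoImplicit false

namespace Pool.Agent.GQ

open MvPolynomial

theorem qFix : S_Fix := by
  intro n c G I hD v hv
  set F : Sx n c := ∑ j, C (v j) * X (Sum.inr j) with hF
  have hact : ∀ g ∈ G, act g F - F ∈ I := by
    intro g hg
    have e1 : ∀ j, act g (C (v j) * X (Sum.inr j) : Sx n c) =
        ∑ k, C (v j * (g : Matrix (Fin c) (Fin c) ℂ) j k) * X (Sum.inr k) := by
      intro j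
      rw [map_mul]
      unfold act
      rw [aeval_X, Sum.elim_inr, aeval_C, algebraMap_eq, Finset.mul_sum]
      refine Finset.sum_congr rfl fun k _ => ?_
      rw [C_mul, mul_assoc]
    have e : act g F = F := by
      rw [hF, map_sum, Finset.sum_congr rfl fun j _ => e1 j, Finset.sum_comm]
      refine Finset.sum_congr rfl fun k _ => ?_
      rw [← Finset.sum_mul, ← map_sum, hv g hg k]
    rw [e, sub_self]
    exact I.zero_mem
  obtain ⟨f, hf⟩ := hD.quot F hact
  have h0 := hD.nondeg _ (hD.homog _ hf 1) (homogeneousComponent_isHomogeneous 1 _)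
  funext j
  have h1 := congrArg (coeff (Finsupp.single (Sum.inr j : Fin (n + 1) ⊕ Fin c) 1)) h0
  have h2 : coeff (Finsupp.single (Sum.inr j : Fin (n + 1) ⊕ Fin c) 1) (iX f : Sx n c) = 0 := by
    refine coeff_rename_eq_zero _ _ _ fun u hu => ?_
    exfalso
    have h3 := DFunLike.congr_fun hu (Sum.inr j)
    rw [Finsupp.single_eq_same, Finsupp.mapDomain_of_notMem_range] at h3
    · exact zero_ne_one h3
    · rintro ⟨i, hi⟩
      exact Sum.inl_ne_inr hi
  have h4 : coeff (Finsupp.single (Sum.inr j : Fin (n + 1) ⊕ Fin c) 1) F = v j := by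
    rw [hF, coeff_sum, Finset.sum_eq_single j]
    · rw [coeff_C_mul, coeff_X, if_pos rfl, mul_one]
    · intro k _ hk
      rw [coeff_C_mul, coeff_X, if_neg, mul_zero]
      intro h
      exact hk (Sum.inr_injective (Finsupp.single_left_injective one_ne_zero h))
    · intro h
      exact absurd (Finset.mem_univ j) h
  rw [coeff_homogeneousComponent, if_pos (Finsupp.degree_single _ _), coeff_sub, h2, h4, sub_zero,
    coeff_zero] at h1
  exact h1

end Pool.Agent.GQ
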