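import Pool.Agent.Lib.MP_776403_ag.GQ.Spec

/-!
# THEOREM GP, block GEN: general orbits span
-/

set_option autoImplicit false

namespace Pool.Agent.GQ

open MvPolynomial

namespace QGenAux

variable {n c : ℕ}

theorem act_inl (g : Gl c) (i : Fin (n + 1)) : act (n := n) g (X (Sum.inl i)) = X (Sum.inl i) := by
  unfold act
  rw [aeval_X]
  rfl

theorem act_inr (g : Gl c) (j : Fin c) : act (n := n) g (X (Sum.inr j)) =
    ∑ k, C ((g : Matrix (Fin c) (Fin c) ℂ) j k) * X (Sum.inr k) := by
  unfold act
  rw [aeval_X]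
  rfl

theorem act_act (g h : Gl c) (F : Sx n c) : act g (act h F) = act (h * g) F := by
  have e : (act (n := n) g).comp (act h) = act (h * g) := by
    apply MvPolynomial.algHom_ext
    rintro (i | j)
    · rw [AlgHom.comp_apply, act_inl, act_inl, act_inl]
    · rw [AlgHom.comp_apply, act_inr, map_sum, act_inr]
      have h1 : ∀ k, act (n := n) g (C ((h : Matrix (Fin c) (Fin c) ℂ) j k) * X (Sum.inr k)) =
          ∑ l, C ((h : Matrix (Fin c) (Fin c) ℂ) j k * (g : Matrix (Fin c) (Fin c) ℂ) k l) * X (Sum.inr l) := by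
        intro k
        have hC : act (n := n) g (C ((h : Matrix (Fin c) (Fin c) ℂ) j k)) =
            C ((h : Matrix (Fin c) (Fin c) ℂ) j k) := (act (n := n) g).commutes _
        rw [map_mul, hC, act_inr, Finset.mul_sum]
        refine Finset.sum_congr rfl fun l _ => ?_
        rw [map_mul, mul_assoc]
      rw [Finset.sum_congr rfl fun k _ => h1 k, Finset.sum_comm]
      refine Finset.sum_congr rfl fun l _ => ?_
      rw [← Finset.sum_mul, ← map_sum]
      congr 2
  exact DFunLike.congr_fun e F

theorem act_one (F : Sx n c) : act 1 F = F := by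
  have e : act (n := n) (1 : Gl c) = AlgHom.id ℂ _ := by
    apply MvPolynomial.algHom_ext
    rintro (i | j)
    · rw [act_inl, AlgHom.id_apply]
    · rw [act_inr, AlgHom.id_apply, Finset.sum_eq_single j]
      · rw [Units.val_one, Matrix.one_apply_eq, map_one, one_mul]
      · intro k _ hk
        rw [Units.val_one, Matrix.one_apply_ne (Ne.symm hk), map_zero, zero_mul]
      · intro h
        exact absurd (Finset.mem_univ j) h
  rw [e, AlgHom.id_apply]

theorem eval_act (g : Gl c) (x : Fin (n + 1) → ℂ) (y : Fin c → ℂ) (j : Fin c) :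
    eval (Sum.elim x y) (act (n := n) g (X (Sum.inr j))) = (g : Matrix (Fin c) (Fin c) ℂ).mulVec y j := by
  rw [act_inr, map_sum, Matrix.mulVec, dotProduct]
  refine Finset.sum_congr rfl fun k _ => ?_
  rw [map_mul, eval_C, eval_X]
  rfl

/-- second part of the proof -/
theorem part2 (G : Subgroup (Gl c)) [Finite G] (I : Ideal (Sx n c)) (hD : Dat n c G I)
    (hlin : ∀ q : Fin c → Px n, (∑ j, iX (q j) * X (Sum.inr j)) ∈ I → q = 0) (a : Fin c → Sx n c)
    (ha : ∀ g ∈ G, ∑ j, a j * act g (X (Sum.inr j)) ∈ I) (J : Fin c) : a J ∈ I := by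
  classical
  have := Fintype.ofFinite G
  have hp := hD.prime
  have hinv : ∀ (F : Sx n c) (g' : G), act (g' : Gl c) (∑ g : G, act (g : Gl c) F) = ∑ g : G, act (g : Gl c) F := by
    intro F g'
    rw [map_sum]
    refine Fintype.sum_equiv (Equiv.mulRight g') _ _ fun g => ?_
    rw [act_act]
    rfl
  -- the averages
  have hA : ∀ (H : Sx n c) (j : Fin c), ∑ g : G, act (g : Gl c) (H * a j) ∈ I := by
    intro H
    have h1 : ∀ j, ∃ f : Px n, (∑ g : G, act (g : Gl c) (H * a j)) - iX f ∈ I := by
      intro j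
      refine hD.quot _ fun g hg => ?_
      have h2 := hinv (H * a j) ⟨g, hg⟩
      rw [show act g (∑ g : G, act (g : Gl c) (H * a j)) = _ from h2, sub_self]
      exact I.zero_mem
    choose q hq using h1
    have h3 : (∑ j, (∑ g : G, act (g : Gl c) (H * a j)) * X (Sum.inr j)) ∈ I := by
      have e : (∑ j, (∑ g : G, act (g : Gl c) (H * a j)) * X (Sum.inr j) : Sx n c) =
          ∑ g : G, act (g : Gl c) H * act (g : Gl c) (∑ j, a j * act ((g : Gl c)⁻¹) (X (Sum.inr j))) := by
        simp_rw [Finset.sum_mul]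
        rw [Finset.sum_comm]
        refine Finset.sum_congr rfl fun g _ => ?_
        rw [map_sum, Finset.mul_sum]
        refine Finset.sum_congr rfl fun j _ => ?_
        rw [map_mul, map_mul, act_act, inv_mul_cancel, act_one, mul_assoc]
      rw [e]
      refine I.sum_mem fun g _ => I.mul_mem_left _ ?_
      exact hD.stable _ g.2 _ (ha _ (G.inv_mem g.2))
    have h4 : (∑ j, iX (q j) * X (Sum.inr j)) ∈ I := by
      have e : (∑ j, iX (q j) * X (Sum.inr j) : Sx n c) = (∑ j, (∑ g : G, act (g : Gl c) (H * a j)) * X (Sum.inr j)) -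
          ∑ j, ((∑ g : G, act (g : Gl c) (H * a j)) - iX (q j)) * X (Sum.inr j) := by
        rw [← Finset.sum_sub_distrib]
        refine Finset.sum_congr rfl fun j _ => ?_
        ring
      rw [e]
      exact I.sub_mem h3 (I.sum_mem fun j _ => I.mul_mem_right _ (hq j))
    have h5 := hlin q h4
    intro j
    have h6 := hq j
    rw [h5, Pi.zero_apply, map_zero, sub_zero] at h6
    exact h6
  -- the norm
  set N : Sx n c := ∏ g : G, act (g : Gl c) (a J) with hN
  have hNinv : ∀ g' : G, act (g' : Gl c) N = N := by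
    intro g'
    rw [hN, map_prod]
    refine Fintype.prod_equiv (Equiv.mulRight g') _ _ fun g => ?_
    rw [act_act]
    rfl
  have hNe : (∏ g ∈ Finset.univ.erase (1 : G), act (g : Gl c) (a J)) * a J = N := by
    rw [hN, ← Finset.prod_erase_mul _ _ (Finset.mem_univ (1 : G)), OneMemClass.coe_one, act_one]
  have h1 := hA (∏ g ∈ Finset.univ.erase (1 : G), act (g : Gl c) (a J)) J
  rw [hNe, Finset.sum_congr rfl fun g _ => hNinv g, Finset.sum_const, nsmul_eq_mul] at h1
  have h2 : N ∈ I := by
    rcases hp.mem_or_mem h1 with h | h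
    · exfalso
      have h3 : (C (((Finset.univ : Finset G).card : ℂ)⁻¹) : Sx n c) * ((Finset.univ : Finset G).card : Sx n c) ∈ I :=
        I.mul_mem_left _ h
      have h4 : (C (((Finset.univ : Finset G).card : ℂ)⁻¹) : Sx n c) * ((Finset.univ : Finset G).card : Sx n c) = 1 := by
        have h5 : ((Finset.univ : Finset G).card : Sx n c) = C ((Finset.univ : Finset G).card : ℂ) := by
          rw [map_natCast]
        have h6 : ((Finset.univ : Finset G).card : ℂ) ≠ 0 := by
          rw [Nat.cast_ne_zero, Finset.card_ne_zero]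
          exact ⟨1, Finset.mem_univ _⟩
        rw [h5, ← map_mul, inv_mul_cancel₀ h6, map_one]
      rw [h4] at h3
      exact hp.ne_top ((Ideal.eq_top_iff_one I).2 h3)
    · exact h
  rw [hN] at h2
  obtain ⟨g, -, hg⟩ := (hp.prod_mem_iff).1 h2
  have h3 := hD.stable _ (G.inv_mem g.2) _ hg
  rwa [act_act, mul_inv_cancel, act_one] at h3

end QGenAux

open QGenAux

theorem qGen : S_Gen := by
  classical
  intro n c G _ I hD hlin
  have hp := hD.prime
  let L := FractionRing (Sx n c ⧸ I)
  let u : Sx n c →+* L := (algebraMap (Sx n c ⧸ I) L).comp (Ideal.Quotient.mk I)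
  have hu : ∀ F, u F = 0 ↔ F ∈ I := by
    intro F
    show algebraMap (Sx n c ⧸ I) L (Ideal.Quotient.mk I F) = 0 ↔ _
    rw [IsFractionRing.to_map_eq_zero_iff, Ideal.Quotient.eq_zero_iff_mem]
  let r : G → Fin c → L := fun g j => u (act (g : Gl c) (X (Sum.inr j)))
  by_cases hs : Submodule.span L (Set.range r) = ⊤
  · obtain ⟨κ, a, -, hsp, hli⟩ := exists_linearIndependent' L r
    rw [hs] at hsp
    let b : Module.Basis κ L (Fin c → L) := Module.Basis.mk hli hsp.ge
    let e : κ ≃ Fin c := b.indexEquiv (Pi.basisFun L (Fin c))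
    let M : Matrix (Fin c) (Fin c) (Sx n c) :=
      Matrix.of fun i j => act ((a (e.symm i) : G) : Gl c) (X (Sum.inr j))
    have hM : LinearIndependent L (M.map u).row := hli.comp e.symm e.symm.injective
    have hdet : (M.map u).det ≠ 0 := by
      have h1 := Matrix.linearIndependent_rows_iff_isUnit.1 hM
      rw [Matrix.isUnit_iff_isUnit_det] at h1
      exact h1.ne_zero
    refine ⟨M.det, fun h => ?_, ?_⟩
    · have h1 := (hu _).2 h
      rw [RingHom.map_det] at h1
      exact hdet h1
    · intro x y _ hne v hv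
      rw [RingHom.map_det] at hne
      refine Matrix.eq_zero_of_mulVec_eq_zero hne ?_
      ext i
      rw [Matrix.mulVec, dotProduct, Pi.zero_apply, ← hv _ (a (e.symm i)).2]
      refine Finset.sum_congr rfl fun j _ => ?_
      rw [mul_comm]
      congr 1
      exact eval_act _ _ _ _
  · exfalso
    obtain ⟨f, hf0, hf⟩ := Submodule.exists_le_ker_of_lt_top _ (lt_top_iff_ne_top.2 hs)
    let w : Fin c → L := fun j => f (fun i => if j = i then 1 else 0)
    have hfw : ∀ x, f x = ∑ j, x j * w j := fun x => LinearMap.pi_apply_eq_sum_univ f x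
    obtain ⟨b, hb⟩ := IsLocalization.exist_integer_multiples_of_finite (nonZeroDivisors (Sx n c ⧸ I)) w
    choose a' ha' using hb
    have h1 : ∀ j, ∃ F : Sx n c, Ideal.Quotient.mk I F = a' j := fun j => Ideal.Quotient.mk_surjective _
    choose F hF using h1
    have hb0 : algebraMap (Sx n c ⧸ I) L (b : Sx n c ⧸ I) ≠ 0 := by
      rw [Ne, IsFractionRing.to_map_eq_zero_iff]
      exact nonZeroDivisors.ne_zero b.2
    have huF : ∀ j, u (F j) = algebraMap (Sx n c ⧸ I) L (b : Sx n c ⧸ I) * w j := by
      intro j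
      show algebraMap (Sx n c ⧸ I) L (Ideal.Quotient.mk I (F j)) = _
      rw [hF, ha' j]
      exact Algebra.smul_def _ _
    have h2 : ∀ j, F j ∈ I := part2 G I hD hlin F (fun g hg => by
      rw [← hu, map_sum]
      have h3 : f (r ⟨g, hg⟩) = 0 := hf (Submodule.subset_span ⟨_, rfl⟩)
      rw [hfw] at h3
      calc ∑ j, u (F j * act g (X (Sum.inr j))) =
          algebraMap (Sx n c ⧸ I) L (b : Sx n c ⧸ I) * ∑ j, r ⟨g, hg⟩ j * w j := by
            rw [Finset.mul_sum]
            refine Finset.sum_congr rfl fun j _ => ?_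
            rw [map_mul, huF j]
            show _ * u (act g (X (Sum.inr j))) = _ * (u (act g (X (Sum.inr j))) * w j)
            ring
        _ = 0 := by rw [h3, mul_zero])
    apply hf0
    ext x
    rw [LinearMap.comp_apply]
    show f _ = 0
    rw [hfw]
    refine Finset.sum_eq_zero fun j _ => ?_
    have h3 := (hu (F j)).2 (h2 j)
    rw [huF j] at h3
    rw [(mul_eq_zero.1 h3).resolve_left hb0, mul_zero]

end Pool.Agent.GQ
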