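import Pool.Agent.Lib.MP_776403_ag.GQ.Spec

/-!
# MP_776403_ag, GQ: polynomials all of whose monomials have large weight

`Ge m k` is the ideal of the polynomials all of whose monomials have weight `≥ k`;
`Hi m M f ↔ f ∈ Ge m (M + 1)`.
-/

set_option autoImplicit false

namespace Pool.Agent.GQ

open MvPolynomial

namespace HiB

variable {c : ℕ}

/-- all monomials have weight `≥ k` -/
def Ge (m : Fin c → ℕ) (k : ℕ) : Ideal (Vx c) where
  carrier := {f | ∀ d, Finsupp.weight m d < k → coeff d f = 0}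
  add_mem' := fun {a b} ha hb d hd => by rw [coeff_add, ha d hd, hb d hd, add_zero]
  zero_mem' := fun d _ => coeff_zero d
  smul_mem' := fun f g hg d hd => by
    classical
    rw [smul_eq_mul, coeff_mul]
    refine Finset.sum_eq_zero fun x hx => ?_
    have h1 : Finsupp.weight m x.1 + Finsupp.weight m x.2 = Finsupp.weight m d := by
      rw [← map_add, Finset.HasAntidiagonal.mem_antidiagonal.1 hx]
    rw [hg x.2 (by omega), mul_zero]

variable {m : Fin c → ℕ}

theorem mem_Ge {k : ℕ} {f : Vx c} :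
    f ∈ Ge m k ↔ ∀ d, Finsupp.weight m d < k → coeff d f = 0 := Iff.rfl

theorem Hi_iff {M : ℕ} {f : Vx c} : Hi m M f ↔ f ∈ Ge m (M + 1) := by
  constructor
  · intro h d hd
    by_contra hne
    exact absurd (h d (mem_support_iff.2 hne)) (by omega)
  · intro h d hd
    by_contra hne
    exact (mem_support_iff.1 hd) (h d (by omega))

theorem Ge_mono {k l : ℕ} (h : k ≤ l) : Ge m l ≤ Ge m k := fun _ hf d hd => hf d (hd.trans_le h)

theorem Ge_zero (f : Vx c) : f ∈ Ge m 0 := fun _ hd => absurd hd (Nat.not_lt_zero _)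

theorem Ge_mul {k l : ℕ} {f g : Vx c} (hf : f ∈ Ge m k) (hg : g ∈ Ge m l) :
    f * g ∈ Ge m (k + l) := by
  classical
  intro d hd
  rw [coeff_mul]
  refine Finset.sum_eq_zero fun x hx => ?_
  have h1 : Finsupp.weight m x.1 + Finsupp.weight m x.2 = Finsupp.weight m d := by
    rw [← map_add, Finset.HasAntidiagonal.mem_antidiagonal.1 hx]
  by_cases h2 : Finsupp.weight m x.1 < k
  · rw [hf x.1 h2, zero_mul]
  · rw [hg x.2 (by omega), mul_zero]

theorem Ge_pow {k : ℕ} {f : Vx c} (hf : f ∈ Ge m k) (n : ℕ) : f ^ n ∈ Ge m (n * k) := by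
  induction n with
  | zero => rw [Nat.zero_mul]; exact Ge_zero _
  | succ n ih =>
    rw [pow_succ, Nat.succ_mul]
    exact Ge_mul ih hf

theorem eq_zero_of_Ge {f : Vx c} (h : ∀ k, f ∈ Ge m k) : f = 0 := by
  ext d
  rw [coeff_zero]
  exact h _ d (Nat.lt_succ_self _)

theorem Ge_of_wh {k : ℕ} {f : Vx c} (h : f.IsWeightedHomogeneous m k) : f ∈ Ge m k := by
  intro d hd
  by_contra hne
  exact absurd (h hne) (by omega)

/-- a weighted homogeneous polynomial of weight `k` in `Ge m (k + 1)` is zero -/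
theorem eq_zero_of_wh {k l : ℕ} {f : Vx c} (h : f.IsWeightedHomogeneous m k) (hl : k < l)
    (hf : f ∈ Ge m l) : f = 0 := by
  ext d
  rw [coeff_zero]
  by_contra hne
  exact hne (hf d ((h hne).trans_lt hl))

theorem X_mem_Ge (i : Fin c) : (X i : Vx c) ∈ Ge m (m i) := by
  classical
  intro d hd
  rw [coeff_X]
  rw [if_neg]
  rintro rfl
  rw [Finsupp.weight_single] at hd
  simp at hd

/-- `u` and `v` have weights `≥ k` and are equal in weight `k` -/
structure PP (m : Fin c → ℕ) (k : ℕ) (u v : Vx c) : Prop where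
  l : u ∈ Ge m k
  r : v ∈ Ge m k
  d : v - u ∈ Ge m (k + 1)

theorem PP.mul {k l : ℕ} {u v u' v' : Vx c} (h : PP m k u v) (h' : PP m l u' v') :
    PP m (k + l) (u * u') (v * v') := by
  refine ⟨Ge_mul h.l h'.l, Ge_mul h.r h'.r, ?_⟩
  have e : v * v' - u * u' = (v - u) * v' + u * (v' - u') := by ring
  rw [e]
  refine add_mem ?_ (show _ ∈ Ge m (k + (l + 1)) from Ge_mul h.l h'.d)
  have := Ge_mul h.d h'.r
  rwa [show k + l + 1 = k + 1 + l by ring]

theorem PP.one : PP m 0 (1 : Vx c) 1 := ⟨Ge_zero _, Ge_zero _, by rw [sub_self]; exact zero_mem _⟩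

theorem PP.pow {k : ℕ} {u v : Vx c} (h : PP m k u v) (n : ℕ) : PP m (n * k) (u ^ n) (v ^ n) := by
  induction n with
  | zero => rw [pow_zero, pow_zero, Nat.zero_mul]; exact PP.one
  | succ n ih =>
    rw [pow_succ, pow_succ, Nat.succ_mul]
    exact ih.mul h

theorem PP.prod {ι : Type} (s : Finset ι) (k : ι → ℕ) (u v : ι → Vx c)
    (h : ∀ i ∈ s, PP m (k i) (u i) (v i)) :
    PP m (∑ i ∈ s, k i) (∏ i ∈ s, u i) (∏ i ∈ s, v i) := by
  classical
  induction s using Finset.induction_on with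
  | empty => simpa using PP.one
  | insert i s hi ih =>
    rw [Finset.sum_insert hi, Finset.prod_insert hi, Finset.prod_insert hi]
    exact (h i (Finset.mem_insert_self i s)).mul
      (ih fun j hj => h j (Finset.mem_insert_of_mem hj))

theorem weight_eq (d : Fin c →₀ ℕ) : Finsupp.weight m d = ∑ i, d i * m i := by
  rw [Finsupp.weight_apply, Finsupp.sum_fintype _ _ (fun i => by simp)]
  simp

/-- substitutions which raise weights, for polynomials of weights `≥ k` -/
theorem wt {a : Fin c → Vx c} (ha : ∀ i, a i - X i ∈ Ge m (m i + 1)) {k : ℕ} {g : Vx c}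
    (hg : g ∈ Ge m k) : aeval a g - g ∈ Ge m (k + 1) := by
  have hX : ∀ i, PP m (m i) (X i) (a i) := fun i => ⟨X_mem_Ge i, by
    have := add_mem (Ge_mono (Nat.le_succ _) (ha i)) (X_mem_Ge (m := m) i)
    rwa [sub_add_cancel] at this, ha i⟩
  have key : ∀ d : Fin c →₀ ℕ, ∀ r : ℂ,
      aeval a (monomial d r) - monomial d r ∈ Ge m (Finsupp.weight m d + 1) := by
    intro d r
    have h1 := (PP.prod (m := m) Finset.univ (fun i => d i * m i) (fun i => (X i : Vx c) ^ d i)
      (fun i => a i ^ d i) fun i _ => (hX i).pow (d i)).d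
    rw [← weight_eq] at h1
    have h2 : (monomial d r : Vx c) = C r * ∏ i, X i ^ d i := by
      rw [monomial_eq, Finsupp.prod_fintype _ _ (fun i => by simp)]
    have h3 : aeval a (monomial d r : Vx c) = C r * ∏ i, a i ^ d i := by
      rw [h2, map_mul, map_prod, aeval_C]
      simp [algebraMap_eq]
    rw [h3, h2, ← mul_sub]
    exact Ideal.mul_mem_left _ _ h1
  conv in (aeval a g - g) => rw [g.as_sum]
  rw [map_sum, ← Finset.sum_sub_distrib]
  refine sum_mem fun d hd => ?_
  refine Ge_mono ?_ (key d _)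
  by_contra hlt
  exact (mem_support_iff.1 hd) (hg d (by omega))

/-- the same with values in `Ge` -/
theorem aeval_mem_Ge {a : Fin c → Vx c} (ha : ∀ i, a i - X i ∈ Ge m (m i + 1)) {k : ℕ} {g : Vx c}
    (hg : g ∈ Ge m k) : aeval a g ∈ Ge m k := by
  have := add_mem (Ge_mono (Nat.le_succ _) (wt ha hg)) hg
  rwa [sub_add_cancel] at this

end HiB

end Pool.Agent.GQ
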