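import Pool.Agent.Lib.MP_776403_ag.GQ.HiB

set_option autoImplicit false

namespace Pool.Agent.GQ

open MvPolynomial

theorem qInd (h2 : S_New) : S_Ind := by
  intro n c m hm p h hp hl
  rw [algebraicIndependent_iff]
  intro g hg
  obtain ⟨Γ, _, hΓ⟩ := h2 n c m hm p h hp hl (∑ i, m i)
  have ha : ∀ i, aeval Γ (h i) - X i ∈ HiB.Ge m (m i + 1) := fun i =>
    HiB.Ge_mono (Nat.succ_le_succ (Finset.single_le_sum (f := m) (fun _ _ => Nat.zero_le _)
      (Finset.mem_univ i))) (HiB.Hi_iff.1 (hΓ i))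
  have h0 : aeval (fun i => aeval Γ (h i)) g = 0 := by
    have h3 : aeval Γ (aeval h g) = aeval (fun i => aeval Γ (h i)) g := by
      rw [← AlgHom.comp_apply]
      congr 1
      exact MvPolynomial.algHom_ext fun i => by simp
    rw [← h3, hg, map_zero]
  refine HiB.eq_zero_of_Ge (m := m) fun k => ?_
  induction k with
  | zero => exact HiB.Ge_zero _
  | succ k ih =>
    have h4 := HiB.wt ha ih
    rw [h0, zero_sub] at h4
    exact neg_mem_iff.1 h4

end Pool.Agent.GQ
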