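import Pool.Agent.Lib.MP_776403_ag.GQ.Spec

/-!
# The limit point: proof of `S_Lim`
-/

set_option autoImplicit false

namespace Pool.Agent.GQ

open MvPolynomial

namespace QLimAux

open Filter Topology

theorem cont_elim {n c : ℕ} {A : Type} [TopologicalSpace A] {u : A → Fin (n + 1) → ℂ}
    {v : A → Fin c → ℂ} (hu : Continuous u) (hv : Continuous v) :
    Continuous fun a => (Sum.elim (u a) (v a) : Fin (n + 1) ⊕ Fin c → ℂ) := by
  refine continuous_pi fun i => ?_
  cases i with
  | inl i => exact (continuous_apply i).comp hu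
  | inr i => exact (continuous_apply i).comp hv

/-- the Taylor formula of order one in the direction `(0, w)` -/
theorem taylor {n c : ℕ} (w : Fin c → ℂ) (F : Sx n c) :
    ∃ Q : (Fin (n + 1) → ℂ) × ℂ → ℂ, Continuous Q ∧
      (∀ x s, eval (Sum.elim x (s • w)) F = eval (Sum.elim x (0 : Fin c → ℂ)) F + s * Q (x, s)) ∧
      ∀ x, Q (x, 0) = ∑ j, eval (Sum.elim x (0 : Fin c → ℂ)) (pderiv (Sum.inr j) F) * w j := by
  induction F using MvPolynomial.induction_on with
  | C a =>
    refine ⟨fun _ => 0, continuous_const, fun x s => by simp, fun x => ?_⟩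
    simp
  | add p q hp hq =>
    obtain ⟨P, hP1, hP2, hP3⟩ := hp
    obtain ⟨Q, hQ1, hQ2, hQ3⟩ := hq
    refine ⟨fun z => P z + Q z, hP1.add hQ1, fun x s => ?_, fun x => ?_⟩
    · rw [map_add, map_add, hP2, hQ2]
      ring
    · beta_reduce
      rw [hP3, hQ3, ← Finset.sum_add_distrib]
      refine Finset.sum_congr rfl fun j _ => ?_
      rw [map_add, map_add]
      ring
  | mul_X p i hp =>
    obtain ⟨P, hP1, hP2, hP3⟩ := hp
    cases i with
    | inl i =>
      refine ⟨fun z => P z * z.1 i, hP1.mul ((continuous_apply i).comp continuous_fst),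
        fun x s => ?_, fun x => ?_⟩
      · rw [map_mul, map_mul, hP2, eval_X, eval_X, Sum.elim_inl, Sum.elim_inl]
        ring
      · beta_reduce
        rw [hP3, Finset.sum_mul]
        refine Finset.sum_congr rfl fun j _ => ?_
        rw [Derivation.leibniz, pderiv_X_of_ne (by simp), smul_zero, zero_add, smul_eq_mul,
          map_mul, eval_X, Sum.elim_inl]
        ring
    | inr k =>
      refine ⟨fun z => (eval (Sum.elim z.1 (0 : Fin c → ℂ)) p + z.2 * P z) * w k, ?_,
        fun x s => ?_, fun x => ?_⟩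
      · exact (((continuous_eval p).comp (cont_elim continuous_fst continuous_const)).add
          (continuous_snd.mul hP1)).mul continuous_const
      · rw [map_mul, map_mul, hP2, eval_X, eval_X, Sum.elim_inr, Sum.elim_inr, Pi.smul_apply,
          Pi.zero_apply, smul_eq_mul]
        ring
      · rw [Finset.sum_eq_single k]
        · rw [Derivation.leibniz, pderiv_X_self, smul_eq_mul, mul_one, smul_eq_mul, map_add,
            map_mul, eval_X, Sum.elim_inr, Pi.zero_apply]
          ring
        · intro j _ hj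
          rw [Derivation.leibniz, pderiv_X_of_ne (by simpa using hj.symm), smul_zero, zero_add,
            smul_eq_mul, map_mul, eval_X, Sum.elim_inr, Pi.zero_apply]
          ring
        · intro h
          exact absurd (Finset.mem_univ k) h

end QLimAux

open QLimAux Filter Topology

theorem qLim (h1 : S_Fib) : S_Lim := by
  intro n c G _ I hI w₀ hw
  obtain ⟨_, _, _, _, hs⟩ := h1 n c G I hI
  choose x hx hxI using fun k : ℕ => hw (k + 1)
  have hpos : ∀ k, 0 < ‖x k‖ := fun k => lt_trans (by positivity) (hx k)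
  let s : ℕ → ℂ := fun k => ((‖x k‖⁻¹ : ℝ) : ℂ)
  have hsn : ∀ k, ‖s k‖ = ‖x k‖⁻¹ := fun k => by
    simp only [s]
    rw [Complex.norm_real, Real.norm_eq_abs, abs_of_pos (inv_pos.2 (hpos k))]
  have hs0 : ∀ k, s k ≠ 0 := fun k h => by
    have := hsn k
    rw [h, norm_zero] at this
    exact (inv_pos.2 (hpos k)).ne this
  have hn1 : ∀ k, ‖s k • x k‖ = 1 := fun k => by
    rw [norm_smul, hsn, inv_mul_cancel₀ (hpos k).ne']
  have hlim : Tendsto s atTop (𝓝 0) := by
    rw [tendsto_zero_iff_norm_tendsto_zero]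
    refine squeeze_zero (fun k => norm_nonneg _) (fun k => ?_)
      (tendsto_one_div_add_atTop_nhds_zero_nat (𝕜 := ℝ))
    rw [hsn, one_div]
    exact inv_anti₀ (by positivity) (hx k).le
  obtain ⟨p, hp, φ, hφ, hφp⟩ := (isCompact_sphere (0 : Fin (n + 1) → ℂ) 1).tendsto_subseq
    (x := fun k => s k • x k) (fun k => by rw [mem_sphere_zero_iff_norm, hn1])
  have hp1 : ‖p‖ = 1 := mem_sphere_zero_iff_norm.1 hp
  have hsφ : Tendsto (fun k => s (φ k)) atTop (𝓝 0) := hlim.comp hφ.tendsto_atTop
  have hz : Tendsto (fun k => (s (φ k) • x (φ k), s (φ k))) atTop (𝓝 (p, (0 : ℂ))) :=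
    hφp.prodMk_nhds hsφ
  have hcone : ∀ k, ∀ F ∈ I, eval (Sum.elim (s (φ k) • x (φ k)) (s (φ k) • w₀)) F = 0 :=
    fun k F hF => hs (s (φ k)) _ _ (hxI (φ k)) F hF
  refine ⟨p, fun h => ?_, fun F hF => ?_, fun F hF hF0 => ?_⟩
  · rw [h, norm_zero] at hp1
    exact zero_ne_one hp1
  · have hc : Continuous fun z : (Fin (n + 1) → ℂ) × ℂ =>
        eval (Sum.elim z.1 (z.2 • w₀)) F :=
      (continuous_eval F).comp (cont_elim continuous_fst (continuous_snd.smul continuous_const))
    have hcl : IsClosed {z : (Fin (n + 1) → ℂ) × ℂ | eval (Sum.elim z.1 (z.2 • w₀)) F = 0} :=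
      isClosed_eq hc continuous_const
    have h3 := hcl.mem_of_tendsto hz (Eventually.of_forall fun k => hcone k F hF)
    have h4 : eval (Sum.elim p ((0 : ℂ) • w₀)) F = 0 := h3
    rw [zero_smul] at h4
    exact h4
  · obtain ⟨Q, hQ1, hQ2, hQ3⟩ := taylor w₀ F
    rw [← hQ3]
    have h4 : ∀ k, Q (s (φ k) • x (φ k), s (φ k)) = 0 := fun k => by
      have h5 := hQ2 (s (φ k) • x (φ k)) (s (φ k))
      rw [hcone k F hF, hF0, zero_add] at h5
      exact (mul_eq_zero.1 h5.symm).resolve_left (hs0 _)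
    have hcl : IsClosed {z : (Fin (n + 1) → ℂ) × ℂ | Q z = 0} := isClosed_eq hQ1 continuous_const
    exact hcl.mem_of_tendsto hz (Eventually.of_forall h4)

end Pool.Agent.GQ
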