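import Pool.Agent.Lib.MP_776403_ag.GQ.Spec

/-!
# LIN: the `y_j` are linearly independent over `ℂ[x]`
-/

set_option autoImplicit false

namespace Pool.Agent.GQ

open MvPolynomial Filter Topology

noncomputable section

namespace QLinAux

variable {n c : ℕ}

theorem eval_iX (x : Fin (n + 1) → ℂ) (y : Fin c → ℂ) (f : Px n) :
    eval (Sum.elim x y) (iX f : Sx n c) = eval x f := by
  unfold iX
  rw [eval_rename]
  rfl

theorem eval_F (x : Fin (n + 1) → ℂ) (y : Fin c → ℂ) (q : Fin c → Px n) :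
    eval (Sum.elim x y) (∑ j, iX (q j) * X (Sum.inr j) : Sx n c) = ∑ j, eval x (q j) * y j := by
  rw [map_sum]
  refine Finset.sum_congr rfl fun j _ => ?_
  rw [map_mul, eval_iX, eval_X]
  rfl

theorem hom_iX {f : Px n} {e : ℕ} (h : f.IsHomogeneous e) : (iX f : Sx n c).IsHomogeneous e :=
  h.rename_isHomogeneous

theorem comp1 (f : Px n) (e : ℕ) (j : Fin c) :
    homogeneousComponent (e + 1) (iX f * X (Sum.inr j) : Sx n c)
      = iX (homogeneousComponent e f) * X (Sum.inr j) := by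
  conv_lhs => rw [← sum_homogeneousComponent f]
  rw [map_sum, Finset.sum_mul, map_sum]
  have h : ∀ k ∈ Finset.range (f.totalDegree + 1),
      homogeneousComponent (e + 1) (iX (homogeneousComponent k f) * X (Sum.inr j) : Sx n c)
        = if e = k then iX (homogeneousComponent e f) * X (Sum.inr j) else 0 := by
    intro k _
    have hk : (iX (homogeneousComponent k f) * X (Sum.inr j) : Sx n c).IsHomogeneous (k + 1) :=
      (hom_iX (homogeneousComponent_isHomogeneous k f)).mul (isHomogeneous_X _ _)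
    rw [homogeneousComponent_of_mem ((mem_homogeneousSubmodule _ _).2 hk)]
    by_cases hke : e = k
    · subst hke
      simp
    · rw [if_neg (by omega), if_neg hke]
  rw [Finset.sum_congr rfl h, Finset.sum_ite_eq]
  split_ifs with h1
  · rfl
  · have h2 : homogeneousComponent e f = 0 := by
      refine homogeneousComponent_eq_zero _ _ ?_
      rw [Finset.mem_range] at h1
      omega
    rw [h2, map_zero, zero_mul]

theorem comp (q : Fin c → Px n) (e : ℕ) :
    homogeneousComponent (e + 1) (∑ j, iX (q j) * X (Sum.inr j) : Sx n c)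
      = ∑ j, iX (homogeneousComponent e (q j)) * X (Sum.inr j) := by
  rw [map_sum]
  exact Finset.sum_congr rfl fun j _ => comp1 _ _ _

/-- a linear form outside `I` which vanishes at the fixed points of `g` -/
theorem exists_form {G : Subgroup (Gl c)} {I : Ideal (Sx n c)} (hD : Dat n c G I) (g : Gl c) :
    ∃ l : Sx n c, l ∉ I ∧ ∀ (x : Fin (n + 1) → ℂ) (y : Fin c → ℂ), g ≠ 1 →
      (g : Matrix (Fin c) (Fin c) ℂ).mulVec y = y → eval (Sum.elim x y) l = 0 := by
  by_cases hg : g = 1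
  · exact ⟨1, fun h => hD.prime.ne_top ((Ideal.eq_top_iff_one _).2 h), fun _ _ h => absurd hg h⟩
  · by_contra hc
    push Not at hc
    have key : ∀ j : Fin c, (∑ k, C ((g : Matrix (Fin c) (Fin c) ℂ) j k) * X (Sum.inr k)
        - X (Sum.inr j) : Sx n c) ∈ I := by
      intro j
      by_contra hI
      obtain ⟨x, y, _, h1, h2⟩ := hc _ hI
      refine h2 ?_
      rw [map_sub, map_sum, eval_X]
      have h3 := congrFun h1 j
      rw [Matrix.mulVec, dotProduct] at h3
      rw [Finset.sum_congr rfl (fun k _ => show eval (Sum.elim x y)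
        (C ((g : Matrix (Fin c) (Fin c) ℂ) j k) * X (Sum.inr k) : Sx n c)
          = (g : Matrix (Fin c) (Fin c) ℂ) j k * y k by rw [map_mul, eval_C, eval_X]; rfl), h3]
      simp
    refine hg ?_
    have h0 : ∀ j : Fin c, (∑ k, C ((g : Matrix (Fin c) (Fin c) ℂ) j k) * X (Sum.inr k)
        - X (Sum.inr j) : Sx n c) = 0 := fun j => by
      refine hD.nondeg _ (key j) ?_
      refine IsHomogeneous.sub (IsHomogeneous.sum _ _ _ fun k _ => ?_) (isHomogeneous_X _ _)
      simpa using (isHomogeneous_C (Fin (n + 1) ⊕ Fin c) ((g : Matrix (Fin c) (Fin c) ℂ) j k)).mul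
        (isHomogeneous_X ℂ (Sum.inr k : Fin (n + 1) ⊕ Fin c))
    refine Units.ext (Matrix.ext fun j k => ?_)
    have h1 := congrArg (eval (Sum.elim (0 : Fin (n + 1) → ℂ) (Pi.single k (1 : ℂ)))) (h0 j)
    rw [map_sub, map_sum, eval_X, map_zero] at h1
    rw [Finset.sum_congr rfl (fun k' _ => show eval (Sum.elim (0 : Fin (n + 1) → ℂ) (Pi.single k (1 : ℂ)))
        (C ((g : Matrix (Fin c) (Fin c) ℂ) j k') * X (Sum.inr k') : Sx n c)
          = (g : Matrix (Fin c) (Fin c) ℂ) j k' * (Pi.single k (1 : ℂ) : Fin c → ℂ) k' by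
            rw [map_mul, eval_C, eval_X]; rfl)] at h1
    rw [Finset.sum_eq_single k] at h1
    · rw [Pi.single_eq_same, mul_one, sub_eq_zero] at h1
      rw [h1]
      show (Pi.single k (1 : ℂ) : Fin c → ℂ) j = (1 : Matrix (Fin c) (Fin c) ℂ) j k
      rw [Matrix.one_apply, Pi.single_apply]
    · intro b _ hb
      rw [Pi.single_eq_of_ne hb, mul_zero]
    · intro h
      exact absurd (Finset.mem_univ _) h

theorem exists_w (hn : 1 ≤ n) {o : Fin (n + 1) → ℂ} (ho : o ≠ 0) :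
    ∃ w : Fin (n + 1) → ℂ, ∀ a : ℂ, a • o ≠ w := by
  obtain ⟨i, hi⟩ := Function.ne_iff.1 ho
  obtain ⟨i', hi'⟩ : ∃ i' : Fin (n + 1), i' ≠ i := by
    have : Nontrivial (Fin (n + 1)) := Fin.nontrivial_iff_two_le.2 (by omega)
    exact exists_ne i
  refine ⟨Pi.single i' 1, fun a h => ?_⟩
  have h1 := congrFun h i
  rw [Pi.smul_apply, Pi.single_eq_of_ne hi'.symm, smul_eq_mul] at h1
  have h2 : a = 0 := (mul_eq_zero.1 h1).resolve_right hi
  have h3 := congrFun h i'
  rw [h2, zero_smul, Pi.single_eq_same] at h3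
  exact absurd h3 (by simp)

theorem lin_dir {o : Fin (n + 1) → ℂ} (ho : o ≠ 0) (hn : 1 ≤ n) {μ : (Fin (n + 1) → ℂ) → ℂ}
    (hμ : DifferentiableAt ℂ μ o) (h0 : μ o = 0) {ε : ℝ} (hε : 0 < ε)
    (hc : ∀ z : Fin (n + 1) → ℂ, ‖z‖ < ε → ContinuousAt μ (o + z))
    (hk : ∀ z : Fin (n + 1) → ℂ, LinearIndependent ℂ ![o, z] →
      ∃ κ : ℂ, ∀ s : ℂ, s ≠ 0 → ‖s‖ * ‖z‖ < ε → μ (o + s • z) = κ * s) :
    ∀ z : Fin (n + 1) → ℂ, ‖z‖ < ε → μ (o + z) = fderiv ℂ μ o z := by
  have hA : ∀ z : Fin (n + 1) → ℂ, LinearIndependent ℂ ![o, z] → ‖z‖ < ε →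
      μ (o + z) = fderiv ℂ μ o z := by
    intro z hz hzε
    obtain ⟨κ, hκ⟩ := hk z hz
    have h1 : HasDerivAt (fun s : ℂ => μ (o + s • z)) (fderiv ℂ μ o z) 0 :=
      hμ.hasFDerivAt.hasLineDerivAt z
    have hev : ∀ᶠ s : ℂ in 𝓝 0, ‖s‖ * ‖z‖ < ε := by
      have : Tendsto (fun s : ℂ => ‖s‖ * ‖z‖) (𝓝 0) (𝓝 (‖(0 : ℂ)‖ * ‖z‖)) :=
        (continuous_norm.mul continuous_const).tendsto 0
      rw [norm_zero, zero_mul] at this
      exact this.eventually (gt_mem_nhds hε)
    have h2 : (fun s : ℂ => μ (o + s • z)) =ᶠ[𝓝 0] fun s => κ * s := by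
      filter_upwards [hev] with s hs
      by_cases hs0 : s = 0
      · rw [hs0, zero_smul, add_zero, h0, mul_zero]
      · exact hκ s hs0 hs
    have h3 : HasDerivAt (fun s : ℂ => κ * s) (κ * 1) 0 := (hasDerivAt_id (0 : ℂ)).const_mul κ
    have h4 := (h1.congr_of_eventuallyEq h2.symm).unique h3
    have h5 := hκ 1 one_ne_zero (by rw [norm_one, one_mul]; exact hzε)
    rw [one_smul] at h5
    rw [h5, h4]
  intro z hz
  obtain ⟨w, hw⟩ := exists_w hn ho
  have hsub : ({τ : ℂ | ¬ LinearIndependent ℂ ![o, z + τ • w]}).Subsingleton := by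
    intro τ hτ τ' hτ'
    simp only [Set.mem_ofPred_eq, LinearIndependent.pair_iff' ho, not_forall, not_not] at hτ hτ'
    obtain ⟨a, ha⟩ := hτ
    obtain ⟨a', ha'⟩ := hτ'
    by_contra hne
    have h1 : (a - a') • o = (τ - τ') • w := by
      rw [sub_smul, ha, ha', sub_smul]; abel
    refine hw ((τ - τ')⁻¹ * (a - a')) ?_
    rw [mul_smul, h1, smul_smul, inv_mul_cancel₀ (sub_ne_zero.2 hne), one_smul]
  have hev1 : ∀ᶠ τ : ℂ in 𝓝[≠] 0, LinearIndependent ℂ ![o, z + τ • w] := by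
    have hcl : IsOpen (({τ : ℂ | ¬ LinearIndependent ℂ ![o, z + τ • w]} \ {0})ᶜ) :=
      ((hsub.finite.subset Set.sdiff_subset).isClosed).isOpen_compl
    have h1 : ∀ᶠ τ : ℂ in 𝓝 0, τ ∈ ({τ : ℂ | ¬ LinearIndependent ℂ ![o, z + τ • w]} \ {0})ᶜ :=
      hcl.mem_nhds fun h => h.2 rfl
    filter_upwards [h1.filter_mono nhdsWithin_le_nhds, self_mem_nhdsWithin] with τ h2 h3
    by_contra h4
    exact h2 ⟨h4, h3⟩
  have hcw : Tendsto (fun τ : ℂ => z + τ • w) (𝓝[≠] 0) (𝓝 z) := by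
    have h1 : Tendsto (fun τ : ℂ => z + τ • w) (𝓝 0) (𝓝 (z + (0 : ℂ) • w)) :=
      (continuous_const.add (continuous_id.smul continuous_const)).tendsto 0
    rw [zero_smul, add_zero] at h1
    exact h1.mono_left nhdsWithin_le_nhds
  have hev2 : ∀ᶠ τ : ℂ in 𝓝[≠] 0, ‖z + τ • w‖ < ε :=
    (hcw.norm).eventually (gt_mem_nhds hz)
  have hl : Tendsto (fun τ : ℂ => μ (o + (z + τ • w))) (𝓝[≠] 0) (𝓝 (μ (o + z))) :=
    (hc z hz).tendsto.comp (tendsto_const_nhds.add hcw)
  have hr : Tendsto (fun τ : ℂ => fderiv ℂ μ o (z + τ • w)) (𝓝[≠] 0) (𝓝 (fderiv ℂ μ o z)) :=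
    ((fderiv ℂ μ o).continuous.tendsto z).comp hcw
  refine tendsto_nhds_unique (hl.congr' ?_) hr
  filter_upwards [hev1, hev2] with τ h1 h2
  exact hA _ h1 h2

theorem main (h1 : S_Pt) (h2 : S_Sec) (h3 : S_Mul) (h4 : S_Van) (G : Subgroup (Gl c)) [Finite G]
    (I : Ideal (Sx n c)) (hD : Dat n c G I) (hn : 1 ≤ n) (e : ℕ) (q : Fin c → Px n)
    (hq : ∀ j, (q j).IsHomogeneous e) (hF : (∑ j, iX (q j) * X (Sum.inr j) : Sx n c) ∈ I) :
    q = 0 := by
  by_contra hne
  obtain ⟨J, hJ⟩ := Function.ne_iff.1 hne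
  have hFh : (∑ j, iX (q j) * X (Sum.inr j) : Sx n c).IsHomogeneous (e + 1) :=
    IsHomogeneous.sum _ _ _ fun j _ => (hom_iX (hq j)).mul (isHomogeneous_X _ _)
  have hprime := hD.prime
  -- the case `e = 0`
  have he : e ≠ 0 := by
    rintro rfl
    have hF0 := hD.nondeg _ hF hFh
    refine hJ (MvPolynomial.funext fun x => ?_)
    have := congrArg (eval (Sum.elim x (Pi.single J (1 : ℂ)))) hF0
    rw [eval_F, map_zero, Finset.sum_eq_single J, Pi.single_eq_same, mul_one] at this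
    · rw [this]; simp
    · intro b _ hb
      rw [Pi.single_eq_of_ne hb, mul_zero]
    · intro h
      exact absurd (Finset.mem_univ _) h
  -- the point
  choose l hl hl2 using fun g : G => exists_form hD (g : Gl c)
  have := Fintype.ofFinite G
  have hP : (iX (q J) * ∏ g : G, l g : Sx n c) ∉ I := by
    intro h
    rcases hprime.mem_or_mem h with h | h
    · exact hJ (hD.indep _ h)
    · obtain ⟨g, _, hg⟩ := hprime.prod_mem_iff.1 h
      exact hl g hg
  obtain ⟨o, b, hob, hev⟩ := h1 n c G I hD _ hP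
  rw [map_mul, eval_iX, map_prod] at hev
  obtain ⟨hev1, hev2⟩ := mul_ne_zero_iff.1 hev
  have hev3 := Finset.prod_ne_zero_iff.1 hev2
  have hstab : ∀ g ∈ G, (g : Matrix (Fin c) (Fin c) ℂ).mulVec b = b → g = 1 := by
    intro g hg hb
    by_contra hg1
    exact hev3 ⟨g, hg⟩ (Finset.mem_univ _) (hl2 ⟨g, hg⟩ o b hg1 hb)
  have ho : o ≠ 0 := by
    rintro rfl
    refine hev1 ?_
    rw [eval_zero]
    show coeff 0 (q J) = 0
    refine (hq J).coeff_eq_zero ?_
    rw [map_zero]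
    exact fun h => he h.symm
  obtain ⟨β, hβd, hβo, hβe⟩ := h2 n c G I hD o b hob hstab
  obtain ⟨ε, hε, hball⟩ := Metric.eventually_nhds_iff.1 hβe
  have hball' : ∀ z : Fin (n + 1) → ℂ, ‖z‖ < ε →
      ContinuousAt β (o + z) ∧ OnX I (o + z) (β (o + z)) := fun z hz =>
    hball (by rw [dist_eq_norm, add_sub_cancel_left]; exact hz)
  set μ : (Fin (n + 1) → ℂ) → ℂ := fun x => ∑ j, eval o (q j) * β x j with hμ
  have hμd : DifferentiableAt ℂ μ o := by
    refine DifferentiableAt.fun_sum fun j _ => ?_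
    exact (differentiableAt_const _).mul (differentiableAt_pi.1 hβd j)
  have hμ0 : μ o = 0 := by
    have := hob _ hF
    rw [eval_F] at this
    show ∑ j, eval o (q j) * β o j = 0
    rw [hβo]
    exact this
  have hμc : ∀ z : Fin (n + 1) → ℂ, ‖z‖ < ε → ContinuousAt μ (o + z) := fun z hz => by
    refine tendsto_finsetSum _ fun j _ => ?_
    exact (continuousAt_const.mul (continuousAt_pi.1 (hball' z hz).1 j)).tendsto
  have hk : ∀ z : Fin (n + 1) → ℂ, LinearIndependent ℂ ![o, z] →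
      ∃ κ : ℂ, ∀ s : ℂ, s ≠ 0 → ‖s‖ * ‖z‖ < ε → μ (o + s • z) = κ * s := by
    intro z hz
    have hz0 : z ≠ 0 := hz.ne_zero 1
    have hzn : 0 < ‖z‖ := norm_pos_iff.2 hz0
    obtain ⟨κ, hκ⟩ := h3 n c G I hD o z hz β (ε / ‖z‖) (fun s _ hs => by
      refine hball' (s • z) ?_
      rw [norm_smul]
      exact (lt_div_iff₀ hzn).1 hs) e q hq hF
    exact ⟨κ, fun s hs hs2 => hκ s hs ((lt_div_iff₀ hzn).2 hs2)⟩
  have hlin := lin_dir ho hn hμd hμ0 hε hμc hk
  set L := fderiv ℂ μ o with hL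
  -- the linear form
  set A : Sx n c := ∑ j, C (eval o (q j)) * X (Sum.inr j) - ∑ i, C (L (Pi.single i 1)) * X (Sum.inl i)
    with hA
  have hAh : A.IsHomogeneous 1 := by
    refine IsHomogeneous.sub (IsHomogeneous.sum _ _ _ fun j _ => ?_)
      (IsHomogeneous.sum _ _ _ fun i _ => ?_)
    · simpa using (isHomogeneous_C (Fin (n + 1) ⊕ Fin c) (eval o (q j))).mul
        (isHomogeneous_X ℂ (Sum.inr j : Fin (n + 1) ⊕ Fin c))
    · simpa using (isHomogeneous_C (Fin (n + 1) ⊕ Fin c) (L (Pi.single i 1))).mul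
        (isHomogeneous_X ℂ (Sum.inl i : Fin (n + 1) ⊕ Fin c))
  have hAe : ∀ (x : Fin (n + 1) → ℂ) (y : Fin c → ℂ),
      eval (Sum.elim x y) A = ∑ j, eval o (q j) * y j - L x := by
    intro x y
    rw [hA, map_sub, map_sum, map_sum]
    have hx : L x = ∑ i, L (Pi.single i 1) * x i := by
      conv_lhs => rw [pi_eq_sum_univ x]
      rw [map_sum]
      refine Finset.sum_congr rfl fun i _ => ?_
      rw [map_smul, smul_eq_mul, mul_comm]
      congr 2
      funext k
      rw [Pi.single_apply]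
      simp only [eq_comm]
    rw [hx]
    refine congrArg₂ _ (Finset.sum_congr rfl fun j _ => ?_) (Finset.sum_congr rfl fun i _ => ?_)
    · rw [map_mul, eval_C, eval_X]; rfl
    · rw [map_mul, eval_C, eval_X]; rfl
  have hmem : A + C (L o) ∈ I := by
    refine h4 n c G I hD o β (hβe.mono fun x hx => hx.2) _ ?_
    refine Metric.eventually_nhds_iff.2 ⟨ε, hε, fun x hx => ?_⟩
    have hx' : ‖x - o‖ < ε := by rw [← dist_eq_norm]; exact hx
    have h5 := hlin (x - o) hx'
    rw [add_sub_cancel, map_sub] at h5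
    rw [map_add, eval_C, hAe]
    have h6 : ∑ j, eval o (q j) * β x j = L x - L o := h5
    rw [h6]
    ring
  have hAI : A ∈ I := by
    have h5 := hD.homog _ hmem 1
    rw [map_add, homogeneousComponent_of_mem ((mem_homogeneousSubmodule _ _).2 hAh), if_pos rfl,
      homogeneousComponent_of_mem ((mem_homogeneousSubmodule _ _).2
        (isHomogeneous_C (Fin (n + 1) ⊕ Fin c) (L o))), if_neg one_ne_zero, add_zero] at h5
    exact h5
  have hA0 := hD.nondeg _ hAI hAh
  have h7 := hAe 0 (Pi.single J 1)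
  rw [hA0, map_zero, map_zero, sub_zero, Finset.sum_eq_single J, Pi.single_eq_same, mul_one] at h7
  · exact hev1 h7.symm
  · intro b _ hb
    rw [Pi.single_eq_of_ne hb, mul_zero]
  · intro h
    exact absurd (Finset.mem_univ _) h

end QLinAux

open QLinAux in
theorem qLin (h1 : S_Pt) (h2 : S_Sec) (h3 : S_Mul) (h4 : S_Van) : S_Lin := by
  intro n c G _ I hD hn q hF
  have key : ∀ e, (fun j => homogeneousComponent e (q j)) = 0 := by
    intro e
    refine main h1 h2 h3 h4 G I hD hn e _ (fun j => homogeneousComponent_isHomogeneous _ _) ?_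
    have := hD.homog _ hF (e + 1)
    rw [comp] at this
    exact this
  funext j
  rw [← sum_homogeneousComponent (q j)]
  exact Finset.sum_eq_zero fun e _ => congrFun (key e) j

end

end Pool.Agent.GQ
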