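import Pool.Agent.Lib.MP_776403_ag.GQ.Spec

/-!
# The key step: `μ(s)/s` is constant (author helper21)
-/

set_option autoImplicit false

namespace Pool.Agent.GQ

open MvPolynomial Filter Topology

namespace QMulAux

/-- Coefficients along a line. -/
theorem line {n : ℕ} (o z : Fin (n + 1) → ℂ) (p : Px n) (d : ℕ) (hp : p.IsHomogeneous d) :
    ∃ a : ℕ → ℂ, a 0 = eval o p ∧
      ∀ s : ℂ, eval (o + s • z) p = ∑ i ∈ Finset.range (d + 1), a i * s ^ i := by
  let f : Fin (n + 1) → Polynomial ℂ := fun i => Polynomial.C (o i) + Polynomial.C (z i) * Polynomial.X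
  have hdeg : (aeval f p).natDegree ≤ d * 1 := by
    refine aeval_natDegree_le p hp.totalDegree_le f (fun i => ?_)
    refine (Polynomial.natDegree_add_le _ _).trans ?_
    rw [Polynomial.natDegree_C]
    exact max_le (by omega) ((Polynomial.natDegree_C_mul_le _ _).trans Polynomial.natDegree_X_le)
  have hev : ∀ s : ℂ, Polynomial.eval s (aeval f p) = eval (o + s • z) p := by
    intro s
    have h1 : ((Polynomial.aeval s).comp (aeval f) : Px n →ₐ[ℂ] ℂ) = aeval (o + s • z) := by
      refine MvPolynomial.algHom_ext (fun i => ?_)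
      change Polynomial.aeval s (aeval f (X i : Px n)) = aeval (o + s • z) (X i : Px n)
      rw [aeval_X, aeval_X, Polynomial.coe_aeval_eq_eval]
      change Polynomial.eval s (Polynomial.C (o i) + Polynomial.C (z i) * Polynomial.X) = o i + s * z i
      rw [Polynomial.eval_add, Polynomial.eval_C, Polynomial.eval_mul, Polynomial.eval_C,
        Polynomial.eval_X, mul_comm]
    have h2 := DFunLike.congr_fun h1 p
    rw [AlgHom.comp_apply, Polynomial.coe_aeval_eq_eval, aeval_eq_eval] at h2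
    exact h2
  refine ⟨fun i => (aeval f p).coeff i, ?_, fun s => ?_⟩
  · have h := hev 0
    rw [← Polynomial.coeff_zero_eq_eval_zero, zero_smul, add_zero] at h
    exact h
  · rw [← hev, Polynomial.eval_eq_sum_range' (n := d + 1) (by omega)]

/-- The two linear forms. -/
theorem forms {n : ℕ} {o z : Fin (n + 1) → ℂ} (h : LinearIndependent ℂ ![o, z]) :
    ∃ l0 l1 : Px n, l0.IsHomogeneous 1 ∧ l1.IsHomogeneous 1 ∧
      ∀ s : ℂ, eval (o + s • z) l0 = 1 ∧ eval (o + s • z) l1 = s := by
  have key : ∀ g : Fin 2 → ℂ, ∃ l : Px n, l.IsHomogeneous 1 ∧ ∀ s : ℂ, eval (o + s • z) l = g 0 + s * g 1 := by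
    intro g
    obtain ⟨f, hf⟩ := LinearMap.exists_extend
      ((Finsupp.linearCombination ℂ g).comp h.repr)
    have ho : f o = g 0 := by
      have h1 : o ∈ Submodule.span ℂ (Set.range ![o, z]) := Submodule.subset_span ⟨0, rfl⟩
      have h2 := DFunLike.congr_fun hf ⟨o, h1⟩
      have h3 : h.repr ⟨o, h1⟩ = Finsupp.single 0 1 := h.repr_eq_single 0 _ rfl
      have h4 : f o = Finsupp.linearCombination ℂ g (h.repr ⟨o, h1⟩) := h2
      rw [h4, h3, Finsupp.linearCombination_single, one_smul]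
    have hz : f z = g 1 := by
      have h1 : z ∈ Submodule.span ℂ (Set.range ![o, z]) := Submodule.subset_span ⟨1, rfl⟩
      have h2 := DFunLike.congr_fun hf ⟨z, h1⟩
      have h3 : h.repr ⟨z, h1⟩ = Finsupp.single 1 1 := h.repr_eq_single 1 _ rfl
      have h4 : f z = Finsupp.linearCombination ℂ g (h.repr ⟨z, h1⟩) := h2
      rw [h4, h3, Finsupp.linearCombination_single, one_smul]
    refine ⟨∑ i, C (f (Pi.single i 1)) * X i, ?_, fun s => ?_⟩
    · refine IsHomogeneous.sum _ _ _ (fun i _ => ?_)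
      have := (isHomogeneous_C (Fin (n + 1)) (f (Pi.single i 1))).mul (isHomogeneous_X ℂ i)
      rwa [zero_add] at this
    · have h5 : f (o + s • z) = g 0 + s * g 1 := by
        rw [map_add, map_smul, ho, hz, smul_eq_mul]
      rw [← h5, LinearMap.pi_apply_eq_sum_univ f (o + s • z), map_sum]
      refine Finset.sum_congr rfl (fun i _ => ?_)
      rw [map_mul, eval_C, eval_X, smul_eq_mul, mul_comm]
      congr 2
      funext j
      simp [Pi.single_apply, eq_comm]
  obtain ⟨l0, h0, h0'⟩ := key ![1, 0]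
  obtain ⟨l1, h1, h1'⟩ := key ![0, 1]
  refine ⟨l0, l1, h0, h1, fun s => ⟨?_, ?_⟩⟩
  · rw [h0']; simp
  · rw [h1']; simp

/-- The punctured disc is preconnected. -/
theorem punc (ε : ℝ) : IsPreconnected {s : ℂ | s ≠ 0 ∧ ‖s‖ < ε} := by
  rcases le_or_gt ε 0 with h | h
  · have : {s : ℂ | s ≠ 0 ∧ ‖s‖ < ε} = ∅ := by
      ext s
      simp only [Set.mem_ofPred_eq, Set.mem_empty_iff_false, iff_false, not_and, not_lt]
      exact fun _ => h.trans (norm_nonneg s)
    rw [this]
    exact isPreconnected_empty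
  · have : {s : ℂ | s ≠ 0 ∧ ‖s‖ < ε} = Complex.exp '' {w : ℂ | w.re < Real.log ε} := by
      ext s
      simp only [Set.mem_ofPred_eq, Set.mem_image]
      constructor
      · rintro ⟨h1, h2⟩
        refine ⟨Complex.log s, ?_, Complex.exp_log h1⟩
        rw [Complex.log_re]
        exact Real.log_lt_log (norm_pos_iff.2 h1) h2
      · rintro ⟨w, h1, rfl⟩
        refine ⟨Complex.exp_ne_zero _, ?_⟩
        rw [Complex.norm_exp]
        exact (Real.lt_log_iff_exp_lt h).1 h1
    rw [this]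
    exact (convex_halfSpace_re_lt _).isPreconnected.image _ Complex.continuous_exp.continuousOn

end QMulAux

open QMulAux in
theorem qMul (h1 : S_Red) : S_Mul := by
  intro n c G _ I hI o z hoz β ε hβ e q hq hrel
  obtain ⟨D, hD0, hred⟩ := h1 n c G I hI
  obtain ⟨l0, l1, hl0, hl1, hl⟩ := forms hoz
  let Ds : Type := {s : ℂ // s ≠ 0 ∧ ‖s‖ < ε}
  let pt : Ds → (Fin (n + 1) ⊕ Fin c → ℂ) := fun s => Sum.elim (o + s.1 • z) (β (o + s.1 • z))
  let ev : Sx n c →ₐ[ℂ] (Ds → ℂ) := aeval (fun v s => pt s v)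
  have evA : ∀ (F : Sx n c) (s : Ds), ev F s = eval (pt s) F := by
    intro F s
    have h2 : ((Pi.evalAlgHom ℂ (fun _ : Ds => ℂ) s).comp ev : Sx n c →ₐ[ℂ] ℂ) = aeval (pt s) := by
      refine MvPolynomial.algHom_ext (fun i => ?_)
      simp [ev]
    have h3 := DFunLike.congr_fun h2 F
    rw [aeval_eq_eval] at h3
    exact h3
  have evI : ∀ F ∈ I, ev F = 0 := fun F hF => funext fun s => by
    rw [evA]
    exact (hβ s.1 s.2.1 s.2.2).2 F hF
  have evX : ∀ (p : Px n) (s : Ds), ev (iX p) s = eval (o + s.1 • z) p := by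
    intro p s
    rw [evA]
    unfold iX
    rw [eval_rename]
    rfl
  let sf : Ds → ℂ := fun s => s.1
  let bv : (Fin c → ℂ) → Ds → ℂ := fun v s => ∑ j, v j * β (o + s.1 • z) j
  have evB : ∀ v : Fin c → ℂ, ev (∑ j, C (v j) * X (Sum.inr j)) = bv v := by
    intro v
    funext s
    rw [evA, map_sum]
    refine Finset.sum_congr rfl (fun j _ => ?_)
    rw [map_mul, eval_C, eval_X]
    rfl
  let ys : (Fin c → Fin D) → Sx n c := fun α => ∏ j, X (Sum.inr j) ^ (α j : ℕ)
  have hys : ∀ α, (ys α).IsHomogeneous (∑ j, (α j : ℕ)) := by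
    intro α
    refine IsHomogeneous.prod _ _ _ (fun j _ => ?_)
    have := (isHomogeneous_X ℂ (Sum.inr j : Fin (n + 1) ⊕ Fin c)).pow (α j : ℕ)
    rwa [one_mul] at this
  have hα : ∀ α : Fin c → Fin D, ∑ j, (α j : ℕ) ≤ c * D := by
    intro α
    calc ∑ j, (α j : ℕ) ≤ ∑ _j : Fin c, D := Finset.sum_le_sum (fun j _ => (α j).2.le)
      _ = c * D := by simp
  let k : ℕ := c * D + e
  let E : Submodule ℂ (Ds → ℂ) := Submodule.span ℂ (Set.range
    (fun x : (Fin c → Fin D) × Fin (k + 1) =>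
      if (x.2 : ℕ) + ∑ j, (x.1 j : ℕ) ≤ k then sf ^ (x.2 : ℕ) * ev (ys x.1) else 0))
  have hgen : ∀ (α : Fin c → Fin D) (i : ℕ), i + ∑ j, (α j : ℕ) ≤ k → sf ^ i * ev (ys α) ∈ E := by
    intro α i hi
    refine Submodule.subset_span ⟨(α, ⟨i, by omega⟩), ?_⟩
    simp only
    rw [if_pos hi]
  have hom : ∀ F : Sx n c, F.IsHomogeneous k → ev F ∈ E := by
    intro F hF
    obtain ⟨p, hp1, hp2, hp3⟩ := hred k F hF
    have h2 : ev F = ∑ α, ev (iX (p α)) * ev (ys α) := by
      have h3 := evI _ hp3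
      rw [map_sub, map_sum, sub_eq_zero] at h3
      rw [h3]
      exact Finset.sum_congr rfl (fun α _ => map_mul _ _ _)
    rw [h2]
    refine Submodule.sum_mem _ (fun α _ => ?_)
    have hαk : ∑ j, (α j : ℕ) ≤ k := (hα α).trans (Nat.le_add_right _ _)
    obtain ⟨a, -, ha⟩ := line o z (p α) _ (hp1 α hαk)
    have h4 : ev (iX (p α)) * ev (ys α) =
        ∑ i ∈ Finset.range (k - ∑ j, (α j : ℕ) + 1), a i • (sf ^ i * ev (ys α)) := by
      funext s
      rw [Pi.mul_apply, evX, ha, Finset.sum_mul, Finset.sum_apply]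
      refine Finset.sum_congr rfl (fun i _ => ?_)
      simp only [Pi.smul_apply, Pi.mul_apply, Pi.pow_apply, smul_eq_mul, sf]
      ring
    rw [h4]
    refine Submodule.sum_mem _ (fun i hi => Submodule.smul_mem _ _ (hgen α i ?_))
    have := Finset.mem_range.1 hi
    omega
  have hT : ∀ (v : Fin c → ℂ) (α : Fin c → Fin D) (i : ℕ), (i + 1) + ∑ j, (α j : ℕ) ≤ k →
      sf ^ i * bv v * ev (ys α) ∈ E := by
    intro v α i hi
    have h2 : sf ^ i * bv v * ev (ys α) =
        ev (iX (l0 ^ (k - ∑ j, (α j : ℕ) - (i + 1)) * l1 ^ i) * (∑ j, C (v j) * X (Sum.inr j)) * ys α) := by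
      rw [map_mul, map_mul, evB]
      congr 2
      funext s
      rw [evX, map_mul, map_pow, map_pow, (hl s.1).1, (hl s.1).2, one_pow, one_mul]
      rfl
    rw [h2]
    apply hom
    have h3 : (iX (l0 ^ (k - ∑ j, (α j : ℕ) - (i + 1)) * l1 ^ i) : Sx n c).IsHomogeneous
        (1 * (k - ∑ j, (α j : ℕ) - (i + 1)) + 1 * i) :=
      ((hl0.pow _).mul (hl1.pow _)).rename_isHomogeneous
    have h4 : (∑ j, C (v j) * X (Sum.inr j) : Sx n c).IsHomogeneous 1 := by
      refine IsHomogeneous.sum _ _ _ (fun j _ => ?_)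
      have := (isHomogeneous_C (Fin (n + 1) ⊕ Fin c) (v j)).mul (isHomogeneous_X ℂ (Sum.inr j))
      rwa [zero_add] at this
    have h5 := (h3.mul h4).mul (hys α)
    have h6 : 1 * (k - ∑ j, (α j : ℕ) - (i + 1)) + 1 * i + 1 + ∑ j, (α j : ℕ) = k := by omega
    rw [h6] at h5
    exact h5
  -- the function
  let ν : Ds → ℂ := fun s => bv (fun j => eval o (q j)) s / s.1
  have hν1 : ν * sf = bv (fun j => eval o (q j)) := by
    funext s
    exact div_mul_cancel₀ _ s.2.1
  choose a ha0 ha using fun j => line o z (q j) e (hq j)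
  have hν0 : ν = - ∑ i ∈ Finset.range e, sf ^ i * bv (fun j => a j (i + 1)) := by
    funext s
    have h2 : ∑ j, eval (o + s.1 • z) (q j) * β (o + s.1 • z) j = 0 := by
      have h3 := (hβ s.1 s.2.1 s.2.2).2 _ hrel
      rw [map_sum] at h3
      refine Eq.trans ?_ h3
      refine Finset.sum_congr rfl (fun j _ => ?_)
      rw [map_mul, eval_X]
      unfold iX
      rw [eval_rename]
      rfl
    have h4 : ∀ j, eval (o + s.1 • z) (q j) =
        (∑ i ∈ Finset.range e, a j (i + 1) * s.1 ^ i) * s.1 + eval o (q j) := by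
      intro j
      rw [ha, Finset.sum_range_succ', ha0, pow_zero, mul_one, Finset.sum_mul]
      congr 1
      exact Finset.sum_congr rfl (fun i _ => by ring)
    have h5 : (∑ i ∈ Finset.range e, s.1 ^ i * ∑ j, a j (i + 1) * β (o + s.1 • z) j) * s.1 +
        ∑ j, eval o (q j) * β (o + s.1 • z) j = 0 := by
      refine Eq.trans ?_ h2
      simp_rw [h4, add_mul, Finset.sum_add_distrib]
      congr 1
      simp_rw [Finset.sum_mul, Finset.mul_sum, Finset.sum_mul]
      rw [Finset.sum_comm]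
      refine Finset.sum_congr rfl (fun j _ => Finset.sum_congr rfl (fun i _ => by ring))
    have h6 : ν s = (∑ j, eval o (q j) * β (o + s.1 • z) j) / s.1 := rfl
    have h7 : (- ∑ i ∈ Finset.range e, sf ^ i * bv (fun j => a j (i + 1))) s =
        - ∑ i ∈ Finset.range e, s.1 ^ i * ∑ j, a j (i + 1) * β (o + s.1 • z) j := by
      rw [Pi.neg_apply, Finset.sum_apply]
      rfl
    rw [h6, h7, div_eq_iff s.2.1]
    linear_combination h5
  have hmul : ∀ f ∈ E, ν * f ∈ E := by
    have h2 : E ≤ E.comap (LinearMap.mulLeft ℂ ν) := by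
      refine Submodule.span_le.2 ?_
      rintro _ ⟨⟨α, i⟩, rfl⟩
      simp only
      split_ifs with hi
      · change ν * (sf ^ (i : ℕ) * ev (ys α)) ∈ E
        rcases Nat.eq_zero_or_pos (i : ℕ) with h0 | h0
        · rw [h0, pow_zero, one_mul, hν0, neg_mul, Finset.sum_mul]
          refine Submodule.neg_mem _ (Submodule.sum_mem _ (fun i' hi' => hT _ α i' ?_))
          have h3 := Finset.mem_range.1 hi'
          have h4 := hα α
          omega
        · obtain ⟨i', hi'⟩ : ∃ i', (i : ℕ) = i' + 1 := ⟨(i : ℕ) - 1, by omega⟩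
          have h3 : ν * (sf ^ (i : ℕ) * ev (ys α)) = sf ^ i' * bv (fun j => eval o (q j)) * ev (ys α) := by
            rw [← hν1, hi']
            ring
          rw [h3]
          exact hT _ α i' (by rw [← hi']; exact hi)
      · exact Submodule.zero_mem _
    exact fun f hf => h2 hf
  have hone : (1 : Ds → ℂ) ∈ E := by
    have h2 := hgen (fun _ => ⟨0, hD0⟩) 0 (by simp)
    have h3 : ys (fun _ => ⟨0, hD0⟩) = 1 := by
      simp [ys]
    rw [h3, map_one, pow_zero, one_mul] at h2
    exact h2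
  have hfin : Module.Finite ℂ E := FiniteDimensional.span_of_finite ℂ (Set.finite_range _)
  have hint : IsIntegral ℂ ν := by
    refine IsIntegral.of_mem_of_fg (Algebra.adjoin ℂ {ν}) ?_ ν (Algebra.self_mem_adjoin_singleton ℂ ν)
    have h2 : Subalgebra.toSubmodule (Algebra.adjoin ℂ {ν}) ≤ E := by
      rw [Algebra.adjoin_eq_span]
      refine Submodule.span_le.2 (fun f hf => ?_)
      obtain ⟨i, rfl⟩ := Submonoid.mem_closure_singleton.1 hf
      clear hf
      induction i with
      | zero => rw [pow_zero]; exact hone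
      | succ i ih => rw [pow_succ']; exact hmul _ ih
    have h3 : IsNoetherian ℂ E := inferInstance
    exact (isNoetherian_submodule.1 h3) _ h2
  obtain ⟨P, hP1, hP2⟩ := hint
  have hroot : ∀ s : Ds, ν s ∈ (P.roots.toFinset : Set ℂ) := by
    intro s
    have h2 := congrFun hP2 s
    have h3 : Polynomial.eval (ν s) P = 0 := by
      have h4 : Polynomial.eval₂ (algebraMap ℂ (Ds → ℂ)) ν P s = Polynomial.eval (ν s) P := by
        rw [Polynomial.eval₂_eq_sum_range, Polynomial.eval_eq_sum_range, Finset.sum_apply]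
        rfl
      rw [← h4, h2]
      rfl
    rw [Finset.mem_coe, Multiset.mem_toFinset, Polynomial.mem_roots hP1.ne_zero]
    exact h3
  by_cases hε : ∃ s0 : ℂ, s0 ≠ 0 ∧ ‖s0‖ < ε
  · obtain ⟨s0, hs0⟩ := hε
    let g : ℂ → ℂ := fun s => (∑ j, eval o (q j) * β (o + s • z) j) / s
    have hgc : ContinuousOn g {s : ℂ | s ≠ 0 ∧ ‖s‖ < ε} := by
      intro s hs
      refine ContinuousAt.continuousWithinAt ?_
      refine ContinuousAt.div ?_ continuousAt_id hs.1
      refine tendsto_finsetSum _ (fun j _ => ?_)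
      refine ContinuousAt.mul continuousAt_const ?_
      have h2 : ContinuousAt (fun s : ℂ => β (o + s • z)) s := by
        refine ContinuousAt.comp (f := fun s : ℂ => o + s • z) (hβ s hs.1 hs.2).1 ?_
        fun_prop
      exact (continuous_apply j).continuousAt.comp h2
    refine ⟨g s0, fun s hs hs' => ?_⟩
    have h2 : g s = g s0 := by
      refine (punc ε).constant_of_mapsTo (P.roots.toFinset.finite_toSet.isDiscrete) hgc ?_ ⟨hs, hs'⟩ hs0
      intro s hs
      exact hroot ⟨s, hs⟩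
    rw [← h2]
    exact (div_mul_cancel₀ _ hs).symm
  · exact ⟨0, fun s hs hs' => absurd ⟨s, hs, hs'⟩ hε⟩

end Pool.Agent.GQ
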