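import Pool.Agent.Lib.MP_776403_ag.GQ.HiB

set_option autoImplicit false

namespace Pool.Agent.GQ

open MvPolynomial

namespace QNewAux

variable {n c : ℕ} {m : Fin c → ℕ}

theorem aeval_sub_eval (Γ : Fin (n + 1) → Vx c) (p : Fin (n + 1) → ℂ) (J : Ideal (Vx c))
    (h : ∀ k, Γ k - C (p k) ∈ J) (f : Px n) : aeval Γ f - C (eval p f) ∈ J := by
  induction f using MvPolynomial.induction_on with
  | C a => simp [algebraMap_eq]
  | add f g hf hg =>
    rw [map_add, map_add, map_add]
    have := add_mem hf hg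
    rwa [show aeval Γ f + aeval Γ g - (C (eval p f) + C (eval p g)) =
      aeval Γ f - C (eval p f) + (aeval Γ g - C (eval p g)) by ring]
  | mul_X f i hf =>
    rw [map_mul, map_mul, map_mul, aeval_X, eval_X]
    rw [show aeval Γ f * Γ i - C (eval p f) * C (p i) =
      Γ i * (aeval Γ f - C (eval p f)) + C (eval p f) * (Γ i - C (p i)) by ring]
    exact add_mem (J.mul_mem_left _ hf) (J.mul_mem_left _ (h i))

theorem taylor (Γ Δ : Fin (n + 1) → Vx c) (N : ℕ) (h : ∀ k, Δ k ∈ HiB.Ge m N) (f : Px n) :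
    aeval (Γ + Δ) f - aeval Γ f - ∑ k, aeval Γ (pderiv k f) * Δ k ∈ HiB.Ge m (N + N) := by
  induction f using MvPolynomial.induction_on with
  | C a => simp [algebraMap_eq]
  | add f g hf hg =>
    have := add_mem hf hg
    simp only [map_add, add_mul, Finset.sum_add_distrib]
    rwa [show aeval (Γ + Δ) f + aeval (Γ + Δ) g - (aeval Γ f + aeval Γ g) -
      (∑ k, aeval Γ (pderiv k f) * Δ k + ∑ k, aeval Γ (pderiv k g) * Δ k) =
      aeval (Γ + Δ) f - aeval Γ f - ∑ k, aeval Γ (pderiv k f) * Δ k +
      (aeval (Γ + Δ) g - aeval Γ g - ∑ k, aeval Γ (pderiv k g) * Δ k) by ring]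
  | mul_X f j hf =>
    have h1 : ∑ k, aeval Γ (pderiv k (f * X j)) * Δ k =
        (∑ k, aeval Γ (pderiv k f) * Δ k) * Γ j + aeval Γ f * Δ j := by
      rw [Finset.sum_mul, ← Finset.sum_erase_add _ _ (Finset.mem_univ j),
        ← Finset.sum_erase_add (a := j) _ _ (Finset.mem_univ j)]
      rw [add_assoc]
      congr 1
      · refine Finset.sum_congr rfl fun k hk => ?_
        rw [pderiv_mul, pderiv_X_of_ne (Finset.ne_of_mem_erase hk).symm, mul_zero, add_zero,
          map_mul, aeval_X]
        ring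
      · rw [pderiv_mul, pderiv_X_self, map_add, map_mul, map_mul, map_one, aeval_X]
        ring
    rw [h1, map_mul, map_mul, aeval_X, aeval_X]
    have hD : (∑ k, aeval Γ (pderiv k f) * Δ k) ∈ HiB.Ge m N :=
      sum_mem fun k _ => Ideal.mul_mem_left _ _ (h k)
    rw [show aeval (Γ + Δ) f * (Γ + Δ) j - aeval Γ f * Γ j -
        ((∑ k, aeval Γ (pderiv k f) * Δ k) * Γ j + aeval Γ f * Δ j) =
        Γ j * (aeval (Γ + Δ) f - aeval Γ f - ∑ k, aeval Γ (pderiv k f) * Δ k) +
        (Δ j * (aeval (Γ + Δ) f - aeval Γ f - ∑ k, aeval Γ (pderiv k f) * Δ k) +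
        (∑ k, aeval Γ (pderiv k f) * Δ k) * Δ j) by
      rw [Pi.add_apply]; ring]
    exact add_mem (Ideal.mul_mem_left _ _ hf) (add_mem (Ideal.mul_mem_left _ _ hf)
      (HiB.Ge_mul hD (h j)))

theorem right_inverse {J : Fin c → Fin (n + 1) → ℂ} (hJ : LinearIndependent ℂ J) :
    ∃ r : Fin (n + 1) → Fin c → ℂ, ∀ i j, ∑ k, J i k * r k j = if i = j then 1 else 0 := by
  obtain ⟨L, hL⟩ := (Fintype.linearCombination ℂ J).exists_leftInverse_of_injective
    (by rw [LinearMap.ker_eq_bot]; exact hJ.fintypeLinearCombination_injective)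
  refine ⟨fun k => L (Pi.single k 1), fun i j => ?_⟩
  have h1 : L (J i) = Pi.single i 1 := by
    have := LinearMap.congr_fun hL (Pi.single i 1)
    simpa using this
  have h2 : J i = ∑ k, J i k • (Pi.single k 1 : Fin (n + 1) → ℂ) := by
    ext l
    simp [Finset.sum_apply, Pi.single_apply]
  have h3 := congrFun h1 j
  rw [h2, map_sum, Finset.sum_apply] at h3
  rw [Pi.single_apply] at h3
  rw [show (if i = j then (1 : ℂ) else 0) = if j = i then 1 else 0 by simp only [eq_comm], ← h3]
  refine Finset.sum_congr rfl fun k _ => ?_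
  rw [map_smul, Pi.smul_apply, smul_eq_mul]

end QNewAux

open QNewAux

theorem qNew : S_New := by
  intro n c m hm p h hp hl M
  obtain ⟨r, hr⟩ := right_inverse hl
  simp only [HiB.Hi_iff]
  induction M with
  | zero =>
    refine ⟨fun k => C (p k), fun k => by simp, fun i => ?_⟩
    have h1 : aeval (fun k => (C (p k) : Vx c)) (h i) = C (eval p (h i)) := by
      have := aeval_sub_eval (c := c) (fun k => C (p k)) p ⊥ (fun k => by simp) (h i)
      rw [Ideal.mem_bot, sub_eq_zero] at this
      exact this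
    rw [h1, hp i, C_0, zero_sub]
    exact neg_mem (HiB.Ge_mono (hm i) (HiB.X_mem_Ge i))
  | succ M ih =>
    obtain ⟨Γ, hΓ, hE⟩ := ih
    set e : Fin c → Vx c := fun i => aeval Γ (h i) - X i with he
    set Δ : Fin (n + 1) → Vx c := fun k => - ∑ j, C (r k j) * e j with hΔ
    have hΔm : ∀ k, Δ k ∈ HiB.Ge m (M + 1) := fun k =>
      neg_mem (sum_mem fun j _ => Ideal.mul_mem_left _ _ (hE j))
    refine ⟨Γ + Δ, fun k => ?_, fun i => ?_⟩
    · rw [Pi.add_apply, add_sub_right_comm]
      exact add_mem (hΓ k) (HiB.Ge_mono (by omega) (hΔm k))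
    · have h1 := HiB.Ge_mono (show M + 1 + 1 ≤ M + 1 + (M + 1) by omega)
        (taylor Γ Δ (M + 1) hΔm (h i))
      have h2 : ∑ k, (aeval Γ (pderiv k (h i)) - C (eval p (pderiv k (h i)))) * Δ k ∈
          HiB.Ge m (M + 1 + 1) := sum_mem fun k _ => by
        have := HiB.Ge_mul (aeval_sub_eval Γ p (HiB.Ge m 1) hΓ (pderiv k (h i))) (hΔm k)
        rwa [add_comm 1 (M + 1)] at this
      have h3 : ∑ k, C (eval p (pderiv k (h i))) * Δ k = - e i := by
        have h4 : ∀ j, ∑ k, C (eval p (pderiv k (h i))) * C (r k j) =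
            (if i = j then 1 else 0 : Vx c) := by
          intro j
          have := congrArg (C (σ := Fin c)) (hr i j)
          rw [map_sum] at this
          simp only [map_mul] at this
          rw [this]
          split_ifs <;> simp
        simp only [hΔ, mul_neg, Finset.sum_neg_distrib, Finset.mul_sum]
        rw [Finset.sum_comm]
        congr 1
        have h5 : ∀ j, ∑ k, C (eval p (pderiv k (h i))) * (C (r k j) * e j) =
            (if i = j then e j else 0) := by
          intro j
          simp only [← mul_assoc]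
          rw [← Finset.sum_mul, h4 j]
          split_ifs <;> simp
        rw [Finset.sum_congr rfl fun j _ => h5 j]
        simp
      have h6 : aeval (Γ + Δ) (h i) - X i =
          (aeval (Γ + Δ) (h i) - aeval Γ (h i) - ∑ k, aeval Γ (pderiv k (h i)) * Δ k) +
          ∑ k, (aeval Γ (pderiv k (h i)) - C (eval p (pderiv k (h i)))) * Δ k := by
        simp only [sub_mul, Finset.sum_sub_distrib]
        rw [h3, he]
        ring
      rw [h6]
      exact add_mem h1 h2

end Pool.Agent.GQ
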