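import Pool.Agent.Lib.MP_776403_ag.GQ.Spec

/-!
# The zero set of a prime ideal which is not maximal is unbounded

If the zero set is bounded by `R` then for `|a| > R` the class of `X_i - a` is invertible in
`A = ℂ[x] ⧸ q` (Nullstellensatz); the elements `(X_i - a)⁻¹` would be linearly independent if `X_i` was
transcendental, but `A` has a countable basis. So the `X_i` are algebraic, hence constants.
-/

set_option autoImplicit false

namespace Pool.Agent.GQ

open MvPolynomial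

namespace QNoeAux

open Cardinal in
theorem card_ball (R : ℝ) : 𝔠 ≤ #{a : ℂ // R < ‖a‖} := by
  apply continuum_le_cardinal_of_isOpen (s := {a : ℂ | R < ‖a‖}) ℂ
    (isOpen_lt continuous_const continuous_norm)
  refine ⟨((|R| + 1 : ℝ) : ℂ), ?_⟩
  show R < ‖((|R| + 1 : ℝ) : ℂ)‖
  rw [Complex.norm_real, Real.norm_eq_abs, abs_of_pos (by positivity)]
  linarith [le_abs_self R]

open Cardinal in
theorem rank_quot (n : ℕ) (q : Ideal (Px n)) : Module.rank ℂ (Px n ⧸ q) ≤ ℵ₀ := by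
  have h1 : Module.rank ℂ (Px n ⧸ q) ≤ Module.rank ℂ (Px n) :=
    ((Ideal.Quotient.mkₐ ℂ q).toLinearMap).rank_le_of_surjective Ideal.Quotient.mk_surjective
  refine h1.trans ?_
  rw [MvPolynomial.rank_eq]
  exact Cardinal.mk_le_aleph0

/-- the class of `X_i - a` is invertible -/
theorem unit_sub (n : ℕ) (q : Ideal (Px n)) (R : ℝ)
    (h : ∀ x : Fin (n + 1) → ℂ, (∀ f ∈ q, eval x f = 0) → ‖x‖ ≤ R) (i : Fin (n + 1)) (a : ℂ)
    (ha : R < ‖a‖) : ∃ g : Px n ⧸ q, (Ideal.Quotient.mk q (X i) - algebraMap ℂ (Px n ⧸ q) a) * g = 1 := by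
  have h1 : q ⊔ Ideal.span {X i - C a} = ⊤ := by
    by_contra hne
    obtain ⟨M, hM, hle⟩ := Ideal.exists_le_maximal _ hne
    obtain ⟨x, hx⟩ := eq_vanishingIdeal_singleton_of_isMaximal ℂ hM
    have h2 : ∀ f ∈ M, eval x f = 0 := by
      intro f hf
      rw [hx, mem_vanishingIdeal_singleton_iff] at hf
      simpa using hf
    have h3 := h x fun f hf => h2 f (hle (Ideal.mem_sup_left hf))
    have h4 := h2 (X i - C a) (hle (Ideal.mem_sup_right (Ideal.mem_span_singleton_self _)))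
    rw [map_sub, eval_X, eval_C, sub_eq_zero] at h4
    have h5 := norm_le_pi_norm x i
    rw [h4] at h5
    linarith
  have h2 : (1 : Px n) ∈ q ⊔ Ideal.span {X i - C a} := by
    rw [h1]
    exact Submodule.mem_top
  obtain ⟨f, hf, g, hg, hfg⟩ := Submodule.mem_sup.1 h2
  obtain ⟨k, hk⟩ := Ideal.mem_span_singleton'.1 hg
  refine ⟨Ideal.Quotient.mk q k, ?_⟩
  have h3 : algebraMap ℂ (Px n ⧸ q) a = Ideal.Quotient.mk q (C a) := rfl
  rw [h3, ← map_sub, ← map_mul, mul_comm, hk, ← map_one (Ideal.Quotient.mk q), ← hfg, map_add,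
    Ideal.Quotient.eq_zero_iff_mem.2 hf, zero_add]

open Cardinal in
theorem alg (n : ℕ) (q : Ideal (Px n)) [q.IsPrime] (R : ℝ)
    (h : ∀ x : Fin (n + 1) → ℂ, (∀ f ∈ q, eval x f = 0) → ‖x‖ ≤ R) (i : Fin (n + 1)) :
    IsAlgebraic ℂ (algebraMap (Px n ⧸ q) (FractionRing (Px n ⧸ q)) (Ideal.Quotient.mk q (X i))) := by
  by_contra hT
  have hT' : Transcendental ℂ
      (algebraMap (Px n ⧸ q) (FractionRing (Px n ⧸ q)) (Ideal.Quotient.mk q (X i))) := hT
  have h1 := (hT'.linearIndependent_sub_inv).comp (Subtype.val : {a : ℂ // R < ‖a‖} → ℂ)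
    Subtype.val_injective
  choose g hg using fun a : {a : ℂ // R < ‖a‖} => unit_sub n q R h i a.1 a.2
  have h2 : LinearIndependent ℂ ((IsScalarTower.toAlgHom ℂ (Px n ⧸ q)
      (FractionRing (Px n ⧸ q))).toLinearMap ∘ g) := by
    refine Eq.mp ?_ h1
    congr 1
    funext a
    show (algebraMap (Px n ⧸ q) (FractionRing (Px n ⧸ q)) (Ideal.Quotient.mk q (X i)) -
      algebraMap ℂ (FractionRing (Px n ⧸ q)) a.1)⁻¹ =
      algebraMap (Px n ⧸ q) (FractionRing (Px n ⧸ q)) (g a)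
    have e : (algebraMap (Px n ⧸ q) (FractionRing (Px n ⧸ q)) (Ideal.Quotient.mk q (X i)) -
      algebraMap ℂ (FractionRing (Px n ⧸ q)) a.1) *
      algebraMap (Px n ⧸ q) (FractionRing (Px n ⧸ q)) (g a) = 1 := by
      rw [IsScalarTower.algebraMap_apply ℂ (Px n ⧸ q) (FractionRing (Px n ⧸ q)), ← map_sub, ← map_mul,
        hg, map_one]
    exact inv_eq_of_mul_eq_one_right e
  have h3 := (LinearIndependent.of_comp _ h2).cardinal_le_rank
  have h4 := (card_ball R).trans (h3.trans (rank_quot n q))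
  exact absurd h4 (not_le.2 Cardinal.aleph0_lt_continuum)

end QNoeAux

open QNoeAux in
theorem qNoe : S_Noe := by
  intro n q hq hmax R
  by_contra hno
  push Not at hno
  have h : ∀ x : Fin (n + 1) → ℂ, (∀ f ∈ q, eval x f = 0) → ‖x‖ ≤ R := by
    intro x hx
    by_contra hlt
    obtain ⟨f, hf, hfx⟩ := hno x (not_le.1 hlt)
    exact hfx (hx f hf)
  have := hq
  have h1 : ∀ i : Fin (n + 1), ∃ c : ℂ, Ideal.Quotient.mk q (X i) = algebraMap ℂ (Px n ⧸ q) c := by
    intro i
    have h2 := (alg n q R h i).isIntegral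
    obtain ⟨c, hc⟩ := minpoly.mem_range_of_degree_eq_one ℂ _
      (IsAlgClosed.degree_eq_one_of_irreducible ℂ (minpoly.irreducible h2))
    refine ⟨c, ?_⟩
    apply IsFractionRing.injective (Px n ⧸ q) (FractionRing (Px n ⧸ q))
    rw [← IsScalarTower.algebraMap_apply ℂ (Px n ⧸ q) (FractionRing (Px n ⧸ q)), hc]
  choose c hc using h1
  have h2 : RingHom.ker (eval c) ≤ q := by
    intro f hf
    rw [← Ideal.Quotient.eq_zero_iff_mem]
    have h3 : ∀ f : Px n, Ideal.Quotient.mk q f = algebraMap ℂ (Px n ⧸ q) (eval c f) := by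
      intro f
      have h4 : (Ideal.Quotient.mkₐ ℂ q) = (Algebra.ofId ℂ (Px n ⧸ q)).comp (aeval c) := by
        refine MvPolynomial.algHom_ext fun i => ?_
        show Ideal.Quotient.mk q (X i) = algebraMap ℂ (Px n ⧸ q) (aeval c (X i))
        rw [aeval_X, hc]
      exact DFunLike.congr_fun h4 f
    rw [h3, (RingHom.mem_ker).1 hf, map_zero]
  have h3 : (RingHom.ker (eval c)).IsMaximal :=
    RingHom.ker_isMaximal_of_surjective (eval c) fun z => ⟨C z, eval_C z⟩
  have h4 := h3.eq_of_le hq.ne_top h2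
  rw [h4] at h3
  exact hmax h3

end Pool.Agent.GQ
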