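import Pool.Agent.Lib.MP_776403_ag.GQ.Spec

/-!
# Theorem GP, block Nrm: the norm argument (author helper62)
-/

set_option autoImplicit false

namespace Pool.Agent.GQ

open MvPolynomial

noncomputable section

namespace QNrmAux

variable {n c : ℕ}

/-- `act g (act h F) = act (h g) F`. -/
theorem act_act (g h : Gl c) (F : Sx n c) : act g (act h F) = act (h * g) F := by
  have e : (act (n := n) g).comp (act h) = act (h * g) := by
    refine MvPolynomial.algHom_ext fun j => ?_
    change act g (act h (X j : Sx n c)) = act (h * g) (X j : Sx n c)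
    cases j with
    | inl i =>
      unfold act
      rw [aeval_X, Sum.elim_inl, aeval_X, aeval_X, Sum.elim_inl, Sum.elim_inl]
    | inr j =>
      have h1 : ∀ (g : Gl c) (j : Fin c), act g (X (Sum.inr j) : Sx n c) =
          ∑ k, C ((g : Matrix (Fin c) (Fin c) ℂ) j k) * X (Sum.inr k) := by
        intro g j
        unfold act
        rw [aeval_X, Sum.elim_inr]
      have h2 : ∀ (g : Gl c) (z : ℂ), act g (C z : Sx n c) = C z := by
        intro g z
        unfold act
        rw [aeval_C]
        rfl
      rw [h1, map_sum, h1]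
      simp_rw [map_mul, h2, h1, Finset.mul_sum]
      rw [Finset.sum_comm]
      refine Finset.sum_congr rfl fun k _ => ?_
      rw [Units.val_mul, Matrix.mul_apply, map_sum, Finset.sum_mul]
      refine Finset.sum_congr rfl fun l _ => ?_
      rw [C_mul, mul_assoc]
  exact DFunLike.congr_fun e F

theorem act_one (F : Sx n c) : act 1 F = F := by
  have e : (act (n := n) (1 : Gl c)) = AlgHom.id ℂ _ := by
    refine MvPolynomial.algHom_ext fun j => ?_
    cases j with
    | inl i =>
      unfold act
      rw [aeval_X, Sum.elim_inl]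
      rfl
    | inr j =>
      unfold act
      rw [aeval_X, Sum.elim_inr, Finset.sum_eq_single j]
      · rw [Units.val_one, Matrix.one_apply_eq, C_1, one_mul]
        rfl
      · intro k _ hk
        rw [Units.val_one, Matrix.one_apply_ne (Ne.symm hk), C_0, zero_mul]
      · intro h
        exact absurd (Finset.mem_univ j) h
  exact DFunLike.congr_fun e F

end QNrmAux

open QNrmAux

theorem qNrm : S_Nrm := by
  intro n c G _ I hD F hF
  classical
  have : Fintype G := Fintype.ofFinite G
  set N : Sx n c := ∏ g : G, act (g : Gl c) F with hN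
  have hinv : ∀ g ∈ G, act g N = N := by
    intro g hg
    rw [hN, map_prod]
    simp_rw [act_act]
    exact Fintype.prod_equiv (Equiv.mulRight (⟨g, hg⟩ : G)) _ _ fun h => rfl
  obtain ⟨f, hf⟩ := hD.quot N fun g hg => by rw [hinv g hg, sub_self]; exact I.zero_mem
  refine ⟨f, ∏ g ∈ Finset.univ.erase (1 : G), act (g : Gl c) F, ?_, ?_⟩
  · rintro rfl
    rw [map_zero, sub_zero] at hf
    have hp := hD.prime
    obtain ⟨g, -, hg⟩ := (Ideal.IsPrime.prod_mem_iff).1 hf
    have h1 := hD.stable ((g : Gl c)⁻¹) (G.inv_mem g.2) _ hg
    rw [act_act, mul_inv_cancel, act_one] at h1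
    exact hF h1
  · have h1 : F * ∏ g ∈ Finset.univ.erase (1 : G), act (g : Gl c) F = N := by
      rw [hN, ← Finset.mul_prod_erase Finset.univ (fun g : G => act (g : Gl c) F) (Finset.mem_univ 1)]
      congr 1
      exact (act_one F).symm
    rw [h1]
    exact hf

end

end Pool.Agent.GQ
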