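import Pool.Agent.Lib.MP_776403_ag.GQ.Spec

/-!
# Theorem GP, block Phi: the homomorphism `t ↦ h_t` (author helper62)
-/

set_option autoImplicit false

namespace Pool.Agent.GQ

open MvPolynomial

noncomputable section

namespace QPhiAux

theorem act_iY {n c : ℕ} (g : Gl c) (t : Vx c) : act g (iY t : Sx n c) = iY (actV g t) := by
  have h : (act (n := n) g).comp (iY : Vx c →ₐ[ℂ] Sx n c) = (iY : Vx c →ₐ[ℂ] Sx n c).comp (actV g) := by
    refine MvPolynomial.algHom_ext fun j => ?_
    change act g (rename Sum.inr (X j) : Sx n c) = rename Sum.inr (actV g (X j))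
    rw [rename_X]
    unfold act actV
    rw [aeval_X, aeval_X, Sum.elim_inr, map_sum]
    refine Finset.sum_congr rfl fun k _ => ?_
    rw [map_mul, rename_C, rename_X]
  exact DFunLike.congr_fun h t

theorem uni {n c : ℕ} {G : Subgroup (Gl c)} {I : Ideal (Sx n c)} (hD : Dat n c G I) {F : Sx n c} {f f' : Px n}
    (h : F - iX f ∈ I) (h' : F - iX f' ∈ I) : f = f' := by
  have h1 : iX (f - f') ∈ I := by
    have e : (iX (f - f') : Sx n c) = (F - iX f') - (F - iX f) := by
      rw [map_sub]
      ring
    rw [e]
    exact I.sub_mem h' h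
  exact sub_eq_zero.1 (hD.indep _ h1)

theorem exi {n c : ℕ} {G : Subgroup (Gl c)} {I : Ideal (Sx n c)} (hD : Dat n c G I) (a : invAlg G) :
    ∃ f : Px n, iY (a : Vx c) - iX f ∈ I := by
  refine hD.quot _ fun g hg => ?_
  have h1 : actV g (a : Vx c) = a := a.2 g hg
  rw [act_iY, h1, sub_self]
  exact I.zero_mem

end QPhiAux

open QPhiAux

theorem qPhi : S_Phi := by
  intro n c G I hD
  choose f hf using fun a : invAlg G => exi hD a
  let φ : invAlg G →ₐ[ℂ] Px n :=
    { toFun := f
      map_one' := by
        refine uni hD (hf 1) ?_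
        change iY (1 : Vx c) - iX (1 : Px n) ∈ I
        rw [map_one, map_one, sub_self]
        exact I.zero_mem
      map_mul' := by
        intro a b
        refine uni hD (hf (a * b)) ?_
        change iY ((a : Vx c) * (b : Vx c)) - iX (f a * f b) ∈ I
        rw [map_mul, map_mul]
        have e : (iY (a : Vx c) * iY (b : Vx c) - iX (f a) * iX (f b) : Sx n c) =
            (iY (a : Vx c) - iX (f a)) * iY (b : Vx c) + iX (f a) * (iY (b : Vx c) - iX (f b)) := by ring
        rw [e]
        exact I.add_mem (I.mul_mem_right _ (hf a)) (I.mul_mem_left _ (hf b))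
      map_zero' := by
        refine uni hD (hf 0) ?_
        change iY (0 : Vx c) - iX (0 : Px n) ∈ I
        rw [map_zero, map_zero, sub_self]
        exact I.zero_mem
      map_add' := by
        intro a b
        refine uni hD (hf (a + b)) ?_
        change iY ((a : Vx c) + (b : Vx c)) - iX (f a + f b) ∈ I
        rw [map_add, map_add]
        have e : (iY (a : Vx c) + iY (b : Vx c) - (iX (f a) + iX (f b)) : Sx n c) =
            (iY (a : Vx c) - iX (f a)) + (iY (b : Vx c) - iX (f b)) := by ring
        rw [e]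
        exact I.add_mem (hf a) (hf b)
      commutes' := by
        intro r
        refine uni hD (hf (algebraMap ℂ _ r)) ?_
        change iY (algebraMap ℂ (Vx c) r) - iX (algebraMap ℂ (Px n) r) ∈ I
        rw [AlgHom.commutes, AlgHom.commutes, sub_self]
        exact I.zero_mem }
  have hφ : ∀ a : invAlg G, iY (a : Vx c) - iX (φ a) ∈ I := hf
  refine ⟨φ, hφ, fun a k hk => ?_⟩
  have h1 := hD.homog _ (hφ a) k
  have h2 : (iY (a : Vx c) : Sx n c).IsHomogeneous k := hk.rename_isHomogeneous
  have h3 : homogeneousComponent k (iX (φ a) : Sx n c) = iX (homogeneousComponent k (φ a)) :=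
    (rename_homogeneousComponent (φ := (Sum.inl : Fin (n + 1) → Fin (n + 1) ⊕ Fin c)) k (φ a)).symm
  rw [map_sub, homogeneousComponent_of_mem h2, if_pos rfl, h3] at h1
  rw [uni hD (hφ a) h1]
  exact homogeneousComponent_isHomogeneous k _

end

end Pool.Agent.GQ
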