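import Pool.Agent.Lib.MP_776403_ag.GQ.Spec

/-!
# MP_776403_ag, THEOREM GP, block POL: the invariants are polynomials in `c` of them
-/

set_option autoImplicit false

namespace Pool.Agent.GQ

open MvPolynomial

namespace QPolAux

variable {c : ℕ} {m : Fin c → ℕ}

/-- all monomials have weight at least `M` -/
def Ge (m : Fin c → ℕ) (M : ℕ) (f : Vx c) : Prop := ∀ d, coeff d f ≠ 0 → M ≤ Finsupp.weight m d

theorem hi_iff {M : ℕ} {f : Vx c} : Hi m M f ↔ Ge m (M + 1) f :=
  ⟨fun h d hd => h d (mem_support_iff.2 hd), fun h d hd => h d (mem_support_iff.1 hd)⟩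

theorem Ge.mono {a b : ℕ} {f : Vx c} (h : a ≤ b) (hf : Ge m b f) : Ge m a f :=
  fun d hd => h.trans (hf d hd)

theorem Ge.zero (a : ℕ) : Ge m a (0 : Vx c) := fun d hd => absurd (coeff_zero d) hd

theorem Ge.add {a : ℕ} {f g : Vx c} (hf : Ge m a f) (hg : Ge m a g) : Ge m a (f + g) := by
  intro d hd
  by_cases h : coeff d f = 0
  · refine hg d fun h' => hd ?_
    rw [coeff_add, h, h', add_zero]
  · exact hf d h

theorem Ge.neg {a : ℕ} {f : Vx c} (hf : Ge m a f) : Ge m a (-f) := by
  intro d hd
  rw [coeff_neg] at hd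
  exact hf d (neg_ne_zero.1 hd)

theorem Ge.sum {a : ℕ} {s : Finset ℕ} {f : ℕ → Vx c} (hf : ∀ j ∈ s, Ge m a (f j)) :
    Ge m a (∑ j ∈ s, f j) := by
  classical
  induction s using Finset.induction_on with
  | empty => simpa using Ge.zero a
  | insert j s hj ih =>
    rw [Finset.sum_insert hj]
    exact (hf j (Finset.mem_insert_self _ _)).add (ih fun i hi => hf i (Finset.mem_insert_of_mem hi))

theorem Ge.mul {a b : ℕ} {f g : Vx c} (hf : Ge m a f) (hg : Ge m b g) : Ge m (a + b) (f * g) := by
  classical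
  intro d hd
  rw [coeff_mul] at hd
  obtain ⟨x, hx, hne⟩ := Finset.exists_ne_zero_of_sum_ne_zero hd
  rw [← Finset.HasAntidiagonal.mem_antidiagonal.1 hx, map_add]
  exact add_le_add (hf _ (left_ne_zero_of_mul hne)) (hg _ (right_ne_zero_of_mul hne))

theorem ge_of_wh {a : ℕ} {f : Vx c} (h : f.IsWeightedHomogeneous m a) : Ge m a f :=
  fun _ hd => (h hd).ge

theorem wh_eq_zero {a : ℕ} {f : Vx c} (h : f.IsWeightedHomogeneous m a) (h' : Ge m (a + 1) f) :
    f = 0 := by
  ext d
  rw [coeff_zero]
  by_contra hne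
  have h1 := h hne
  have h2 := h' d hne
  omega

/-- `u` is the part of weight `a` of `f`, and `f` has no smaller weights -/
structure App (m : Fin c → ℕ) (a : ℕ) (f u : Vx c) : Prop where
  wh : u.IsWeightedHomogeneous m a
  ge : Ge m (a + 1) (f - u)

theorem App.low {a : ℕ} {f u : Vx c} (h : App m a f u) : Ge m a f := by
  have := (ge_of_wh h.wh).add (h.ge.mono (Nat.le_succ a))
  rwa [add_sub_cancel] at this

theorem App.mul {a b : ℕ} {f g u v : Vx c} (h : App m a f u) (h' : App m b g v) :
    App m (a + b) (f * g) (u * v) := by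
  refine ⟨h.wh.mul h'.wh, ?_⟩
  have e : f * g - u * v = (f - u) * g + u * (g - v) := by ring
  rw [e]
  refine ((h.ge.mul h'.low).mono (by omega)).add (((ge_of_wh h.wh).mul h'.ge).mono (by omega))

theorem App.pow {a : ℕ} {f u : Vx c} (h : App m a f u) (j : ℕ) : App m (j * a) (f ^ j) (u ^ j) := by
  induction j with
  | zero =>
    rw [zero_mul, pow_zero, pow_zero]
    refine ⟨isWeightedHomogeneous_one _ _, ?_⟩
    rw [sub_self]
    exact Ge.zero _
  | succ j ih =>
    rw [pow_succ, pow_succ, Nat.succ_mul]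
    exact ih.mul h

theorem App.of_ge {a : ℕ} {f : Vx c} (h : Ge m a f) :
    App m a f (weightedHomogeneousComponent m a f) := by
  classical
  refine ⟨weightedHomogeneousComponent_isWeightedHomogeneous _ _, fun d hd => ?_⟩
  rw [coeff_sub, coeff_weightedHomogeneousComponent] at hd
  split_ifs at hd with h1
  · exact absurd (sub_self _) hd
  · rw [sub_zero] at hd
    have := h d hd
    omega

theorem App.eq_zero {a : ℕ} {f u : Vx c} (h : App m a f u) (h' : Ge m (a + 1) f) : u = 0 := by
  refine wh_eq_zero h.wh ?_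
  have := h'.add h.ge.neg
  have e : f + -(f - u) = u := by ring
  rwa [e] at this

theorem hom_aeval (t : Fin c → Vx c) (ht : ∀ i, (t i).IsHomogeneous (m i)) (E : Vx c) (k : ℕ)
    (hE : E.IsWeightedHomogeneous m k) : (aeval t E).IsHomogeneous k := by
  rw [aeval_def, eval₂_eq']
  refine IsHomogeneous.sum _ _ _ fun d hd => ?_
  have h1 : (∏ i, t i ^ d i).IsHomogeneous (∑ i, m i * d i) :=
    IsHomogeneous.prod _ _ _ fun i _ => (ht i).pow (d i)
  have h2 : ∑ i, m i * d i = k := by
    have h3 := hE (mem_support_iff.1 hd)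
    rw [← h3, Finsupp.weight_apply,
      Finsupp.sum_fintype d (fun i r => r • m i) (fun i => zero_smul _ _)]
    exact Finset.sum_congr rfl fun i _ => by rw [smul_eq_mul, mul_comm]
  rw [h2] at h1
  have h4 : (C (coeff d E) : Vx c).IsHomogeneous 0 := isHomogeneous_C _ _
  have h5 := h4.mul h1
  rw [zero_add] at h5
  exact h5

/-- the contradiction -/
theorem contra {k : ℕ} (a : Fin c → Vx c)
    (h1 : ∀ (k : ℕ) (g : Vx c), g.IsWeightedHomogeneous m k → Ge m (k + 1) (aeval a g - g))
    (w D : ℕ) (G : ℕ → Vx c) (hG0 : G 0 ≠ 0) (hGD : G D ≠ 0)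
    (hwh : ∀ j, j * k ≤ w → (G j).IsWeightedHomogeneous m (w - j * k))
    (hz : ∀ j, w < j * k → G j = 0) (ξ : Vx c)
    (hξ : weightedHomogeneousComponent m k ξ = 0)
    (hrel : ∑ j ∈ Finset.range (D + 1), aeval a (G j) * ξ ^ j = 0) (hD : D ≠ 0) : False := by
  have happ : ∀ j, j * k ≤ w → App m (w - j * k) (aeval a (G j)) (G j) :=
    fun j hj => ⟨hwh j hj, h1 _ _ (hwh j hj)⟩
  by_cases hge : Ge m (k + 1) ξ
  · -- all weights of `ξ` are larger than `k`
    rw [Finset.sum_range_succ'] at hrel
    have h2 : Ge m (w + 1) (∑ j ∈ Finset.range D, aeval a (G (j + 1)) * ξ ^ (j + 1)) := by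
      refine Ge.sum fun j _ => ?_
      by_cases hj : (j + 1) * k ≤ w
      · have h3 := (happ (j + 1) hj).low.mul (((App.of_ge hge).pow (j + 1)).low)
        refine h3.mono ?_
        have e : (j + 1) * (k + 1) = (j + 1) * k + (j + 1) := by ring
        rw [e]
        omega
      · rw [hz (j + 1) (not_le.1 hj), map_zero, zero_mul]
        exact Ge.zero _
    have h3 := happ 0 (by omega)
    rw [zero_mul, Nat.sub_zero] at h3
    refine hG0 (h3.eq_zero ?_)
    rw [pow_zero, mul_one] at hrel
    have h4 : aeval a (G 0) = -∑ j ∈ Finset.range D, aeval a (G (j + 1)) * ξ ^ (j + 1) := by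
      rw [eq_neg_iff_add_eq_zero, add_comm]
      exact hrel
    rw [h4]
    exact h2.neg
  · -- the least weight of `ξ`
    have hex : ∃ κ, ∃ d, coeff d ξ ≠ 0 ∧ Finsupp.weight m d = κ := by
      by_contra hcon
      apply hge
      intro d hd
      exact absurd ⟨_, d, hd, rfl⟩ hcon
    classical
    set κ := Nat.find hex with hκ
    obtain ⟨d₀, hd₀, hdκ⟩ := Nat.find_spec hex
    have hgeκ : Ge m κ ξ := fun d hd => Nat.find_min' hex ⟨d, hd, rfl⟩
    have hκk : κ < k := by
      by_contra hcon
      apply hge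
      intro d hd
      have h2 := hgeκ d hd
      have h3 : Finsupp.weight m d ≠ k := by
        intro h4
        apply hd
        have h5 := congrArg (coeff d) hξ
        rw [coeff_weightedHomogeneousComponent, if_pos h4, coeff_zero] at h5
        exact h5
      omega
    have hu : weightedHomogeneousComponent m κ ξ ≠ 0 := by
      intro h
      apply hd₀
      have h5 := congrArg (coeff d₀) h
      rw [coeff_weightedHomogeneousComponent, if_pos hdκ, coeff_zero] at h5
      exact h5
    have hDk : D * k ≤ w := by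
      by_contra hcon
      exact hGD (hz D (not_le.1 hcon))
    have hT := (happ D hDk).mul ((App.of_ge hgeκ).pow D)
    have h0 := hT.eq_zero (by
      rw [Finset.sum_range_succ] at hrel
      have h4 : aeval a (G D) * ξ ^ D = -∑ j ∈ Finset.range D, aeval a (G j) * ξ ^ j := by
        rw [eq_neg_iff_add_eq_zero, add_comm]
        exact hrel
      rw [h4]
      refine Ge.neg (Ge.sum fun j hj => ?_)
      rw [Finset.mem_range] at hj
      have hjk : j * k ≤ w := (Nat.mul_le_mul_right k hj.le).trans hDk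
      have h5 := ((happ j hjk).mul ((App.of_ge hgeκ).pow j)).low
      refine h5.mono ?_
      obtain ⟨r, hr⟩ := Nat.exists_eq_add_of_lt hj
      obtain ⟨s, hs⟩ := Nat.exists_eq_add_of_lt hκk
      obtain ⟨w', hw'⟩ := Nat.exists_eq_add_of_le hDk
      have e1 : w - D * k = w' := by omega
      have e2 : w - j * k = w' + (r + 1) * k := by
        have : D * k = j * k + (r + 1) * k := by rw [hr]; ring
        omega
      rw [e1, e2]
      have e3 : D * κ = j * κ + (r + 1) * κ := by rw [hr]; ring
      have e4 : (r + 1) * k = (r + 1) * κ + (r + 1) * (s + 1) := by rw [hs]; ring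
      have e5 : 1 ≤ (r + 1) * (s + 1) := Nat.mul_pos (Nat.succ_pos r) (Nat.succ_pos s)
      omega)
    rcases mul_eq_zero.1 h0 with h | h
    · exact hGD h
    · exact hu (pow_eq_zero_iff hD |>.1 h)

end QPolAux

open QPolAux

theorem qPol (h1 : S_Wt) (h2 : S_New) (h3 : S_Ind) (h4 : S_Rel) : S_Pol := by
  intro n c A φ p m t hA hm ht h0 hli
  have hind := h3 n c m hm p (fun i => φ (t i)) h0 hli
  have hhom : ∀ (θ : Vx c) (k : ℕ), θ ∈ A → θ.IsHomogeneous k →
      θ ∈ Algebra.adjoin ℂ (Set.range fun i => (t i : Vx c)) := by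
    intro θ k hθ hθk
    obtain ⟨Γ, hΓ1, hΓ2⟩ := h2 n c m hm p (fun i => φ (t i)) h0 hli (∑ i, m i)
    let ψ : A →ₐ[ℂ] Vx c := (aeval Γ).comp φ
    have ha : ∀ i, Hi m (m i) (ψ (t i) - X i) := by
      intro i
      rw [hi_iff]
      refine (hi_iff.1 (hΓ2 i)).mono ?_
      exact Nat.succ_le_succ (Finset.single_le_sum (f := m) (fun _ _ => Nat.zero_le _) (Finset.mem_univ i))
    have hwt : ∀ (k : ℕ) (g : Vx c), g.IsWeightedHomogeneous m k →
        Ge m (k + 1) (aeval (fun i => ψ (t i)) g - g) :=
      fun k g hg => hi_iff.1 (h1 c m _ ha k g hg)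
    have hψ : ∀ g : Vx c, ψ (aeval t g) = aeval (fun i => ψ (t i)) g := fun g => comp_aeval_apply t ψ g
    have hco : ∀ g : Vx c, ((aeval t g : A) : Vx c) = aeval (fun i => (t i : Vx c)) g :=
      fun g => comp_aeval_apply t A.val g
    set E : Vx c := weightedHomogeneousComponent m k (ψ ⟨θ, hθ⟩) with hEdef
    have hE : E.IsWeightedHomogeneous m k := weightedHomogeneousComponent_isWeightedHomogeneous _ _
    have hb0 : ((⟨θ, hθ⟩ - aeval t E : A) : Vx c) = θ - aeval (fun i => (t i : Vx c)) E := by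
      rw [← hco]
      rfl
    have hmemE : aeval (fun i => (t i : Vx c)) E ∈ Algebra.adjoin ℂ (Set.range fun i => (t i : Vx c)) := by
      rw [Algebra.adjoin_range_eq_range_aeval]
      exact ⟨E, rfl⟩
    by_cases hb : ((⟨θ, hθ⟩ - aeval t E : A) : Vx c) = 0
    · rw [hb0, sub_eq_zero] at hb
      rw [hb]
      exact hmemE
    · exfalso
      have hbhom : ((⟨θ, hθ⟩ - aeval t E : A) : Vx c).IsHomogeneous k := by
        rw [hb0]
        exact hθk.sub (hom_aeval _ ht E k hE)
      obtain ⟨w, D, G, hG0, hGD, hGgt, hGwh, hGz, hrel⟩ :=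
        h4 c m (fun i => (t i : Vx c)) ht _ k hbhom hb
      have hrelA : (∑ j ∈ Finset.range (D + 1), aeval t (G j) * (⟨θ, hθ⟩ - aeval t E : A) ^ j : A) = 0 := by
        apply Subtype.ext
        change A.val _ = A.val 0
        rw [map_sum, map_zero, ← hrel]
        refine Finset.sum_congr rfl fun j _ => ?_
        rw [map_mul, map_pow, ← hco]
        rfl
      have hrelV := congrArg ψ hrelA
      rw [map_sum, map_zero] at hrelV
      simp only [map_mul, map_pow, hψ] at hrelV
      refine contra (fun i => ψ (t i)) hwt w D G hG0 hGD hGwh hGz _ ?_ hrelV ?_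
      · rw [map_sub ψ, hψ, map_sub, ← hEdef, sub_eq_zero]
        have h5 : weightedHomogeneousComponent m k (aeval (fun i => ψ (t i)) E - E) = 0 := by
          have h6 := App.of_ge ((hwt k E hE).mono (Nat.le_succ k))
          exact h6.eq_zero (hwt k E hE)
        rw [map_sub, sub_eq_zero] at h5
        rw [h5]
        exact hE.weightedHomogeneousComponent_same.symm
      · rintro rfl
        simp only [zero_add, Finset.sum_range_one, pow_zero, mul_one] at hrelA
        have h5 := congrArg φ hrelA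
        rw [map_zero, comp_aeval_apply] at h5
        exact hG0 (hind.eq_zero_of_aeval_eq_zero _ h5)
  intro a ha
  rw [← sum_homogeneousComponent a]
  exact Subalgebra.sum_mem _ fun k _ => hhom _ k (hA a ha k) (homogeneousComponent_isHomogeneous k a)

end Pool.Agent.GQ
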