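import Pool.Agent.Lib.MP_776403_ag.GQ.Spec

set_option autoImplicit false

namespace Pool.Agent.GQ

open MvPolynomial

theorem qPt (h1 : S_Nrm) (h2 : S_Fib) : S_Pt := by
  intro n c G _ I hD F hF
  obtain ⟨f, H, hf, hFH⟩ := h1 n c G I hD F hF
  obtain ⟨x, hx⟩ : ∃ x, eval x f ≠ 0 := by
    by_contra h
    push Not at h
    exact hf (MvPolynomial.funext fun x => by rw [h x, map_zero])
  obtain ⟨y, hy⟩ := (h2 n c G I hD).1 x
  refine ⟨x, y, hy, fun h0 => hx ?_⟩
  have h3 := hy _ hFH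
  rw [map_sub, map_mul, h0, zero_mul, zero_sub, neg_eq_zero, iX, eval_rename,
    Sum.elim_comp_inl] at h3
  exact h3

end Pool.Agent.GQ
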