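import Pool.Agent.Lib.MP_776403_ag.GQ.Spec

/-!
# Reduction of the degrees in `y`
-/

set_option autoImplicit false

namespace Pool.Agent.GQ

open MvPolynomial

noncomputable section

namespace QRedAux

variable {n c : ℕ}

/-- Monomials in `y`. -/
def ym (b : Fin c → ℕ) : Sx n c := ∏ j, X (Sum.inr j) ^ b j

/-- `F` has a reduced form of degree `k` modulo `I`. -/
def Q (I : Ideal (Sx n c)) (D k : ℕ) (F : Sx n c) : Prop :=
  ∃ p : (Fin c → Fin D) → Px n,
      (∀ α, (∑ j, (α j : ℕ)) ≤ k → (p α).IsHomogeneous (k - ∑ j, (α j : ℕ))) ∧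
      (∀ α, k < (∑ j, (α j : ℕ)) → p α = 0) ∧
      F - ∑ α, iX (p α) * ∏ j, X (Sum.inr j) ^ (α j : ℕ) ∈ I

theorem Q_congr {I : Ideal (Sx n c)} {D k : ℕ} {F F' : Sx n c} (h : F - F' ∈ I) (hF : Q I D k F') :
    Q I D k F := by
  obtain ⟨p, h1, h2, h3⟩ := hF
  refine ⟨p, h1, h2, ?_⟩
  have := I.add_mem h h3
  have e : F - F' + (F' - ∑ α, iX (p α) * ∏ j, X (Sum.inr j) ^ (α j : ℕ))
      = F - ∑ α, iX (p α) * ∏ j, X (Sum.inr j) ^ (α j : ℕ) := by ring
  rwa [e] at this

theorem Q_zero {I : Ideal (Sx n c)} {D k : ℕ} : Q I D k (0 : Sx n c) := by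
  refine ⟨fun _ => 0, fun α _ => isHomogeneous_zero _ _ _, fun α _ => rfl, ?_⟩
  simp

theorem Q_add {I : Ideal (Sx n c)} {D k : ℕ} {F F' : Sx n c} (h : Q I D k F) (h' : Q I D k F') :
    Q I D k (F + F') := by
  obtain ⟨p, h1, h2, h3⟩ := h
  obtain ⟨p', h1', h2', h3'⟩ := h'
  refine ⟨fun α => p α + p' α, fun α ha => (h1 α ha).add (h1' α ha),
    fun α ha => by beta_reduce; rw [h2 α ha, h2' α ha, add_zero], ?_⟩
  have := I.add_mem h3 h3'
  have e : F - ∑ α, iX (p α) * ∏ j, X (Sum.inr j) ^ (α j : ℕ)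
      + (F' - ∑ α, iX (p' α) * ∏ j, X (Sum.inr j) ^ (α j : ℕ))
      = F + F' - ∑ α, iX (p α + p' α) * ∏ j, X (Sum.inr j) ^ (α j : ℕ) := by
    have : (∑ α, iX (p α + p' α) * ∏ j, X (Sum.inr j) ^ (α j : ℕ) : Sx n c)
        = ∑ α, iX (p α) * ∏ j, X (Sum.inr j) ^ (α j : ℕ)
          + ∑ α, iX (p' α) * ∏ j, X (Sum.inr j) ^ (α j : ℕ) := by
      rw [← Finset.sum_add_distrib]
      refine Finset.sum_congr rfl fun α _ => ?_
      rw [map_add]; ring
    rw [this]; ring
  rwa [e] at this

theorem Q_sum {I : Ideal (Sx n c)} {D k : ℕ} {ι : Type*} (s : Finset ι) (F : ι → Sx n c)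
    (h : ∀ i ∈ s, Q I D k (F i)) : Q I D k (∑ i ∈ s, F i) := by
  classical
  induction s using Finset.induction_on with
  | empty => simpa using Q_zero
  | insert a s ha ih =>
    rw [Finset.sum_insert ha]
    exact Q_add (h a (Finset.mem_insert_self _ _))
      (ih fun i hi => h i (Finset.mem_insert_of_mem hi))

theorem Q_mul {I : Ideal (Sx n c)} {D k e : ℕ} {F : Sx n c} {f : Px n} (hf : f.IsHomogeneous e)
    (h : Q I D k F) : Q I D (e + k) (iX f * F) := by
  obtain ⟨p, h1, h2, h3⟩ := h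
  refine ⟨fun α => f * p α, fun α ha => ?_, fun α ha => ?_, ?_⟩
  · by_cases hk : (∑ j, (α j : ℕ)) ≤ k
    · have := hf.mul (h1 α hk)
      have e' : e + k - ∑ j, (α j : ℕ) = e + (k - ∑ j, (α j : ℕ)) := by omega
      rw [e']; exact this
    · beta_reduce; rw [h2 α (by omega), mul_zero]
      exact isHomogeneous_zero _ _ _
  · beta_reduce; rw [h2 α (by omega), mul_zero]
  · have := I.mul_mem_left (iX f) h3
    have e' : iX f * (F - ∑ α, iX (p α) * ∏ j, X (Sum.inr j) ^ (α j : ℕ))
        = iX f * F - ∑ α, iX (f * p α) * ∏ j, X (Sum.inr j) ^ (α j : ℕ) := by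
      rw [mul_sub, Finset.mul_sum]
      congr 1
      refine Finset.sum_congr rfl fun α _ => ?_
      rw [map_mul]; ring
    rwa [e'] at this

theorem ym_update (b : Fin c → ℕ) (j : Fin c) (m : ℕ) :
    (ym (b + Pi.single j m : Fin c → ℕ) : Sx n c) = ym b * X (Sum.inr j) ^ m := by
  classical
  unfold ym
  have : ∀ i, (X (Sum.inr i) ^ ((b + Pi.single j m : Fin c → ℕ) i) : Sx n c)
      = X (Sum.inr i) ^ b i * X (Sum.inr i) ^ ((Pi.single j m : Fin c → ℕ) i) := by
    intro i; rw [Pi.add_apply, pow_add]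
  rw [Finset.prod_congr rfl fun i _ => this i, Finset.prod_mul_distrib]
  congr 1
  rw [Finset.prod_eq_single j]
  · rw [Pi.single_eq_same]
  · intro i _ hi; rw [Pi.single_eq_of_ne hi, pow_zero]
  · intro h; exact absurd (Finset.mem_univ _) h

theorem sum_update (b : Fin c → ℕ) (j : Fin c) (m : ℕ) :
    ∑ i, (b + Pi.single j m : Fin c → ℕ) i = ∑ i, b i + m := by
  classical
  simp only [Pi.add_apply, Finset.sum_add_distrib]
  congr 1
  rw [Finset.sum_pi_single']
  simp

theorem Q_ym {I : Ideal (Sx n c)} {D : ℕ} (e : Fin c → Fin D → Px n)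
    (he : ∀ j i, (e j i).IsHomogeneous (D - (i : ℕ)))
    (hI : ∀ j, X (Sum.inr j) ^ D + ∑ i, iX (e j i) * X (Sum.inr j) ^ (i : ℕ) ∈ I) :
    ∀ (N : ℕ) (b : Fin c → ℕ), ∑ i, b i = N → Q I D N (ym b) := by
  classical
  intro N
  induction N using Nat.strong_induction_on with
  | _ N ih =>
    intro b hb
    by_cases hlt : ∀ j, b j < D
    · let α0 : Fin c → Fin D := fun j => ⟨b j, hlt j⟩
      have hα0 : ∑ j, (α0 j : ℕ) = N := hb
      refine ⟨fun α => if α = α0 then 1 else 0, fun α _ => ?_, fun α ha => ?_, ?_⟩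
      · by_cases h : α = α0
        · subst h
          beta_reduce
          rw [if_pos rfl, hα0, Nat.sub_self]
          exact isHomogeneous_one _ _
        · beta_reduce; rw [if_neg h]; exact isHomogeneous_zero _ _ _
      · by_cases h : α = α0
        · subst h; omega
        · beta_reduce; rw [if_neg h]
      · have : (∑ α, iX (if α = α0 then (1 : Px n) else 0)
            * ∏ j, X (Sum.inr j) ^ (α j : ℕ) : Sx n c) = ym b := by
          rw [Finset.sum_eq_single α0]
          · rw [if_pos rfl, map_one, one_mul]; rfl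
          · intro α _ h; rw [if_neg h, map_zero, zero_mul]
          · intro h; exact absurd (Finset.mem_univ _) h
        rw [this, sub_self]; exact I.zero_mem
    · push Not at hlt
      obtain ⟨j, hj⟩ := hlt
      -- b = b' + D e_j
      let b' : Fin c → ℕ := Function.update b j (b j - D)
      have hb' : b = b' + Pi.single j D := by
        funext i
        by_cases h : i = j
        · subst h; simp [b']; omega
        · simp [b', h]
      have hs : ∑ i, b' i + D = N := by rw [← sum_update b' j D, ← hb', hb]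
      have key : ym b - ∑ i : Fin D, iX (-(e j i)) * ym (b' + Pi.single j (i : ℕ)) ∈ I := by
        have h1 := I.mul_mem_left (ym b') (hI j)
        have e1 : (ym b' * (X (Sum.inr j) ^ D + ∑ i, iX (e j i) * X (Sum.inr j) ^ (i : ℕ)) : Sx n c)
            = ym b - ∑ i : Fin D, iX (-(e j i)) * ym (b' + Pi.single j (i : ℕ)) := by
          rw [hb', ym_update, mul_add, Finset.mul_sum, sub_eq_add_neg, ← Finset.sum_neg_distrib]
          congr 1
          refine Finset.sum_congr rfl fun i _ => ?_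
          rw [ym_update, map_neg]; ring
        rwa [e1] at h1
      refine Q_congr key (Q_sum _ _ fun i _ => ?_)
      have hi : (i : ℕ) < D := i.2
      have h2 := ih (∑ l, b' l + (i : ℕ)) (by omega) (b' + Pi.single j (i : ℕ)) (sum_update b' j _)
      have h3 := Q_mul (he j i).neg h2
      have h4 : D - (i : ℕ) + (∑ l, b' l + (i : ℕ)) = N := by omega
      rwa [h4] at h3

theorem Q_mono {I : Ideal (Sx n c)} {D : ℕ}
    (hy : ∀ (N : ℕ) (b : Fin c → ℕ), ∑ i, b i = N → Q I D N (ym b))
    (d : Fin (n + 1) ⊕ Fin c →₀ ℕ) (r : ℂ) : Q I D d.degree (monomial d r) := by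
  have e1 : (monomial d r : Sx n c)
      = iX (C r * ∏ i, X i ^ d (Sum.inl i)) * ym (fun j => d (Sum.inr j)) := by
    rw [monomial_eq, map_mul, Finsupp.prod_fintype _ _ (fun i => pow_zero _),
      Fintype.prod_sum_type, map_prod]
    simp only [iX, ym, map_pow, rename_X, rename_C, mul_assoc]
  have e2 : d.degree = ∑ i, d (Sum.inl i) + ∑ j, d (Sum.inr j) := by
    rw [Finsupp.degree_eq_sum, Fintype.sum_sum_type]
  rw [e1, e2]
  refine Q_mul ?_ (hy _ _ rfl)
  have h1 : (∏ i, X i ^ d (Sum.inl i) : Px n).IsHomogeneous (∑ i, d (Sum.inl i)) := by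
    refine IsHomogeneous.prod _ _ _ fun i _ => ?_
    exact isHomogeneous_X_pow _ _
  exact h1.C_mul r

theorem Q_hom {I : Ideal (Sx n c)} {D : ℕ}
    (hy : ∀ (N : ℕ) (b : Fin c → ℕ), ∑ i, b i = N → Q I D N (ym b))
    (k : ℕ) (F : Sx n c) (hF : F.IsHomogeneous k) : Q I D k F := by
  rw [F.as_sum]
  refine Q_sum _ _ fun d hd => ?_
  have h1 : d.degree = k := by
    by_contra h
    exact (mem_support_iff.mp hd) (hF.coeff_eq_zero h)
  rw [← h1]
  exact Q_mono hy d _

/-! ### The polynomials `∏ (T - g y_j)` -/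

theorem act_X (g : Gl c) (j : Fin c) : (act g (X (Sum.inr j)) : Sx n c) =
    ∑ k, C ((g : Matrix (Fin c) (Fin c) ℂ) j k) * X (Sum.inr k) := by
  simp [act]

theorem act_act (g h : Gl c) (j : Fin c) :
    (act g (act h (X (Sum.inr j))) : Sx n c) = act (h * g) (X (Sum.inr j)) := by
  rw [act_X, act_X, map_sum]
  simp only [map_mul, act_X, algHom_C, algebraMap_eq, Units.val_mul, Matrix.mul_apply, map_sum,
    Finset.sum_mul, Finset.mul_sum]
  rw [Finset.sum_comm]
  refine Finset.sum_congr rfl fun k _ => Finset.sum_congr rfl fun l _ => ?_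
  ring

theorem act_one (j : Fin c) : (act (1 : Gl c) (X (Sum.inr j)) : Sx n c) = X (Sum.inr j) := by
  classical
  rw [act_X]
  simp [Matrix.one_apply]

theorem act_hom (g : Gl c) (j : Fin c) : (act g (X (Sum.inr j)) : Sx n c).IsHomogeneous 1 := by
  rw [act_X]
  exact IsHomogeneous.sum _ _ _ fun k _ => isHomogeneous_C_mul_X _ _

theorem coeff_hom {ι : Type*} (s : Finset ι) (l : ι → Sx n c) (hl : ∀ i ∈ s, (l i).IsHomogeneous 1) :
    ∀ i, ((∏ a ∈ s, (Polynomial.X - Polynomial.C (l a))).coeff i).IsHomogeneous (s.card - i) := by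
  classical
  induction s using Finset.induction_on with
  | empty =>
    intro i
    rw [Finset.prod_empty, Polynomial.coeff_one, Finset.card_empty, Nat.zero_sub]
    split_ifs
    · exact isHomogeneous_one _ _
    · exact isHomogeneous_zero _ _ _
  | insert a s ha ih =>
    intro i
    have ih' := ih fun i hi => hl i (Finset.mem_insert_of_mem hi)
    have hdeg : (∏ a ∈ s, (Polynomial.X - Polynomial.C (l a))).natDegree = s.card := by
      rw [Polynomial.natDegree_finsetProd_X_sub_C_eq_card]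
    rw [Finset.prod_insert ha, Finset.card_insert_of_notMem ha, sub_mul, Polynomial.coeff_sub,
      Polynomial.coeff_C_mul]
    refine IsHomogeneous.sub ?_ ?_
    · cases i with
      | zero =>
        rw [Polynomial.coeff_X_mul_zero]; exact isHomogeneous_zero _ _ _
      | succ i =>
        rw [Polynomial.coeff_X_mul, Nat.add_sub_add_right]; exact ih' i
    · by_cases hi : i ≤ s.card
      · have := (hl a (Finset.mem_insert_self _ _)).mul (ih' i)
        have e : s.card + 1 - i = 1 + (s.card - i) := by omega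
        rw [e]; exact this
      · rw [Polynomial.coeff_eq_zero_of_natDegree_lt (by omega), mul_zero]
        exact isHomogeneous_zero _ _ _

theorem exists_e (G : Subgroup (Gl c)) [Fintype G] (I : Ideal (Sx n c)) (hd : Dat n c G I)
    (j : Fin c) : ∃ e : Fin (Fintype.card G) → Px n,
      (∀ i, (e i).IsHomogeneous (Fintype.card G - (i : ℕ))) ∧
      X (Sum.inr j) ^ (Fintype.card G) + ∑ i, iX (e i) * X (Sum.inr j) ^ (i : ℕ) ∈ I := by
  classical
  set P : Polynomial (Sx n c) := ∏ g : G, (Polynomial.X - Polynomial.C (act (g : Gl c) (X (Sum.inr j))))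
    with hP
  have hmon : P.Monic := Polynomial.monic_prod_X_sub_C _ _
  have hdeg : P.natDegree = Fintype.card G := by
    rw [hP, Polynomial.natDegree_finsetProd_X_sub_C_eq_card, Finset.card_univ]
  have hinv : ∀ g ∈ G, ∀ i, act g (P.coeff i) = P.coeff i := by
    intro g hg i
    have h1 : P.map (act g : Sx n c →ₐ[ℂ] Sx n c).toRingHom = P := by
      rw [hP, Polynomial.map_prod]
      simp only [Polynomial.map_sub, Polynomial.map_X, Polynomial.map_C]
      refine Fintype.prod_equiv (Equiv.mulRight (⟨g, hg⟩ : G)) _ _ fun h => ?_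
      have h2 : (act g (act (h : Gl c) (X (Sum.inr j))) : Sx n c)
          = act (((Equiv.mulRight (⟨g, hg⟩ : G)) h : G) : Gl c) (X (Sum.inr j)) := act_act g h j
      rw [← h2]
      rfl
    conv_rhs => rw [← h1]
    rw [Polynomial.coeff_map]
    rfl
  have hhom : ∀ i, (P.coeff i).IsHomogeneous (Fintype.card G - i) := by
    intro i
    have := coeff_hom (Finset.univ : Finset G) (fun g => (act (g : Gl c) (X (Sum.inr j)) : Sx n c))
      (fun g _ => act_hom _ _) i
    rwa [Finset.card_univ] at this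
  have hex : ∀ i : Fin (Fintype.card G), ∃ f : Px n, f.IsHomogeneous (Fintype.card G - (i : ℕ)) ∧
      P.coeff (i : ℕ) - iX f ∈ I := by
    intro i
    obtain ⟨f, hf⟩ := hd.quot (P.coeff (i : ℕ)) fun g hg => by
      rw [hinv g hg, sub_self]; exact I.zero_mem
    refine ⟨homogeneousComponent (Fintype.card G - (i : ℕ)) f,
      homogeneousComponent_isHomogeneous _ _, ?_⟩
    have h2 := hd.homog _ hf (Fintype.card G - (i : ℕ))
    rw [map_sub, homogeneousComponent_eq_self (hhom i)] at h2
    have h3 : homogeneousComponent (Fintype.card G - (i : ℕ)) (iX f : Sx n c)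
        = iX (homogeneousComponent (Fintype.card G - (i : ℕ)) f) := by
      unfold iX
      rw [rename_homogeneousComponent]
    rwa [h3] at h2
  choose e he1 he2 using hex
  refine ⟨e, he1, ?_⟩
  have hroot : P.eval (X (Sum.inr j)) = 0 := by
    rw [hP, Polynomial.eval_prod]
    refine Finset.prod_eq_zero (Finset.mem_univ (1 : G)) ?_
    rw [Polynomial.eval_sub, Polynomial.eval_X, Polynomial.eval_C]
    rw [show ((1 : G) : Gl c) = 1 from rfl, act_one, sub_self]
  rw [Polynomial.eval_eq_sum_range, hdeg, Finset.sum_range_succ] at hroot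
  have hlead : P.coeff (Fintype.card G) = 1 := by rw [← hdeg]; exact hmon
  rw [hlead, one_mul, Finset.sum_range] at hroot
  have h4 : (∑ i : Fin (Fintype.card G), (P.coeff (i : ℕ) - iX (e i)) * X (Sum.inr j) ^ (i : ℕ)) ∈ I :=
    I.sum_mem fun i _ => I.mul_mem_right _ (he2 i)
  have h5 : X (Sum.inr j) ^ (Fintype.card G) + ∑ i, iX (e i) * X (Sum.inr j) ^ (i : ℕ)
      = -(∑ i : Fin (Fintype.card G), (P.coeff (i : ℕ) - iX (e i)) * X (Sum.inr j) ^ (i : ℕ)) := by
    have h6 : (X (Sum.inr j) ^ (Fintype.card G) : Sx n c)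
        = -(∑ i : Fin (Fintype.card G), P.coeff (i : ℕ) * X (Sum.inr j) ^ (i : ℕ)) := by
      linear_combination hroot
    rw [h6]
    simp only [sub_mul, Finset.sum_sub_distrib]
    ring
  rw [h5]
  exact I.neg_mem h4

end QRedAux

open QRedAux in
theorem qRed : S_Red := by
  intro n c G hG I hd
  let _ : Fintype G := Fintype.ofFinite G
  have hex := exists_e G I hd
  choose e he1 he2 using hex
  refine ⟨Fintype.card G, Fintype.card_pos, fun k F hF => ?_⟩
  exact Q_hom (Q_ym e he1 he2) k F hF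

end

end Pool.Agent.GQ
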