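import Pool.Agent.Lib.MP_776403_ag.GQ.Spec

set_option autoImplicit false

namespace Pool.Agent.GQ

open MvPolynomial Filter Topology

namespace QSecAux

/-- The coordinate `y_i` as a continuous linear form. -/
noncomputable def pr {σ : Type} (i : σ) : (σ → ℂ) →L[ℂ] ℂ := ContinuousLinearMap.proj i

theorem z0 {σ : Type} (i : σ) : (0 : ℂ) • pr i = 0 := zero_smul ℂ (pr i)

theorem o1 {σ : Type} (i : σ) : (1 : ℂ) • pr i = pr i := one_smul ℂ (pr i)

theorem addS {σ : Type} (i : σ) (a b : ℂ) : (a + b) • pr i = a • pr i + b • pr i :=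
  add_smul a b (pr i)

theorem ms {σ : Type} (i : σ) (a b : ℂ) : (a * b) • pr i = a • (b • pr i) := mul_smul a b (pr i)

theorem hasStrictFDerivAt_eval {σ : Type} [Fintype σ] [DecidableEq σ] (f : MvPolynomial σ ℂ)
    (b : σ → ℂ) :
    HasStrictFDerivAt (fun y : σ → ℂ => eval y f) (∑ i, eval b (pderiv i f) • pr i) b := by
  induction f using MvPolynomial.induction_on with
  | C a =>
    have h := hasStrictFDerivAt_const (𝕜 := ℂ) a b
    have e : (∑ i, eval b (pderiv i (C a : MvPolynomial σ ℂ)) • pr i) = 0 := by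
      refine Finset.sum_eq_zero fun i _ => ?_
      rw [pderiv_C, map_zero, z0]
    rw [e]
    have e2 : (fun y : σ → ℂ => eval y (C a)) = (fun _ => a) := by
      funext y; rw [eval_C]
    rw [e2]
    exact h
  | add p q hp hq =>
    have h := hp.add hq
    have e : (∑ i, eval b (pderiv i (p + q)) • pr i)
        = (∑ i, eval b (pderiv i p) • pr i) + ∑ i, eval b (pderiv i q) • pr i := by
      rw [← Finset.sum_add_distrib]
      refine Finset.sum_congr rfl fun i _ => ?_
      rw [map_add, map_add, addS]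
    rw [e]
    have e2 : (fun y : σ → ℂ => eval y (p + q)) = (fun y => eval y p + eval y q) := by
      funext y; rw [map_add]
    rw [e2]
    exact h
  | mul_X p i hp =>
    have h1 : HasStrictFDerivAt (fun y : σ → ℂ => y i) (pr i) b := (pr i).hasStrictFDerivAt
    have h := hp.mul h1
    have e : (∑ k, eval b (pderiv k (p * X i)) • pr k)
        = eval b p • pr i + b i • ∑ k, eval b (pderiv k p) • pr k := by
      have e3 : ∀ k, eval b (pderiv k (p * X i)) • pr k
          = (if k = i then eval b p • pr i else 0) + b i • (eval b (pderiv k p) • pr k) := by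
        intro k
        rw [Derivation.leibniz, pderiv_X, smul_eq_mul, smul_eq_mul, map_add, map_mul, map_mul,
          eval_X, addS, ms k (b i)]
        congr 1
        by_cases hk : k = i
        · subst hk
          rw [if_pos rfl, Pi.single_eq_same, map_one, mul_one]
        · rw [if_neg hk, Pi.single_eq_of_ne (fun h => hk h.symm), map_zero, mul_zero, z0]
      rw [Finset.sum_congr rfl fun k _ => e3 k, Finset.sum_add_distrib, Finset.smul_sum,
        Finset.sum_ite_eq' Finset.univ i, if_pos (Finset.mem_univ _)]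
    rw [e]
    have e2 : (fun y : σ → ℂ => eval y (p * X i)) = (fun y => eval y p * y i) := by
      funext y; rw [map_mul, eval_X]
    rw [e2]
    exact h

theorem onX_lim {n c : ℕ} (I : Ideal (Sx n c)) (x : ℕ → Fin (n + 1) → ℂ) (y : ℕ → Fin c → ℂ)
    (o : Fin (n + 1) → ℂ) (b : Fin c → ℂ) (hx : Tendsto x atTop (𝓝 o))
    (hy : Tendsto y atTop (𝓝 b)) (h : ∀ k, OnX I (x k) (y k)) : OnX I o b := by
  intro F hF
  have h2 : Tendsto (fun k => Sum.elim (x k) (y k)) atTop (𝓝 (Sum.elim o b)) := by
    rw [tendsto_pi_nhds]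
    rintro (i | i)
    · exact (tendsto_pi_nhds.1 hx) i
    · exact (tendsto_pi_nhds.1 hy) i
  have h1 : Tendsto (fun k => eval (Sum.elim (x k) (y k)) F) atTop
      (𝓝 (eval (Sum.elim o b) F)) :=
    ((MvPolynomial.continuous_eval F).tendsto (Sum.elim o b)).comp h2
  have h4 : Tendsto (fun k => eval (Sum.elim (x k) (y k)) F) atTop (𝓝 0) := by
    have e : (fun k => eval (Sum.elim (x k) (y k)) F) = fun _ => (0 : ℂ) := by
      funext k
      exact h k F hF
    rw [e]
    exact tendsto_const_nhds
  exact tendsto_nhds_unique h1 h4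

end QSecAux

open QSecAux in
theorem qSec (h1 : S_Dif) (h2 : S_Fib) (h3 : S_Phi) : S_Sec := by
  intro n c G _ I hD o b hob hst
  obtain ⟨-, fb, fc, fd, -⟩ := h2 n c G I hD
  obtain ⟨φ, hφ, -⟩ := h3 n c G I hD
  have ht := fun j : Fin c => h1 c G b hst (Pi.single j 1)
  choose t htG ht1 using ht
  -- the map
  set Θ : (Fin c → ℂ) → (Fin c → ℂ) := fun y j => eval y (t j) with hΘ
  set h : (Fin (n + 1) → ℂ) → (Fin c → ℂ) := fun x j => eval x (φ ⟨t j, htG j⟩) with hh
  have key : ∀ x y, OnX I x y → Θ y = h x := by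
    intro x y hxy
    funext j
    have e := hxy _ (hφ ⟨t j, htG j⟩)
    rw [map_sub, iY, iX, eval_rename, eval_rename, Sum.elim_comp_inr, Sum.elim_comp_inl,
      sub_eq_zero] at e
    exact e
  have hs : HasStrictFDerivAt Θ
      ((ContinuousLinearEquiv.refl ℂ (Fin c → ℂ) : (Fin c → ℂ) ≃L[ℂ] (Fin c → ℂ)) :
        (Fin c → ℂ) →L[ℂ] (Fin c → ℂ)) b := by
    rw [hasStrictFDerivAt_pi']
    intro j
    have e := hasStrictFDerivAt_eval (t j) b
    have e2 : (∑ i, eval b (pderiv i (t j)) • pr i)
        = (ContinuousLinearMap.proj j : (Fin c → ℂ) →L[ℂ] ℂ).comp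
          ((ContinuousLinearEquiv.refl ℂ (Fin c → ℂ) : (Fin c → ℂ) ≃L[ℂ] (Fin c → ℂ)) :
            (Fin c → ℂ) →L[ℂ] (Fin c → ℂ)) := by
      have e3 : ∀ i, eval b (pderiv i (t j)) • pr i = if i = j then pr i else 0 := by
        intro i
        rw [ht1]
        by_cases hk : i = j
        · subst hk
          rw [if_pos rfl, Pi.single_eq_same, o1]
        · rw [if_neg hk, Pi.single_eq_of_ne hk, z0]
      rw [Finset.sum_congr rfl fun k _ => e3 k, Finset.sum_ite_eq' Finset.univ j,
        if_pos (Finset.mem_univ _)]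
      rfl
    rw [e2] at e
    exact e
  have hcont : Continuous h := continuous_pi fun j => MvPolynomial.continuous_eval _
  have hdiff : DifferentiableAt ℂ h o := by
    rw [differentiableAt_pi]
    intro j
    exact (hasStrictFDerivAt_eval (φ ⟨t j, htG j⟩) o).hasFDerivAt.differentiableAt
  have hob2 : Θ b = h o := key o b hob
  have hΨd := hs.to_localInverse
  have hΨl := hs.eventually_left_inverse
  have hΨb := hs.localInverse_apply_image
  set Ψ := hs.localInverse Θ _ b with hΨ
  have hΨc : ∀ᶠ z in 𝓝 (Θ b), ContinuousAt Ψ z := by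
    have hm := hs.image_mem_toOpenPartialHomeomorph_target
    have ho := (hs.toOpenPartialHomeomorph Θ).open_target
    filter_upwards [ho.mem_nhds hm] with z hz
    exact (hs.toOpenPartialHomeomorph Θ).continuousAt_symm hz
  refine ⟨fun x => Ψ (h x), ?_, ?_, ?_⟩
  · have e1 : DifferentiableAt ℂ Ψ (h o) := by
      rw [← hob2]
      exact hΨd.hasFDerivAt.differentiableAt
    exact e1.comp o hdiff
  · show Ψ (h o) = b
    rw [← hob2]
    exact hΨb
  · refine Filter.Eventually.and ?_ ?_
    · rw [hob2] at hΨc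
      have e := hcont.continuousAt.eventually hΨc
      filter_upwards [e] with x hx
      exact ContinuousAt.comp (f := h) (g := Ψ) hx hcont.continuousAt
    · by_contra hcon
      rw [Filter.not_eventually] at hcon
      obtain ⟨x, hx, hxn⟩ := Filter.exists_seq_forall_of_frequently hcon
      obtain ⟨fa, -, -, -, -⟩ := h2 n c G I hD
      choose y hy using fun k => fa (x k)
      obtain ⟨B, hB⟩ := fd (‖o‖ + 1)
      have hxb : ∀ᶠ k in atTop, y k ∈ Metric.closedBall (0 : Fin c → ℂ) B := by
        have e : ∀ᶠ k in atTop, ‖x k‖ < ‖o‖ + 1 :=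
          (hx.norm).eventually (gt_mem_nhds (lt_add_one _))
        filter_upwards [e] with k hk
        rw [mem_closedBall_zero_iff]
        exact hB (x k) (y k) hk.le (hy k)
      obtain ⟨y', -, ψ, hψ, hlim⟩ := tendsto_subseq_of_frequently_bounded
        (Metric.isBounded_closedBall) hxb.frequently
      have hxψ : Tendsto (x ∘ ψ) atTop (𝓝 o) := hx.comp hψ.tendsto_atTop
      have hoy : OnX I o y' := onX_lim I (x ∘ ψ) (y ∘ ψ) o y' hxψ hlim fun k => hy (ψ k)
      obtain ⟨g, hg, hgy⟩ := fb o b y' hob hoy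
      have hcm : Continuous fun v : Fin c → ℂ =>
          (((g⁻¹ : Gl c) : Gl c) : Matrix (Fin c) (Fin c) ℂ).mulVec v :=
        Continuous.matrix_mulVec continuous_const continuous_id
      have hgb : (((g⁻¹ : Gl c) : Gl c) : Matrix (Fin c) (Fin c) ℂ).mulVec y' = b := by
        rw [hgy, Matrix.mulVec_mulVec, ← Units.val_mul, inv_mul_cancel, Units.val_one,
          Matrix.one_mulVec]
      have hlim2 : Tendsto (fun k => (((g⁻¹ : Gl c) : Gl c) : Matrix (Fin c) (Fin c) ℂ).mulVec
          ((y ∘ ψ) k)) atTop (𝓝 b) := by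
        have e := (hcm.tendsto y').comp hlim
        rw [hgb] at e
        exact e
      obtain ⟨k, hk⟩ := (hlim2.eventually hΨl).exists
      have hon := fc g⁻¹ (G.inv_mem hg) (x (ψ k)) (y (ψ k)) (hy (ψ k))
      have e3 := key _ _ hon
      apply hxn (ψ k)
      have e4 : Ψ (h (x (ψ k))) =
          (((g⁻¹ : Gl c) : Gl c) : Matrix (Fin c) (Fin c) ℂ).mulVec (y (ψ k)) := by
        rw [← e3]
        exact hk
      show OnX I (x (ψ k)) (Ψ (h (x (ψ k))))
      rw [e4]
      exact hon

end Pool.Agent.GQ
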