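import Pool.Agent.Lib.MP_776403_ag.GQ.Spec

/-!
# Block Spa: gradients at a fixed point
-/

set_option autoImplicit false

namespace Pool.Agent.GQ

open MvPolynomial

noncomputable section

namespace QSpaAux

variable {n c : ℕ}

theorem act_inl (g : Gl c) (i : Fin (n + 1)) :
    act g (X (Sum.inl i) : Sx n c) = X (Sum.inl i) := by
  unfold act
  rw [aeval_X, Sum.elim_inl]

theorem act_inr (g : Gl c) (j : Fin c) :
    act g (X (Sum.inr j) : Sx n c) =
      ∑ k, C ((g : Matrix (Fin c) (Fin c) ℂ) j k) * X (Sum.inr k) := by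
  unfold act
  rw [aeval_X, Sum.elim_inr]

theorem act_C (g : Gl c) (a : ℂ) : act g (C a : Sx n c) = C a := (act g).commutes a

theorem actV_X (g : Gl c) (j : Fin c) :
    actV g (X j) = ∑ k, C ((g : Matrix (Fin c) (Fin c) ℂ) j k) * X k := by
  unfold actV
  rw [aeval_X]

theorem actV_C (g : Gl c) (a : ℂ) : actV g (C a) = C a := (actV g).commutes a

theorem act_iX (g : Gl c) (f : Px n) : act g (iX f : Sx n c) = iX f := by
  have e : (act g).comp (iX : Px n →ₐ[ℂ] Sx n c) = iX := by
    refine MvPolynomial.algHom_ext fun i => ?_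
    rw [AlgHom.comp_apply]
    unfold iX
    rw [rename_X, act_inl]
  exact DFunLike.congr_fun e f

theorem act_iY (g : Gl c) (t : Vx c) : act g (iY t : Sx n c) = iY (actV g t) := by
  have e : (act g).comp (iY : Vx c →ₐ[ℂ] Sx n c) = iY.comp (actV g) := by
    refine MvPolynomial.algHom_ext fun j => ?_
    rw [AlgHom.comp_apply, AlgHom.comp_apply, actV_X, map_sum]
    unfold iY
    rw [rename_X, act_inr]
    refine Finset.sum_congr rfl fun k _ => ?_
    rw [map_mul, rename_C, rename_X]
  exact DFunLike.congr_fun e t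

theorem act_mul (g h : Gl c) (F : Sx n c) : act h (act g F) = act (g * h) F := by
  have e : (act h).comp (act g) = (act (g * h) : Sx n c →ₐ[ℂ] Sx n c) := by
    refine MvPolynomial.algHom_ext fun s => ?_
    rcases s with i | j
    · rw [AlgHom.comp_apply, act_inl, act_inl, act_inl]
    · rw [AlgHom.comp_apply, act_inr, act_inr, map_sum]
      have h1 : ∀ l, ((g * h : Gl c) : Matrix (Fin c) (Fin c) ℂ) j l =
          ∑ k, (g : Matrix (Fin c) (Fin c) ℂ) j k * (h : Matrix (Fin c) (Fin c) ℂ) k l :=
        fun l => rfl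
      have h2 : ∀ k, act h (C ((g : Matrix (Fin c) (Fin c) ℂ) j k) * X (Sum.inr k) : Sx n c) =
          ∑ l, C ((g : Matrix (Fin c) (Fin c) ℂ) j k * (h : Matrix (Fin c) (Fin c) ℂ) k l) *
            X (Sum.inr l) := by
        intro k
        rw [map_mul, act_C, act_inr, Finset.mul_sum]
        exact Finset.sum_congr rfl fun l _ => by rw [C_mul, mul_assoc]
      rw [Finset.sum_congr rfl fun k _ => h2 k, Finset.sum_comm]
      refine Finset.sum_congr rfl fun l _ => ?_
      rw [h1, map_sum, Finset.sum_mul]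
  exact DFunLike.congr_fun e F

/-- the values at the points with `y = 0` -/
theorem eval_act (g : Gl c) (x : Fin (n + 1) → ℂ) (F : Sx n c) :
    eval (Sum.elim x (0 : Fin c → ℂ)) (act g F) = eval (Sum.elim x (0 : Fin c → ℂ)) F := by
  induction F using MvPolynomial.induction_on with
  | C a => rw [act_C]
  | add p q hp hq => rw [map_add, map_add, map_add, hp, hq]
  | mul_X p s hp =>
    rw [map_mul, map_mul, map_mul, hp]
    congr 1
    rcases s with i | j
    · rw [act_inl]
    · rw [act_inr, map_sum, eval_X, Sum.elim_inr]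
      refine Finset.sum_eq_zero fun k _ => ?_
      rw [map_mul, eval_X, Sum.elim_inr, Pi.zero_apply, mul_zero]

/-- chain rule -/
theorem pderiv_act (g : Gl c) (k : Fin c) (F : Sx n c) :
    pderiv (Sum.inr k) (act g F) =
      ∑ j, act g (pderiv (Sum.inr j) F) * C ((g : Matrix (Fin c) (Fin c) ℂ) j k) := by
  classical
  induction F using MvPolynomial.induction_on with
  | C a =>
    rw [act_C, pderiv_C]
    refine (Finset.sum_eq_zero fun k _ => ?_).symm
    rw [pderiv_C, map_zero, zero_mul]
  | add p q hp hq =>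
    rw [map_add, map_add, hp, hq, ← Finset.sum_add_distrib]
    refine Finset.sum_congr rfl fun k _ => ?_
    rw [map_add, map_add, add_mul]
  | mul_X p s hp =>
    have e : pderiv (Sum.inr k) (act g (X s : Sx n c)) =
        ∑ j, act g (pderiv (Sum.inr j) (X s)) * C ((g : Matrix (Fin c) (Fin c) ℂ) j k) := by
      rcases s with i | l
      · rw [act_inl, pderiv_X_of_ne (by simp)]
        refine (Finset.sum_eq_zero fun j _ => ?_).symm
        rw [pderiv_X_of_ne (by simp), map_zero, zero_mul]
      · rw [act_inr, map_sum, Finset.sum_eq_single k, Finset.sum_eq_single l]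
        · rw [pderiv_C_mul, pderiv_X_self, pderiv_X_self, map_one, mul_one, one_mul]
        · intro j _ hj
          rw [pderiv_X_of_ne (fun h => hj (Sum.inr_injective h).symm), map_zero, zero_mul]
        · exact fun h => absurd (Finset.mem_univ l) h
        · intro j _ hj
          rw [pderiv_C_mul, pderiv_X_of_ne (fun h => hj (Sum.inr_injective h)), mul_zero]
        · exact fun h => absurd (Finset.mem_univ k) h
    rw [map_mul, pderiv_mul, hp, e, Finset.sum_mul, Finset.mul_sum, ← Finset.sum_add_distrib]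
    refine Finset.sum_congr rfl fun j _ => ?_
    rw [pderiv_mul, map_add, map_mul, map_mul]
    ring

theorem pderiv_iX (i : Fin (n + 1)) (f : Px n) :
    pderiv (Sum.inl i) (iX f : Sx n c) = iX (pderiv i f) := by
  unfold iX
  exact pderiv_rename Sum.inl_injective i f

theorem pderiv_iY (i : Fin (n + 1)) (t : Vx c) : pderiv (Sum.inl i) (iY t : Sx n c) = 0 := by
  induction t using MvPolynomial.induction_on with
  | C a =>
    unfold iY
    rw [rename_C, pderiv_C]
  | add p q hp hq => rw [map_add, map_add, hp, hq, add_zero]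
  | mul_X p j hp =>
    rw [map_mul, pderiv_mul, hp, zero_mul, zero_add]
    unfold iY
    rw [rename_X, pderiv_X_of_ne (by simp), mul_zero]

theorem eval_iX (x : Fin (n + 1) → ℂ) (y : Fin c → ℂ) (f : Px n) :
    eval (Sum.elim x y) (iX f : Sx n c) = eval x f := by
  unfold iX
  rw [eval_rename, Sum.elim_comp_inl]

theorem eval_iY (x : Fin (n + 1) → ℂ) (y : Fin c → ℂ) (t : Vx c) :
    eval (Sum.elim x y) (iY t : Sx n c) = eval y t := by
  unfold iY
  rw [eval_rename, Sum.elim_comp_inr]

/-- substitution `y = 0` -/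
def rs : Sx n c →ₐ[ℂ] Px n := aeval (Sum.elim X 0)

theorem eval_rs (x : Fin (n + 1) → ℂ) (F : Sx n c) :
    eval x (rs F) = eval (Sum.elim x (0 : Fin c → ℂ)) F := by
  induction F using MvPolynomial.induction_on with
  | C a =>
    have h : rs (C a : Sx n c) = C a := (rs : Sx n c →ₐ[ℂ] Px n).commutes a
    rw [h, eval_C, eval_C]
  | add p q hp hq => rw [map_add, map_add, map_add, hp, hq]
  | mul_X p s hp =>
    rw [map_mul, map_mul, map_mul, hp, eval_X]
    congr 1
    unfold rs
    rw [aeval_X]
    rcases s with i | j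
    · rw [Sum.elim_inl, Sum.elim_inl, eval_X]
    · rw [Sum.elim_inr, Sum.elim_inr, Pi.zero_apply, Pi.zero_apply, map_zero]

theorem pderiv_rs (i : Fin (n + 1)) (F : Sx n c) :
    pderiv i (rs F) = rs (pderiv (Sum.inl i) F) := by
  classical
  induction F using MvPolynomial.induction_on with
  | C a =>
    have h : rs (C a : Sx n c) = C a := (rs : Sx n c →ₐ[ℂ] Px n).commutes a
    rw [h, pderiv_C, pderiv_C, map_zero]
  | add p q hp hq => rw [map_add, map_add, map_add, map_add, hp, hq]
  | mul_X p s hp =>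
    have e : pderiv i (rs (X s : Sx n c)) = rs (pderiv (Sum.inl i) (X s)) := by
      have h1 : rs (X s : Sx n c) = Sum.elim X 0 s := by
        unfold rs
        rw [aeval_X]
      rw [h1]
      rcases s with l | j
      · rw [Sum.elim_inl, pderiv_X, pderiv_X]
        by_cases h : i = l
        · rw [h, Pi.single_eq_same, Pi.single_eq_same, map_one]
        · rw [Pi.single_eq_of_ne (fun h1 => h h1.symm),
            Pi.single_eq_of_ne (fun h1 => h (Sum.inl_injective h1).symm), map_zero]
      · rw [Sum.elim_inr, Pi.zero_apply, map_zero, pderiv_X_of_ne (by simp), map_zero]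
    rw [map_mul, pderiv_mul, pderiv_mul, map_add, map_mul, map_mul, hp, e]

/-- a polynomial that vanishes for `y = 0` has no `x`-gradient there -/
theorem grad_zero {H : Sx n c} (h : ∀ x : Fin (n + 1) → ℂ,
    eval (Sum.elim x (0 : Fin c → ℂ)) H = 0) (p : Fin (n + 1) → ℂ) (i : Fin (n + 1)) :
    eval (Sum.elim p (0 : Fin c → ℂ)) (pderiv (Sum.inl i) H) = 0 := by
  have h1 : rs H = 0 := MvPolynomial.funext fun x => by rw [eval_rs, h x, map_zero]
  rw [← eval_rs, ← pderiv_rs, h1, map_zero, map_zero]

/-- the average -/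
def avg (G : Subgroup (Gl c)) [Fintype G] (F : Sx n c) : Sx n c :=
  C ((Fintype.card G : ℂ)⁻¹) * ∑ g : G, act (g : Gl c) F

theorem avg_add (G : Subgroup (Gl c)) [Fintype G] (F F' : Sx n c) :
    avg G (F + F') = avg G F + avg G F' := by
  unfold avg
  rw [← mul_add, ← Finset.sum_add_distrib]
  congr 1
  exact Finset.sum_congr rfl fun g _ => map_add _ _ _

theorem avg_inv (G : Subgroup (Gl c)) [Fintype G] (F : Sx n c) {h : Gl c} (hh : h ∈ G) :
    act h (avg G F) = avg G F := by
  have h1 : ∑ g : G, act h (act (g : Gl c) F) = ∑ g : G, act (g : Gl c) F := by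
    refine Fintype.sum_equiv (Equiv.mulRight (⟨h, hh⟩ : G)) _ _ fun g => ?_
    rw [act_mul]
    rfl
  unfold avg
  rw [map_mul, act_C, map_sum, h1]

theorem eval_avg (G : Subgroup (Gl c)) [Fintype G] (F : Sx n c) (x : Fin (n + 1) → ℂ) :
    eval (Sum.elim x (0 : Fin c → ℂ)) (avg G F) = eval (Sum.elim x (0 : Fin c → ℂ)) F := by
  have h : ∀ g : G, eval (Sum.elim x (0 : Fin c → ℂ)) (act (g : Gl c) F) =
      eval (Sum.elim x (0 : Fin c → ℂ)) F := fun g => eval_act (g : Gl c) x F
  unfold avg
  rw [map_mul, eval_C, map_sum, Finset.sum_congr rfl (fun (g : G) _ => h g),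
    Finset.sum_const, Finset.card_univ, nsmul_eq_mul, ← mul_assoc, inv_mul_cancel₀, one_mul]
  exact Nat.cast_ne_zero.2 Fintype.card_ne_zero

theorem avg_mem {G : Subgroup (Gl c)} [Fintype G] {I : Ideal (Sx n c)} (D : Dat n c G I)
    {F : Sx n c} (hF : F ∈ I) : avg G F ∈ I := by
  unfold avg
  exact I.mul_mem_left _ (I.sum_mem fun g _ => D.stable g g.2 F hF)

/-- the average of a polynomial in `y` -/
def avgV (G : Subgroup (Gl c)) [Fintype G] (t : Vx c) : Vx c :=
  C ((Fintype.card G : ℂ)⁻¹) * ∑ g : G, actV (g : Gl c) t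

theorem actV_mul (g h : Gl c) (F : Vx c) : actV h (actV g F) = actV (g * h) F := by
  have e : (actV h).comp (actV g) = actV (g * h) := by
    refine MvPolynomial.algHom_ext fun j => ?_
    rw [AlgHom.comp_apply, actV_X, actV_X, map_sum]
    have h1 : ∀ l, ((g * h : Gl c) : Matrix (Fin c) (Fin c) ℂ) j l =
        ∑ k, (g : Matrix (Fin c) (Fin c) ℂ) j k * (h : Matrix (Fin c) (Fin c) ℂ) k l := fun l => rfl
    have h2 : ∀ k, actV h (C ((g : Matrix (Fin c) (Fin c) ℂ) j k) * X k) =
        ∑ l, C ((g : Matrix (Fin c) (Fin c) ℂ) j k * (h : Matrix (Fin c) (Fin c) ℂ) k l) * X l := by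
      intro k
      rw [map_mul, actV_C, actV_X, Finset.mul_sum]
      exact Finset.sum_congr rfl fun l _ => by rw [C_mul, mul_assoc]
    rw [Finset.sum_congr rfl fun k _ => h2 k, Finset.sum_comm]
    refine Finset.sum_congr rfl fun l _ => ?_
    rw [h1, map_sum, Finset.sum_mul]
  exact DFunLike.congr_fun e F

theorem avgV_inv (G : Subgroup (Gl c)) [Fintype G] (t : Vx c) : avgV G t ∈ invAlg G := by
  intro h hh
  have h1 : ∑ g : G, actV h (actV (g : Gl c) t) = ∑ g : G, actV (g : Gl c) t := by
    refine Fintype.sum_equiv (Equiv.mulRight (⟨h, hh⟩ : G)) _ _ fun g => ?_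
    rw [actV_mul]
    rfl
  unfold avgV
  rw [map_mul, actV_C, map_sum, h1]

theorem avg_prod (G : Subgroup (Gl c)) [Fintype G] (f : Px n) (t : Vx c) :
    avg G (iX f * iY t : Sx n c) = iX f * iY (avgV G t) := by
  have h1 : (iY (C ((Fintype.card G : ℂ)⁻¹)) : Sx n c) = C ((Fintype.card G : ℂ)⁻¹) := by
    unfold iY
    rw [rename_C]
  have h2 : ∑ g : G, act (g : Gl c) (iX f * iY t : Sx n c) =
      iX f * iY (∑ g : G, actV (g : Gl c) t) := by
    rw [map_sum, Finset.mul_sum]
    refine Finset.sum_congr rfl fun g _ => ?_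
    rw [map_mul, act_iX, act_iY]
  unfold avg avgV
  rw [h2, map_mul, h1, mul_left_comm]

theorem hom_actV (g : Gl c) {t : Vx c} {k : ℕ} (ht : t.IsHomogeneous k) :
    (actV g t).IsHomogeneous k := by
  have h1 : ∀ j : Fin c, (∑ k : Fin c, C ((g : Matrix (Fin c) (Fin c) ℂ) j k) * X k :
      Vx c).IsHomogeneous 1 := by
    intro j
    refine IsHomogeneous.sum Finset.univ _ _ fun k _ => ?_
    have := (isHomogeneous_C (Fin c) ((g : Matrix (Fin c) (Fin c) ℂ) j k)).mul
      (isHomogeneous_X ℂ k)
    rwa [zero_add] at this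
  have := ht.aeval _ h1
  rwa [one_mul] at this

theorem hom_avgV (G : Subgroup (Gl c)) [Fintype G] {t : Vx c} {k : ℕ} (ht : t.IsHomogeneous k) :
    (avgV G t).IsHomogeneous k := by
  unfold avgV
  have := (isHomogeneous_C (Fin c) ((Fintype.card G : ℂ)⁻¹)).mul
    (IsHomogeneous.sum Finset.univ (fun g : G => actV (g : Gl c) t) k fun g _ => hom_actV _ ht)
  rwa [zero_add] at this

/-- monomials -/
theorem mono (d : Fin (n + 1) ⊕ Fin c →₀ ℕ) : ∀ a : ℂ, ∃ (f : Px n) (t : Vx c) (k : ℕ),
    t.IsHomogeneous k ∧ (monomial d a : Sx n c) = iX f * iY t := by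
  induction d using Finsupp.induction_linear with
  | zero =>
    intro a
    refine ⟨C a, 1, 0, isHomogeneous_one _ _, ?_⟩
    unfold iX
    rw [map_one, mul_one, rename_C]
    rfl
  | add d e hd he =>
    intro a
    obtain ⟨f1, t1, k1, h1, h2⟩ := hd a
    obtain ⟨f2, t2, k2, h3, h4⟩ := he 1
    refine ⟨f1 * f2, t1 * t2, k1 + k2, h1.mul h3, ?_⟩
    have h5 : (monomial (d + e) a : Sx n c) = monomial d a * monomial e 1 := by
      rw [monomial_mul, mul_one]
    rw [h5, h2, h4, map_mul, map_mul]
    ring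
  | single s k =>
    intro a
    have h5 : (monomial (Finsupp.single s k) a : Sx n c) = C a * X s ^ k := by
      rw [C_mul_X_pow_eq_monomial]
    rw [h5]
    rcases s with i | j
    · refine ⟨C a * X i ^ k, 1, 0, isHomogeneous_one _ _, ?_⟩
      unfold iX
      rw [map_one, mul_one, map_mul, map_pow, rename_C, rename_X]
    · refine ⟨C a, X j ^ k, k, isHomogeneous_X_pow _ _, ?_⟩
      unfold iX iY
      rw [map_pow, rename_C, rename_X]

end QSpaAux

open QSpaAux

theorem qSpa (h1 : S_Fix) : S_Spa := by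
  classical
  intro n c G _ I D φ hφ p hp hy F hF
  have : Fintype G := Fintype.ofFinite G
  have hA : avg G F ∈ I := avg_mem D hF
  have hev : ∀ x : Fin (n + 1) → ℂ, eval (Sum.elim x (0 : Fin c → ℂ)) (F - avg G F) = 0 := by
    intro x
    rw [map_sub, eval_avg, sub_self]
  have hgy : ∀ j, eval (Sum.elim p (0 : Fin c → ℂ)) (pderiv (Sum.inr j) F) =
      eval (Sum.elim p (0 : Fin c → ℂ)) (pderiv (Sum.inr j) (avg G F)) := by
    intro j
    have := hy _ (I.sub_mem hF hA) hev j
    rwa [map_sub, map_sub, sub_eq_zero] at this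
  have hgx : ∀ i, eval (Sum.elim p (0 : Fin c → ℂ)) (pderiv (Sum.inl i) F) =
      eval (Sum.elim p (0 : Fin c → ℂ)) (pderiv (Sum.inl i) (avg G F)) := by
    intro i
    have := grad_zero hev p i
    rwa [map_sub, map_sub, sub_eq_zero] at this
  refine ⟨fun j => ?_, ?_⟩
  · have h2 := h1 n c G I D
      (fun j => eval (Sum.elim p (0 : Fin c → ℂ)) (pderiv (Sum.inr j) (avg G F)))
      (fun g hg k => by
        have h3 := pderiv_act g k (avg G F)
        rw [avg_inv G F hg] at h3
        rw [h3, map_sum]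
        refine Finset.sum_congr rfl fun j _ => ?_
        rw [map_mul, eval_act, eval_C])
    rw [hgy j]
    exact congrFun h2 j
  · simp only [hgx]
    set T := Submodule.span ℂ {u : Fin (n + 1) → ℂ | ∃ (t : invAlg G) (k : ℕ), 0 < k ∧
        (t : Vx c).IsHomogeneous k ∧ u = fun i => eval p (pderiv i (φ t))} with hT
    have key : ∀ F : Sx n c, ∃ (θ : Px n), avg G F - iX θ ∈ I ∧ ∃ u ∈ T, ∀ i,
        eval (Sum.elim p (0 : Fin c → ℂ)) (pderiv (Sum.inl i) (avg G F)) =
          eval p (pderiv i θ) - u i := by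
      intro F
      induction F using MvPolynomial.induction_on' with
      | monomial d a =>
        obtain ⟨f, t, k, ht, he⟩ := mono (n := n) (c := c) d a
        obtain ⟨R, hR⟩ : ∃ R : invAlg G, (R : Vx c) = avgV G t := ⟨⟨_, avgV_inv G t⟩, rfl⟩
        have hRk : (R : Vx c).IsHomogeneous k := hR ▸ hom_avgV G ht
        have hR0 : eval p (φ R) = eval (0 : Fin c → ℂ) (R : Vx c) := by
          have := hp _ (hφ R)
          rw [map_sub, eval_iX, eval_iY, sub_eq_zero] at this
          exact this.symm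
        refine ⟨f * φ R, ?_, eval p f • (fun i => eval p (pderiv i (φ R))), ?_, fun i => ?_⟩
        · rw [he, avg_prod, ← hR, map_mul, ← mul_sub]
          exact I.mul_mem_left _ (hφ R)
        · refine T.smul_mem _ ?_
          rcases Nat.eq_zero_or_pos k with hk | hk
          · have h3 : R = algebraMap ℂ (invAlg G) (coeff 0 (R : Vx c)) := by
              refine Subtype.ext ?_
              rw [hk] at hRk
              exact totalDegree_eq_zero_iff_eq_C.1 (Nat.le_zero.1 hRk.totalDegree_le)
            have h4 : (fun i => eval p (pderiv i (φ R))) = 0 := by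
              funext i
              rw [h3, AlgHom.commutes, algebraMap_eq, pderiv_C, map_zero, Pi.zero_apply]
            rw [h4]
            exact T.zero_mem
          · exact Submodule.subset_span ⟨R, k, hk, hRk, rfl⟩
        · rw [he, avg_prod, ← hR, pderiv_mul, pderiv_iX, pderiv_iY, mul_zero, add_zero, map_mul,
            eval_iX, eval_iY, pderiv_mul, map_add, map_mul, map_mul, hR0, Pi.smul_apply,
            smul_eq_mul]
          ring
      | add F1 F2 hF1 hF2 =>
        obtain ⟨θ1, h2, u1, h3, h4⟩ := hF1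
        obtain ⟨θ2, h5, u2, h6, h7⟩ := hF2
        refine ⟨θ1 + θ2, ?_, u1 + u2, T.add_mem h3 h6, fun i => ?_⟩
        · rw [avg_add, map_add]
          have := I.add_mem h2 h5
          have e : avg G F1 + avg G F2 - (iX θ1 + iX θ2) =
              avg G F1 - iX θ1 + (avg G F2 - iX θ2) := by ring
          rw [e]
          exact this
        · rw [avg_add, map_add, map_add, h4 i, h7 i, map_add, map_add, Pi.add_apply]
          ring
    obtain ⟨θ, h2, u, h3, h4⟩ := key F
    have h5 : iX θ ∈ I := by
      have := I.sub_mem hA h2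
      rwa [sub_sub_cancel] at this
    have h6 : θ = 0 := D.indep θ h5
    have h7 : (fun i => eval (Sum.elim p (0 : Fin c → ℂ)) (pderiv (Sum.inl i) (avg G F))) = -u := by
      funext i
      rw [h4 i, h6, map_zero, map_zero, zero_sub, Pi.neg_apply]
    rw [h7]
    exact T.neg_mem h3

end

end Pool.Agent.GQ
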