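import Pool.Agent.Lib.MP_776403_ag.GQ.Spec

/-!
# THEOREM GP, module Spl (helper26): choice of `c` invariants
-/

set_option autoImplicit false

namespace Pool.Agent.GQ

open MvPolynomial

namespace QSplAux

variable {n c : ℕ}

/-- `u ↦ (u, 0)` -/
def io (n c : ℕ) : (Fin (n + 1) → ℂ) →ₗ[ℂ] (Fin (n + 1) ⊕ Fin c → ℂ) where
  toFun u := Sum.elim u (0 : Fin c → ℂ)
  map_add' u v := by
    funext i
    rcases i with i | i
    · rfl
    · simp
  map_smul' r u := by
    funext i
    rcases i with i | i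
    · rfl
    · simp

theorem io_inj : Function.Injective (io n c) := by
  intro u v h
  funext i
  exact congrFun h (Sum.inl i)

theorem pd_iX (i : Fin (n + 1)) (f : Px n) :
    pderiv (Sum.inl i) (iX f : Sx n c) = iX (pderiv i f) :=
  pderiv_rename Sum.inl_injective i f

theorem pd_iY (i : Fin (n + 1)) (t : Vx c) :
    pderiv (Sum.inl i) (iY t : Sx n c) = 0 := by
  classical
  refine pderiv_eq_zero_of_notMem_vars fun h => ?_
  have h1 := vars_rename (Sum.inr : Fin c → Fin (n + 1) ⊕ Fin c) t h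
  obtain ⟨j, _, hj⟩ := Finset.mem_image.1 h1
  exact Sum.inr_ne_inl hj

theorem ev_iX (p : Fin (n + 1) → ℂ) (f : Px n) :
    eval (Sum.elim p (0 : Fin c → ℂ)) (iX f : Sx n c) = eval p f := by
  unfold iX
  rw [eval_rename]
  rfl

theorem ev_iY (p : Fin (n + 1) → ℂ) (t : Vx c) :
    eval (Sum.elim p (0 : Fin c → ℂ)) (iY t : Sx n c) = eval (0 : Fin c → ℂ) t := by
  unfold iY
  rw [eval_rename]
  rfl

end QSplAux

open QSplAux in
theorem qSpl : S_Spl := by
  intro n c G _ I hD φ hφ p hp hX hspa
  set a : Fin (n + 1) ⊕ Fin c → ℂ := Sum.elim p (0 : Fin c → ℂ) with ha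
  set S' : Set (Fin (n + 1) → ℂ) := {u | ∃ (t : invAlg G) (k : ℕ), 0 < k ∧
        (t : Vx c).IsHomogeneous k ∧ u = fun i => eval p (pderiv i (φ t))} with hS'
  set S : Set (Fin (n + 1) ⊕ Fin c → ℂ) := {v | ∃ F ∈ I, v = fun i => eval a (pderiv i F)} with hS
  have ha0 : a ≠ 0 := by
    intro h
    apply hp
    funext i
    exact congrFun h (Sum.inl i)
  have hT : Submodule.span ℂ S = (Submodule.span ℂ S').map (io n c) := by
    apply le_antisymm
    · rw [Submodule.span_le]
      rintro v ⟨F, hF, rfl⟩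
      obtain ⟨h1, h2⟩ := hspa F hF
      refine ⟨_, h2, ?_⟩
      funext i
      rcases i with i | i
      · rfl
      · exact (h1 i).symm
    · rw [Submodule.map_span, Submodule.span_le]
      rintro v ⟨u, ⟨t, k, hk, ht, rfl⟩, rfl⟩
      have hF := hφ t
      have h1 : (fun i => eval a (pderiv i (iY (t : Vx c) - iX (φ t) : Sx n c))) ∈
          Submodule.span ℂ S := Submodule.subset_span ⟨_, hF, rfl⟩
      have h2 : io n c (fun i => eval p (pderiv i (φ t))) =
          -(fun i => eval a (pderiv i (iY (t : Vx c) - iX (φ t) : Sx n c))) := by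
        funext i
        rcases i with i | i
        · show eval p (pderiv i (φ t)) =
            -(eval a (pderiv (Sum.inl i) (iY (t : Vx c) - iX (φ t) : Sx n c)))
          rw [map_sub, pd_iY, pd_iX, zero_sub, map_neg, neg_neg, ev_iX]
        · show (0 : ℂ) = -(eval a (pderiv (Sum.inr i) (iY (t : Vx c) - iX (φ t) : Sx n c)))
          rw [(hspa _ hF).1 i, neg_zero]
      rw [SetLike.mem_coe, h2]
      exact Submodule.neg_mem _ h1
  have hc : Module.finrank ℂ (Submodule.span ℂ S') = c := by
    have h1 := hD.smooth a ha0 hX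
    rw [← hS, hT] at h1
    rw [← h1]
    exact (Submodule.equivMapOfInjective (io n c) io_inj _).finrank_eq
  obtain ⟨u, hu, _, hli⟩ := Submodule.exists_fun_fin_finrank_span_eq ℂ S'
  choose t m hm ht hut using hu
  refine ⟨fun i => t (Fin.cast hc.symm i), fun i => m (Fin.cast hc.symm i), fun i => hm _,
    fun i => ht _, fun i => ?_, ?_⟩
  · set s := t (Fin.cast hc.symm i) with hs
    have h1 := hX _ (hφ s)
    rw [map_sub, ← ha, ev_iX, ev_iY, sub_eq_zero] at h1
    rw [← h1, eval_zero, constantCoeff_eq]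
    refine (ht (Fin.cast hc.symm i)).coeff_eq_zero ?_
    rw [map_zero]
    exact (hm _).ne
  · have h1 := hli.comp _ (Fin.cast_injective hc.symm)
    have e : (fun (i : Fin c) (k : Fin (n + 1)) =>
        eval p (pderiv k (φ (t (Fin.cast hc.symm i))))) = u ∘ Fin.cast hc.symm := by
      funext i
      rw [Function.comp_apply, hut (Fin.cast hc.symm i)]
    rw [e]
    exact h1

end Pool.Agent.GQ
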