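import Pool.Agent.Lib.MP_776403_ag.GQ.Spec

/-!
# TRA: the trace form is nondegenerate
-/

set_option autoImplicit false

namespace Pool.Agent.GQ

open MvPolynomial

noncomputable section

namespace QTraAux

variable {c : ℕ}

theorem actV_X (g : Gl c) (j : Fin c) :
    actV g (X j) = ∑ k, C ((g : Matrix (Fin c) (Fin c) ℂ) j k) * X k := by
  unfold actV
  rw [aeval_X]

theorem actV_C (g : Gl c) (a : ℂ) : actV g (C a) = C a := by
  unfold actV
  rw [aeval_C]
  rfl

theorem actV_mul (g h : Gl c) (P : Vx c) : actV g (actV h P) = actV (h * g) P := by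
  have key : (actV g).comp (actV h) = actV (h * g) := by
    apply MvPolynomial.algHom_ext
    intro j
    rw [AlgHom.comp_apply, actV_X, actV_X, map_sum]
    simp only [map_mul, actV_C, actV_X, Finset.mul_sum]
    rw [Finset.sum_comm]
    refine Finset.sum_congr rfl fun k _ => ?_
    rw [Units.val_mul, Matrix.mul_apply, map_sum, Finset.sum_mul]
    refine Finset.sum_congr rfl fun l _ => ?_
    rw [C_mul, mul_assoc]
  exact DFunLike.congr_fun key P

theorem actV_one (P : Vx c) : actV (1 : Gl c) P = P := by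
  have key : actV (1 : Gl c) = AlgHom.id ℂ (Vx c) := by
    apply MvPolynomial.algHom_ext
    intro j
    rw [actV_X, AlgHom.id_apply, Finset.sum_eq_single j]
    · rw [Units.val_one, Matrix.one_apply_eq, C_1, one_mul]
    · intro k _ hk
      rw [Units.val_one, Matrix.one_apply_ne hk.symm, C_0, zero_mul]
    · intro h
      exact absurd (Finset.mem_univ j) h
  exact DFunLike.congr_fun key P

theorem actV_aeval {G : Subgroup (Gl c)} {t : Fin c → Vx c} (ht : ∀ i, t i ∈ invAlg G) {g : Gl c} (hg : g ∈ G)
    (r : Vx c) : actV g (aeval t r) = aeval t r := by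
  have key : (actV g).comp (aeval t) = aeval t := by
    apply MvPolynomial.algHom_ext
    intro j
    rw [AlgHom.comp_apply, aeval_X]
    exact ht j g hg
  exact DFunLike.congr_fun key r

end QTraAux

open QTraAux in
theorem qTra : S_Tra := by
  classical
  intro c G _ t ht N b hb τ hτ hdet
  obtain ⟨q, hq0, hq⟩ := Matrix.exists_vecMul_eq_zero_iff.2 hdet
  set a : Vx c := ∑ i, aeval t (q i) * b i with ha
  have ha0 : a ≠ 0 := by
    intro h
    obtain ⟨q', _, huniq⟩ := hb 0
    have h1 : q = q' := huniq q (by show (0 : Vx c) = _; rw [← h])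
    have h2 : (0 : Fin N → Vx c) = q' := huniq 0 (by
      show (0 : Vx c) = _
      refine (Finset.sum_eq_zero fun i _ => ?_).symm
      rw [Pi.zero_apply, map_zero, zero_mul])
    exact hq0 (h1.trans h2.symm)
  have hT : ∀ (r P : Vx c), ∑ g : G, actV (g : Gl c) (aeval t r * P) = aeval t r * ∑ g : G, actV (g : Gl c) P := by
    intro r P
    rw [Finset.mul_sum]
    refine Finset.sum_congr rfl fun g _ => ?_
    rw [map_mul, actV_aeval ht g.2]
  have hj : ∀ j, ∑ g : G, actV (g : Gl c) (a * b j) = 0 := by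
    intro j
    have h1 : ∀ g : G, actV (g : Gl c) (a * b j) = ∑ i, actV (g : Gl c) (aeval t (q i) * (b i * b j)) := by
      intro g
      rw [ha, Finset.sum_mul, map_sum]
      refine Finset.sum_congr rfl fun i _ => ?_
      rw [mul_assoc]
    rw [Finset.sum_congr rfl fun g _ => h1 g, Finset.sum_comm]
    have h2 : ∀ i, ∑ g : G, actV (g : Gl c) (aeval t (q i) * (b i * b j)) = aeval t (q i * τ i j) := by
      intro i
      rw [hT, ← hτ i j, map_mul]
    rw [Finset.sum_congr rfl fun i _ => h2 i, ← map_sum]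
    have h3 : ∑ i, q i * τ i j = 0 := congrFun hq j
    rw [h3, map_zero]
  have hH : ∀ H : Vx c, ∑ g : G, actV (g : Gl c) (a * H) = 0 := by
    intro H
    obtain ⟨r, hr, _⟩ := hb H
    have hr' : H = ∑ i, aeval t (r i) * b i := hr
    have h1 : ∀ g : G, actV (g : Gl c) (a * H) = ∑ i, actV (g : Gl c) (aeval t (r i) * (a * b i)) := by
      intro g
      rw [hr', Finset.mul_sum, map_sum]
      refine Finset.sum_congr rfl fun i _ => ?_
      congr 1
      ring
    rw [Finset.sum_congr rfl fun g _ => h1 g, Finset.sum_comm]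
    refine Finset.sum_eq_zero fun i _ => ?_
    rw [hT, hj, mul_zero]
  set Nm : Vx c := ∏ g : G, actV (g : Gl c) a with hNm
  have hNinv : ∀ g : G, actV (g : Gl c) Nm = Nm := by
    intro g
    rw [hNm, map_prod]
    have h1 : ∀ h : G, actV (g : Gl c) (actV (h : Gl c) a) = actV ((h * g : G) : Gl c) a := by
      intro h
      rw [actV_mul, Subgroup.coe_mul]
    rw [Finset.prod_congr rfl fun h _ => h1 h]
    exact Equiv.prod_comp (Equiv.mulRight g) (fun h : G => actV (h : Gl c) a)
  have hfac : a * ∏ g ∈ Finset.univ.erase (1 : G), actV (g : Gl c) a = Nm := by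
    have h1 := Finset.mul_prod_erase Finset.univ (fun g : G => actV (g : Gl c) a) (Finset.mem_univ (1 : G))
    rw [hNm, ← h1]
    show a * _ = actV ((1 : G) : Gl c) a * _
    rw [Subgroup.coe_one, actV_one]
  have hN0 : Nm = 0 := by
    have h1 := hH (∏ g ∈ Finset.univ.erase (1 : G), actV (g : Gl c) a)
    rw [hfac, Finset.sum_congr rfl fun g _ => hNinv g, Finset.sum_const, Finset.card_univ, nsmul_eq_mul] at h1
    rcases mul_eq_zero.1 h1 with h2 | h2
    · exact absurd (Nat.cast_eq_zero.1 h2) Fintype.card_ne_zero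
    · exact h2
  rw [hNm, Finset.prod_eq_zero_iff] at hN0
  obtain ⟨g, _, hg⟩ := hN0
  apply ha0
  have h1 : actV ((g : Gl c)⁻¹) (actV (g : Gl c) a) = a := by
    rw [actV_mul, mul_inv_cancel, actV_one]
  rw [← h1, hg, map_zero]

end

end Pool.Agent.GQ
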