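import Pool.Agent.Lib.MP_776403_ag.GQ.HiB

set_option autoImplicit false

namespace Pool.Agent.GQ

open MvPolynomial

theorem qWt : S_Wt := fun _ _ _ ha _ _ hg =>
  HiB.Hi_iff.2 (HiB.wt (fun i => HiB.Hi_iff.1 (ha i)) (HiB.Ge_of_wh hg))

end Pool.Agent.GQ
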