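import Pool.Agent.Lib.MP_776403_ag.GQ.Spec

/-!
# Block Zer: common zeros of the generators
-/

set_option autoImplicit false

namespace Pool.Agent.GQ

open MvPolynomial

noncomputable section

namespace QZerAux

variable {c : ℕ}

theorem actV_X (g : Gl c) (j : Fin c) :
    actV g (X j) = ∑ k, C ((g : Matrix (Fin c) (Fin c) ℂ) j k) * X k := by
  simp [actV]

theorem actV_C (g : Gl c) (a : ℂ) : actV g (C a) = C a :=
  (actV g).commutes a

theorem actV_actV (g h : Gl c) (F : Vx c) : actV g (actV h F) = actV (h * g) F := by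
  have e : (actV g).comp (actV h) = actV (h * g) := by
    refine MvPolynomial.algHom_ext fun j => ?_
    rw [AlgHom.comp_apply, actV_X, map_sum, actV_X]
    simp only [map_mul, actV_C, actV_X, Finset.mul_sum, Units.val_mul, Matrix.mul_apply, map_sum,
      Finset.sum_mul]
    rw [Finset.sum_comm]
    refine Finset.sum_congr rfl fun k _ => Finset.sum_congr rfl fun l _ => ?_
    rw [mul_assoc]
  exact congrArg (fun φ : Vx c →ₐ[ℂ] Vx c => φ F) e

theorem actV_one (F : Vx c) : actV (1 : Gl c) F = F := by
  have e : actV (1 : Gl c) = AlgHom.id ℂ (Vx c) := by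
    refine MvPolynomial.algHom_ext fun j => ?_
    rw [actV_X, AlgHom.id_apply]
    simp [Matrix.one_apply]
  rw [e, AlgHom.id_apply]

theorem eval_zero_actV (g : Gl c) (s : ℂ) (j : Fin c) :
    eval (0 : Fin c → ℂ) (actV g (C s - X j)) = s := by
  rw [map_sub, actV_C, actV_X, map_sub, map_sum]
  simp

end QZerAux

theorem qZer : S_Zer := by
  intro c G _ t m hm ht hgen b hb
  have : Fintype G := Fintype.ofFinite G
  have hadj : ∀ a ∈ Algebra.adjoin ℂ (Set.range t), eval b a = eval (0 : Fin c → ℂ) a := by
    intro a ha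
    refine Algebra.adjoin_induction (p := fun a _ => eval b a = eval (0 : Fin c → ℂ) a) ?_ ?_ ?_ ?_ ha
    · rintro _ ⟨i, rfl⟩
      rw [hb i]
      have h : coeff 0 (t i) = 0 := (ht i).coeff_eq_zero (by
        rw [map_zero]
        exact (hm i).ne)
      rw [MvPolynomial.eval_zero, MvPolynomial.constantCoeff_eq, h]
    · intro r
      simp [MvPolynomial.algebraMap_eq]
    · intro x y _ _ hx hy
      rw [map_add, map_add, hx, hy]
    · intro x y _ _ hx hy
      rw [map_mul, map_mul, hx, hy]
  funext j
  have hinv : (∏ g : G, actV (g : Gl c) (C (b j) - X j)) ∈ invAlg G := by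
    intro h hh
    rw [map_prod]
    simp only [QZerAux.actV_actV]
    exact Fintype.prod_equiv (Equiv.mulRight (⟨h, hh⟩ : G)) _ _ (fun g => rfl)
  have h1 := hadj _ (hgen _ hinv)
  rw [map_prod, map_prod] at h1
  simp only [QZerAux.eval_zero_actV] at h1
  rw [Finset.prod_eq_zero (Finset.mem_univ (1 : G)) (by
    rw [OneMemClass.coe_one, QZerAux.actV_one]; simp), Finset.prod_const] at h1
  exact eq_zero_of_pow_eq_zero h1.symm

end

end Pool.Agent.GQ
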