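import Pool.Agent.Lib.MP_776403_ag.GQ.Asm
import Pool.Agent.Lib.MP_776403_ag.GQ.Phi
import Pool.Agent.Lib.MP_776403_ag.GQ.Fix
import Pool.Agent.Lib.MP_776403_ag.GQ.Nrm
import Pool.Agent.Lib.MP_776403_ag.GQ.Fib
import Pool.Agent.Lib.MP_776403_ag.GQ.Pt
import Pool.Agent.Lib.MP_776403_ag.GQ.Red
import Pool.Agent.Lib.MP_776403_ag.GQ.Dif
import Pool.Agent.Lib.MP_776403_ag.GQ.Sec
import Pool.Agent.Lib.MP_776403_ag.GQ.Mul
import Pool.Agent.Lib.MP_776403_ag.GQ.Van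
import Pool.Agent.Lib.MP_776403_ag.GQ.Lin
import Pool.Agent.Lib.MP_776403_ag.GQ.Gen
import Pool.Agent.Lib.MP_776403_ag.GQ.Crv
import Pool.Agent.Lib.MP_776403_ag.GQ.Noe
import Pool.Agent.Lib.MP_776403_ag.GQ.Lim
import Pool.Agent.Lib.MP_776403_ag.GQ.Spa
import Pool.Agent.Lib.MP_776403_ag.GQ.Spl
import Pool.Agent.Lib.MP_776403_ag.GQ.Wt
import Pool.Agent.Lib.MP_776403_ag.GQ.New
import Pool.Agent.Lib.MP_776403_ag.GQ.Ind
import Pool.Agent.Lib.MP_776403_ag.GQ.Rel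
import Pool.Agent.Lib.MP_776403_ag.GQ.Pol
import Pool.Agent.Lib.MP_776403_ag.GQ.Zer
import Pool.Agent.Lib.MP_776403_ag.GQ.Tra
import Pool.Agent.Lib.MP_776403_ag.GQ.Cor

/-!
# MP_776403_ag, THEOREM GP: the theorem without hypotheses
-/

set_option autoImplicit false

namespace Pool.Agent.GQ

open MvPolynomial

theorem fFib : S_Fib := qFib
theorem fNrm : S_Nrm := qNrm
theorem fPt : S_Pt := qPt fNrm fFib
theorem fSec : S_Sec := qSec qDif fFib qPhi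
theorem fMul : S_Mul := qMul qRed
theorem fVan : S_Van := qVan fNrm
theorem fLin : S_Lin := qLin fPt fSec fMul fVan
theorem fLim : S_Lim := qLim fFib
theorem fSpa : S_Spa := qSpa qFix
theorem fInd : S_Ind := qInd qNew
theorem fPol : S_Pol := qPol qWt qNew fInd qRel
theorem fCor : S_Cor := qCor qTra

/-- THEOREM GP. -/
theorem mainGP (n c : ℕ) (hc : c ≤ n) (G : Subgroup (Gl c)) [Finite G] (I : Ideal (Sx n c))
    (hX : Dat n c G I) :
    ∃ (t : Fin c → Vx c) (h : Fin c → Px n) (m : Fin c → ℕ),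
      (∀ i, 0 < m i ∧ (t i).IsHomogeneous (m i) ∧ (h i).IsHomogeneous (m i)) ∧
      AlgebraicIndependent ℂ t ∧ Algebra.adjoin ℂ (Set.range t) = invAlg G ∧
      I = Ideal.span (Set.range fun i => iY (t i) - iX (h i)) :=
  qAsm qPhi fLin qGen fPt qCrv qNoe fLim fSpa qSpl fPol fInd qZer fCor n c hc G I hX

end Pool.Agent.GQ
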