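import Pool.Agent.Lib.MP_776403_ag.GQ.Spec

/-!
# Weighted homogeneous relations
-/

set_option autoImplicit false

namespace Pool.Agent.GQ

open MvPolynomial

namespace QRelAux

/-- `c + 1` polynomials in `c` variables are algebraically dependent. -/
theorem dep (c : ℕ) (t : Fin c → Vx c) (b : Vx c) : ∃ g : Polynomial (Vx c), g ≠ 0 ∧
    Polynomial.eval₂ (aeval t : Vx c →ₐ[ℂ] Vx c).toRingHom b g = 0 := by
  have h1 : ¬ AlgebraicIndependent ℂ (fun o : Option (Fin c) => o.elim b t) := by
    intro h
    have h2 := h.cardinalMk_le_trdeg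
    have h3 : Algebra.trdeg ℂ (Vx c) = Cardinal.lift (Cardinal.mk (Fin c)) :=
      MvPolynomial.trdeg_of_isDomain
    rw [h3] at h2
    simp only [Cardinal.mk_fintype, Fintype.card_option, Fintype.card_fin, Cardinal.lift_natCast,
      Nat.cast_le] at h2
    omega
  rw [algebraicIndependent_iff] at h1
  push Not at h1
  obtain ⟨q, hq, hq0⟩ := h1
  refine ⟨optionEquivLeft ℂ (Fin c) q, ?_, ?_⟩
  · intro h
    apply hq0
    exact (optionEquivLeft ℂ (Fin c)).injective (by rw [h, map_zero])
  · have h2 : (Polynomial.eval₂RingHom (aeval t : Vx c →ₐ[ℂ] Vx c).toRingHom b).comp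
        (optionEquivLeft ℂ (Fin c)).toRingEquiv.toRingHom =
        (aeval (fun o : Option (Fin c) => o.elim b t) :
          MvPolynomial (Option (Fin c)) ℂ →ₐ[ℂ] Vx c).toRingHom := by
      apply MvPolynomial.ringHom_ext
      · intro r
        simp
      · intro o
        cases o with
        | none => simp [optionEquivLeft_X_none]
        | some i => simp [optionEquivLeft_X_some]
    have h3 := congrArg (fun φ => φ q) h2
    simp only [RingHom.comp_apply] at h3
    exact h3.trans hq

variable {c : ℕ} (m : Fin c → ℕ) (t : Fin c → Vx c)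

/-- A monomial of weight `v` becomes homogeneous of degree `v`. -/
theorem mon (ht : ∀ i, (t i).IsHomogeneous (m i)) (d : Fin c →₀ ℕ) (a : ℂ) :
    (aeval t (monomial d a)).IsHomogeneous (Finsupp.weight m d) := by
  rw [aeval_monomial]
  have h1 : (d.prod fun i k => t i ^ k).IsHomogeneous (Finsupp.weight m d) := by
    rw [Finsupp.prod, Finsupp.weight_apply, Finsupp.sum]
    refine IsHomogeneous.prod _ _ _ fun i _ => ?_
    have h2 := (ht i).pow (d i)
    rw [mul_comm] at h2
    simpa using h2
  have h3 : (algebraMap ℂ (Vx c) a) = C a := rfl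
  rw [h3]
  have h4 := (isHomogeneous_C (σ := Fin c) a).mul h1
  rwa [zero_add] at h4

/-- Components of `t(f) b^j`. -/
theorem comp (ht : ∀ i, (t i).IsHomogeneous (m i)) (b : Vx c) (k : ℕ) (hb : b.IsHomogeneous k)
    (w j : ℕ) (f : Vx c) :
    homogeneousComponent w (aeval t f * b ^ j) =
      aeval t (if j * k ≤ w then weightedHomogeneousComponent m (w - j * k) f else 0) * b ^ j := by
  induction f using MvPolynomial.induction_on' with
  | monomial d a =>
    have h1 := (mon m t ht d a).mul (hb.pow j)
    have h2 : aeval t (monomial d a) * b ^ j ∈ homogeneousSubmodule (Fin c) ℂ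
        (Finsupp.weight m d + k * j) := h1
    rw [homogeneousComponent_of_mem h2]
    have h3 : (monomial d a : Vx c) ∈ weightedHomogeneousSubmodule ℂ m (Finsupp.weight m d) :=
      isWeightedHomogeneous_monomial m d a rfl
    rw [weightedHomogeneousComponent_of_mem h3]
    have hkj : k * j = j * k := mul_comm _ _
    by_cases hw : w = Finsupp.weight m d + k * j
    · rw [if_pos hw, if_pos (by omega), if_pos (by omega)]
    · rw [if_neg hw]
      by_cases hjk : j * k ≤ w
      · rw [if_pos hjk, if_neg (by omega), map_zero, zero_mul]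
      · rw [if_neg hjk, map_zero, zero_mul]
  | add p q hp hq =>
    rw [map_add, add_mul, map_add, hp, hq, ← add_mul, ← map_add]
    congr 2
    split_ifs
    · rw [map_add]
    · rw [add_zero]

/-- The first and the last nonzero term. -/
theorem ends {V : Type} [Zero V] (H : ℕ → V) (N : ℕ) (hN : ∀ j, N < j → H j = 0)
    (hex : ∃ j, H j ≠ 0) : ∃ a b : ℕ, a ≤ b ∧ b ≤ N ∧ H a ≠ 0 ∧ H b ≠ 0 ∧ (∀ j, j < a → H j = 0) ∧
      ∀ j, b < j → H j = 0 := by
  classical
  set S := (Finset.range (N + 1)).filter (fun j => H j ≠ 0) with hS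
  have hne : S.Nonempty := by
    obtain ⟨j, hj⟩ := hex
    refine ⟨j, Finset.mem_filter.2 ⟨Finset.mem_range.2 ?_, hj⟩⟩
    by_contra h
    exact hj (hN j (by omega))
  have hmem : ∀ j, H j ≠ 0 → j ∈ S := by
    intro j hj
    refine Finset.mem_filter.2 ⟨Finset.mem_range.2 ?_, hj⟩
    by_contra h
    exact hj (hN j (by omega))
  refine ⟨S.min' hne, S.max' hne, S.min'_le_max' hne, ?_, ?_, ?_, ?_, ?_⟩
  · have h1 := Finset.mem_range.1 (Finset.mem_filter.1 (S.max'_mem hne)).1
    omega
  · exact (Finset.mem_filter.1 (S.min'_mem hne)).2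
  · exact (Finset.mem_filter.1 (S.max'_mem hne)).2
  · intro j hj
    by_contra h
    exact absurd (S.min'_le j (hmem j h)) (not_le.2 hj)
  · intro j hj
    by_contra h
    exact absurd (S.le_max' j (hmem j h)) (not_le.2 hj)

end QRelAux

open QRelAux in
theorem qRel : S_Rel := by
  intro c m t ht b k hb hb0
  obtain ⟨g, hg0, hg⟩ := dep c t b
  rw [Polynomial.eval₂_eq_sum_range] at hg
  have hg' : ∑ j ∈ Finset.range (g.natDegree + 1), aeval t (g.coeff j) * b ^ j = 0 := hg
  -- a nonzero component
  obtain ⟨v, hv⟩ : ∃ v, weightedHomogeneousComponent m v (g.coeff g.natDegree) ≠ 0 := by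
    by_contra hcon
    push Not at hcon
    have h1 : g.coeff g.natDegree ≠ 0 := by
      rw [Polynomial.coeff_natDegree]
      exact Polynomial.leadingCoeff_ne_zero.2 hg0
    apply h1
    ext d
    have h2 := congrArg (coeff d) (hcon (Finsupp.weight m d))
    classical
    rw [coeff_weightedHomogeneousComponent, if_pos rfl] at h2
    exact h2
  set w : ℕ := v + g.natDegree * k with hw
  set H : ℕ → Vx c := fun j =>
    if j * k ≤ w then weightedHomogeneousComponent m (w - j * k) (g.coeff j) else 0 with hH
  have hHN : ∀ j, g.natDegree < j → H j = 0 := by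
    intro j hj
    simp only [hH]
    rw [Polynomial.coeff_eq_zero_of_natDegree_lt hj, map_zero, ite_self]
  have hHex : ∃ j, H j ≠ 0 := by
    refine ⟨g.natDegree, ?_⟩
    simp only [hH]
    rw [if_pos (by omega), show w - g.natDegree * k = v by omega]
    exact hv
  have hsum : ∑ j ∈ Finset.range (g.natDegree + 1), aeval t (H j) * b ^ j = 0 := by
    have h1 := congrArg (homogeneousComponent w) hg'
    rw [map_sum, map_zero] at h1
    rw [← h1]
    exact Finset.sum_congr rfl fun j _ => (comp m t ht b k hb w j _).symm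
  obtain ⟨a, e, hae, heN, ha, he, hla, hge⟩ := ends H g.natDegree hHN hHex
  have haw : a * k ≤ w := by
    by_contra h
    apply ha
    simp only [hH]
    rw [if_neg h]
  refine ⟨w - a * k, e - a, fun j => H (j + a), ?_, ?_, ?_, ?_, ?_, ?_⟩
  · simpa using ha
  · show H (e - a + a) ≠ 0
    rw [Nat.sub_add_cancel hae]
    exact he
  · intro j hj
    exact hge _ (by omega)
  · intro j hj
    have h1 : (j + a) * k ≤ w := by
      rw [add_mul]
      omega
    show (H (j + a)).IsWeightedHomogeneous m (w - a * k - j * k)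
    simp only [hH]
    rw [if_pos h1]
    have h2 : w - (j + a) * k = w - a * k - j * k := by
      rw [add_mul]
      omega
    rw [← h2]
    exact weightedHomogeneousComponent_isWeightedHomogeneous _ _
  · intro j hj
    have h1 : (j + a) * k = j * k + a * k := add_mul _ _ _
    have h2 : ¬ (j + a) * k ≤ w := by omega
    show H (j + a) = 0
    simp only [hH]
    rw [if_neg h2]
  · have h1 : b ^ a ≠ 0 := pow_ne_zero _ hb0
    have h2 : (∑ j ∈ Finset.range (e - a + 1), aeval t (H (j + a)) * b ^ j) * b ^ a = 0 := by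
      have h3 : ∀ j ∈ Finset.range (e - a + 1), aeval t (H (j + a)) * b ^ j * b ^ a =
          aeval t (H (a + j)) * b ^ (a + j) := fun j _ => by
        rw [add_comm a j, pow_add, mul_assoc]
      have h4 : Finset.Ico a (e + 1) ⊆ Finset.range (g.natDegree + 1) := by
        intro j hj
        rw [Finset.mem_Ico] at hj
        rw [Finset.mem_range]
        omega
      have h5 : ∑ j ∈ Finset.Ico a (e + 1), aeval t (H j) * b ^ j =
          ∑ j ∈ Finset.range (g.natDegree + 1), aeval t (H j) * b ^ j := by
        refine Finset.sum_subset h4 fun j _ hj => ?_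
        have h6 : H j = 0 := by
          rw [Finset.mem_Ico] at hj
          rcases Nat.lt_or_ge j a with h7 | h7
          · exact hla j h7
          · exact hge j (by omega)
        rw [h6, map_zero, zero_mul]
      have h6 : e + 1 - a = e - a + 1 := by omega
      rw [Finset.sum_mul, Finset.sum_congr rfl h3, ← hsum, ← h5, Finset.sum_Ico_eq_sum_range, h6]
    exact (mul_eq_zero.1 h2).resolve_right h1

end Pool.Agent.GQ
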