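import Pool.Agent.Lib.MP_776403_ag.GQ.Defs

/-!
# MP_776403_ag, THEOREM GP: statements and proofs of the blocks

Mathematical proof: note 4358. Every block is a file `Pool/Agent/Lib/MP_776403_ag/GQ/<Name>.lean` with the
theorem `Pool.Agent.GQ.q<Name> : S_<Name>` (used statements are hypotheses `(h1 : S_..)`). All blocks are
independent of each other.

Remarks. `act g (act h F) = act (h g) F`, `act 1 F = F`, `eval (x,y) (act g F) = eval (x, g y) F`, `act g (iX f) = iX f`,
`act g (iY t) = iY (actV g t)`. Sums over `G` are sums over the type `↥G` (`[Fintype G]`; in a proof: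
`Fintype.ofFinite`). AVERAGING: `A = ∑ g : G, act g F` satisfies `act g A = A` for `g ∈ G`, so by
`Dat.quot` there is `f` with `A - iX f ∈ I`; if `F ∈ I` then `A ∈ I`. NORM: `N = ∏ g : G, act g F` also
satisfies `act g N = N`.
-/

set_option autoImplicit false

namespace Pool.Agent.GQ

open MvPolynomial Filter Topology

noncomputable section

/-- The algebra of the `G`-invariant polynomials in `y`. -/
def invAlg {c : ℕ} (G : Subgroup (Gl c)) : Subalgebra ℂ (Vx c) where
  carrier := {t | ∀ g ∈ G, actV g t = t}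
  mul_mem' := fun ha hb g hg => by rw [map_mul, ha g hg, hb g hg]
  add_mem' := fun ha hb g hg => by rw [map_add, ha g hg, hb g hg]
  algebraMap_mem' := fun r g _ => by rw [AlgHom.commutes]

/-- All monomials of `f` have weight `> M` for the weights `m`. -/
def Hi {c : ℕ} (m : Fin c → ℕ) (M : ℕ) (f : Vx c) : Prop :=
  ∀ d ∈ f.support, M < Finsupp.weight m d

/-! ## A. Algebra -/

/-- PHI (60 lines). The homomorphism `t ↦ h_t`.
PROOF. For an invariant `t` the polynomial `iY t` satisfies `act g (iY t) = iY (actV g t) = iY t`, so `Dat.quot`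
(with `0 ∈ I`) gives `f` with `iY t - iX f ∈ I`, and `f` is unique by `Dat.indep`. By uniqueness `t ↦ f` is a
homomorphism of algebras (build it with `AlgHom.ofLinearMap` or by hand; `choose`). If `t` is
homogeneous of degree `k`, take the homogeneous component of degree `k` of `iY t - iX f ∈ I` (`Dat.homog`;
`homogeneousComponent` commutes with `rename`: coefficients, or `IsHomogeneous.rename_isHomogeneous` and the
decomposition `sum_homogeneousComponent`): `iY t - iX (f_k) ∈ I`, so `f = f_k`. -/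
def S_Phi : Prop := ∀ (n c : ℕ) (G : Subgroup (Gl c)) (I : Ideal (Sx n c)), Dat n c G I →
  ∃ φ : invAlg G →ₐ[ℂ] Px n, (∀ a : invAlg G, iY (a : Vx c) - iX (φ a) ∈ I) ∧
    ∀ (a : invAlg G) (k : ℕ), (a : Vx c).IsHomogeneous k → (φ a).IsHomogeneous k

/-- FIX (40 lines). There is no invariant linear form in `y`.
PROOF. The form `F = ∑ v_j y_j` has `act g F = ∑_k (∑_j v_j g_jk) y_k = F`. `Dat.quot` gives `f` with
`F - iX f ∈ I`; its component of degree `1` is `F - iX f_1 ∈ I`, homogeneous of degree `1`, so it is `0` by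
`Dat.nondeg`; compare the coefficients of `y_j`. -/
def S_Fix : Prop := ∀ (n c : ℕ) (G : Subgroup (Gl c)) (I : Ideal (Sx n c)), Dat n c G I →
  ∀ v : Fin c → ℂ, (∀ g ∈ G, ∀ k, ∑ j, v j * (g : Matrix (Fin c) (Fin c) ℂ) j k = v k) → v = 0

/-- NRM (60 lines). Every element outside `I` divides, modulo `I`, a nonzero polynomial in `x`.
PROOF. `N = ∏ g : G, act g F = F * H` (`H` the product over `g ≠ 1`, `act 1 F = F`; e.g.
`Finset.mul_prod_erase`). `N` is invariant, so `N - iX f ∈ I` for some `f`. If `f = 0` then `N ∈ I`, so some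
`act g F ∈ I` (`I` prime), and `F = act g⁻¹ (act g F) ∈ I` by `Dat.stable`, contradiction. -/
def S_Nrm : Prop := ∀ (n c : ℕ) (G : Subgroup (Gl c)) [Finite G] (I : Ideal (Sx n c)), Dat n c G I →
  ∀ F : Sx n c, F ∉ I → ∃ (f : Px n) (H : Sx n c), f ≠ 0 ∧ F * H - iX f ∈ I

/-- FIB (150 lines). The fibres of the projection.
PROOF. (a) Suppose there is no `y`. The ideal `K = I + (x_i - x_i(a))` has no zero, so `1 ∈ K`
(Nullstellensatz, e.g. `MvPolynomial.vanishingIdeal_zeroLocus_eq_radical`; the index type `Fin (n+1) ⊕ Fin c` is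
finite): `1 = F + ∑ (x_i - a_i) H_i` with `F ∈ I`. Average over `G`: `1 - ∑ (x_i - a_i) H_i' ∈ I` with
`H_i' = |G|⁻¹ ∑ act g H_i` invariant, so `H_i' - iX f_i ∈ I` and `iX (1 - ∑ (x_i - a_i) f_i) ∈ I`, so
`1 = ∑ (x_i - a_i) f_i` by `Dat.indep`; evaluate at `a`: contradiction.
(b) Suppose `y'` is not in the orbit of `y`. The finite sets `G y` and `G y'` are disjoint, so there is a
polynomial `u` in `y` with value `0` on `G y` and `1` on `G y'` (interpolation: product/sum construction, or: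
for all `a ≠ b` there is a polynomial of degree `1` with values `0` at `a` and `1` at `b`; take
`1 - ∏_{b ∈ G y'} (1 - ∏_{a ∈ G y} l_{a,b})`). `t = ∏ g : G, actV g u` is invariant, `t(y) = 0`,
`t(y') = 1`. But `iY t - iX f ∈ I` for some `f` (`Dat.quot`), so `t(y) = f(x) = t(y')`.
(c) `eval (x, g y) F = eval (x, y) (act g F)` and `Dat.stable`.
(d) For `j`, the polynomial `∏ g : G, (T - act g y_j)` in `T` has coefficients `a_i` invariant under
`act`, so `a_i - iX f_i ∈ I` (`Dat.quot`). On the cone: `y_j^D = - ∑_{i<D} f_i(x) y_j^i`, `D = |G|`; the `f_i`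
are bounded on `‖x‖ ≤ R` by some `K`, so `|y_j| ≤ 1 + D K` (if `|y_j| > 1` then
`|y_j|^D ≤ D K |y_j|^(D-1)`). Take the maximum over `j` (`pi_norm_le_iff_of_nonneg`).
(e) A homogeneous `F` of degree `k` satisfies `F(s a) = s^k F(a)`; for general `F ∈ I` sum over the
homogeneous components, which are in `I` (`Dat.homog`). -/
def S_Fib : Prop := ∀ (n c : ℕ) (G : Subgroup (Gl c)) [Finite G] (I : Ideal (Sx n c)), Dat n c G I →
  (∀ x, ∃ y, OnX I x y) ∧
  (∀ x y y', OnX I x y → OnX I x y' → ∃ g ∈ G, y' = (g : Matrix (Fin c) (Fin c) ℂ).mulVec y) ∧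
  (∀ g ∈ G, ∀ x y, OnX I x y → OnX I x ((g : Matrix (Fin c) (Fin c) ℂ).mulVec y)) ∧
  (∀ R : ℝ, ∃ B : ℝ, ∀ x y, ‖x‖ ≤ R → OnX I x y → ‖y‖ ≤ B) ∧
  (∀ (s : ℂ) x y, OnX I x y → OnX I (s • x) (s • y))

/-- PT (30 lines, uses `S_Nrm`, `S_Fib`). A polynomial outside `I` is nonzero somewhere on the cone.
PROOF. `F * H - iX f ∈ I`, `f ≠ 0`; choose `x` with `f(x) ≠ 0` (`MvPolynomial.funext`), `y` over `x`;
`F(x,y) H(x,y) = f(x) ≠ 0`. -/
def S_Pt : Prop := ∀ (n c : ℕ) (G : Subgroup (Gl c)) [Finite G] (I : Ideal (Sx n c)), Dat n c G I →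
  ∀ F : Sx n c, F ∉ I → ∃ x y, OnX I x y ∧ eval (Sum.elim x y) F ≠ 0

/-- RED (130 lines). Reduction of the degrees in `y`, homogeneous version.
PROOF. `D = |G| > 0`. For `j`, the polynomial `∏ g : G, (T - act g y_j)` in `T` over `Sx n c` is monic of
degree `D`; its coefficient `a_i` of `T^i` is homogeneous of degree `D - i` and invariant under `act`
(`act g` permutes the factors), so `a_i - iX f_i ∈ I` and, taking components of degree `D - i`,
`a_i - iX e_i ∈ I` with `e_i` homogeneous of degree `D - i`. Evaluating at `T = y_j` (the factor `g = 1`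
vanishes): `y_j^D + ∑_{i<D} iX e_i * y_j^i ∈ I`.
Now prove for every monomial `x^a y^b`, by strong induction on `|b| = ∑ b_j`: it is congruent modulo `I` to
`∑_α iX (p α) * y^α` with `p α` homogeneous of degree `|a| + |b| - |α|` (`p α = 0` if `|α| > |a| + |b|`). If all
`b_j < D`: clear. If `b_j ≥ D`: replace `y_j^D` by `-∑ iX e_i y_j^i` and use induction for
`y^b y_j^(i-D)` (multiply the resulting `p` by `e_i` and `x^a`; degrees add up). A homogeneous `F` of degree
`k` is a linear combination of monomials of degree `k`. -/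
def S_Red : Prop := ∀ (n c : ℕ) (G : Subgroup (Gl c)) [Finite G] (I : Ideal (Sx n c)), Dat n c G I →
  ∃ D : ℕ, 0 < D ∧ ∀ (k : ℕ) (F : Sx n c), F.IsHomogeneous k →
    ∃ p : (Fin c → Fin D) → Px n,
      (∀ α, (∑ j, (α j : ℕ)) ≤ k → (p α).IsHomogeneous (k - ∑ j, (α j : ℕ))) ∧
      (∀ α, k < (∑ j, (α j : ℕ)) → p α = 0) ∧
      F - ∑ α, iX (p α) * ∏ j, X (Sum.inr j) ^ (α j : ℕ) ∈ I

/-! ## B. The linear forms `y_j` are linearly independent over `ℂ[x]` -/

/-- DIF (80 lines). Invariants with prescribed differential at a point with trivial stabilizer.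
PROOF. For `g ∈ G`, `g ≠ 1` the point `b' = g b` is different from `b`: choose `j` with `b'_j ≠ b_j` and
`κ_g = (b_j - b'_j)⁻¹ (X_j - b'_j)`: `κ_g(b) = 1`, `κ_g(g b) = 0`. Let
`u = (∑ v_i (X_i - b_i)) * ∏_{g ≠ 1} κ_g²` and `t = ∑ g : G, actV g u`. By the chain rule
`∂_i (actV g u)(b) = ∑_k (∂_k u)(g b) g_ki`. For `g ≠ 1`, `u = κ_g² * w`, so `∂_k u (g b) = 0`. For `g = 1`:
`∂_i u (b) = v_i` since the first factor vanishes at `b` and the others are `1`. -/
def S_Dif : Prop := ∀ (c : ℕ) (G : Subgroup (Gl c)) [Finite G] (b : Fin c → ℂ),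
  (∀ g ∈ G, (g : Matrix (Fin c) (Fin c) ℂ).mulVec b = b → g = 1) → ∀ v : Fin c → ℂ,
  ∃ t ∈ invAlg G, ∀ i, eval b (pderiv i t) = v i

/-- SEC (170 lines, uses `S_Dif`, `S_Fib`, `S_Phi`). Local sections of the projection near a point with
trivial stabilizer.
PROOF. By `S_Dif` choose invariants `t_j` with `∂_i t_j (b) = δ_ij`; `Θ(y) = (t_j(y))_j` has at `b` the strict
derivative `id` (polynomial map; `ContDiff` or explicit), `h(x) = (φ(t_j)(x))_j`; on the cone
`Θ(y) = h(x)`, and `h(o) = Θ(b)`. Let `Ψ` be the local inverse of `Θ` at `b`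
(`HasStrictFDerivAt.toOpenPartialHomeomorph`, `HasStrictFDerivAt.localInverse`): `Ψ(Θ(y)) = y` for `y` near `b`,
`Ψ` is continuous on a neighbourhood of `Θ(b)` and differentiable at `Θ(b)`. Put `β = Ψ ∘ h`. Then `β(o) = b`,
`β` is differentiable at `o` and continuous at all points near `o`. CLAIM: `(x, β x)` is on the cone for
`x` near `o`. Otherwise there is a sequence `x_k → o` with `(x_k, β x_k)` not on the cone
(`Filter.exists_seq_forall_of_frequently`). Choose `y_k` over `x_k`; they are bounded (`S_Fib` (d)), so for a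
subsequence `y_k → y'` (`tendsto_subseq_of_bounded`); by continuity `(o, y')` is on the cone, so
`y' = g b` with `g ∈ G` (`S_Fib` (b)), `g⁻¹ y_k → b`, `(x_k, g⁻¹ y_k)` is on the cone (`S_Fib` (c)), so
`Θ(g⁻¹ y_k) = h(x_k)` and for large `k`: `g⁻¹ y_k = Ψ(Θ(g⁻¹ y_k)) = β(x_k)`: contradiction. -/
def S_Sec : Prop := ∀ (n c : ℕ) (G : Subgroup (Gl c)) [Finite G] (I : Ideal (Sx n c)), Dat n c G I →
  ∀ (o : Fin (n + 1) → ℂ) (b : Fin c → ℂ), OnX I o b →
  (∀ g ∈ G, (g : Matrix (Fin c) (Fin c) ℂ).mulVec b = b → g = 1) →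
  ∃ β : (Fin (n + 1) → ℂ) → (Fin c → ℂ), DifferentiableAt ℂ β o ∧ β o = b ∧
    ∀ᶠ x in 𝓝 o, ContinuousAt β x ∧ OnX I x (β x)

/-- MUL (200 lines, uses `S_Red`). The key step: `μ(s)/s` is constant.
SETUP. `Ds = {s : ℂ // s ≠ 0 ∧ ‖s‖ < ε}`; for `F ∈ Sx n c` let `ev F : Ds → ℂ` be
`s ↦ F(o + s z, β(o + s z))`, a ring homomorphism `Sx n c → (Ds → ℂ)` which kills `I`;
`μ = ∑ q_j(o) β_j(o + s z) = ev (∑ q_j(o) y_j)`; `E_k = ev` of the homogeneous polynomials of degree `k`, a
finite-dimensional subspace of `Ds → ℂ`. As `o, z` are linearly independent there are linear forms `l_0, l_1` in `x`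
with `l_0(o) = 1, l_0(z) = 0, l_1(o) = 0, l_1(z) = 1`: `ev (iX l_0) = 1`, `ev (iX l_1) = s`.
CLAIM. For `k ≥ c D + e` (`D` from `S_Red`) the function `μ/s` times `E_k` is contained in `E_k`. PROOF. By
`S_Red`, `E_k` is spanned by the `ev (iX p * y^α)`, `p` homogeneous of degree `k' = k - |α|`, `α_j < D`, so
`k' ≥ e`; and `p(o + s z)` is a linear combination of the `s^i = ev (iX (l_0^(k'-i) l_1^i))`, `i ≤ k'`. So it is
enough to treat `s^i ev(y^α)`. If `i ≥ 1`:
`(μ/s) s^i ev(y^α) = ev (iX (l_0^(k'-i) l_1^(i-1)) (∑ q_j(o) y_j) y^α)` has degree `k`. If `i = 0`: write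
`q_j(o + s z) = q_j(o) + ∑_{i=1}^e s^i q_ji`; the relation gives
`μ = - ∑_{i=1}^e s^i ∑_j q_ji β_j`, so
`(μ/s) ev(y^α) = - ∑_{i=1}^e ev (iX (l_0^(k'-i) l_1^(i-1)) (∑_j q_ji y_j) y^α)`, again of degree `k`.
CONCLUSION. `ev (iX l_0^k) = 1 ∈ E_k`. Multiplication by `μ/s` is an endomorphism of the finite-dimensional space
`E_k`; by Cayley-Hamilton (`LinearMap.aeval_self_charpoly`) there is a monic polynomial `χ` with
`χ(μ/s) * u = 0` for `u ∈ E_k`, so `χ(μ(s)/s) = 0` for all `s ∈ Ds`. So the continuous function `μ(s)/s` on the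
preconnected set `{0 < ‖s‖ < ε}` has values in a finite set, and is constant
(`IsPreconnected.constant_of_mapsTo` or the image is preconnected and finite; the punctured ball is
preconnected: image of `(0, ε) × ℝ` or `(ball).diff_countable..`, `isPreconnected_compl_singleton_of_one_lt_rank`
for the plane; for the ball write it as the image of `{w : ℂ | w.re < log ε}` (convex) under `exp`). -/
def S_Mul : Prop := ∀ (n c : ℕ) (G : Subgroup (Gl c)) [Finite G] (I : Ideal (Sx n c)), Dat n c G I →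
  ∀ (o z : Fin (n + 1) → ℂ), LinearIndependent ℂ ![o, z] →
  ∀ (β : (Fin (n + 1) → ℂ) → (Fin c → ℂ)) (ε : ℝ),
  (∀ s : ℂ, s ≠ 0 → ‖s‖ < ε → ContinuousAt β (o + s • z) ∧ OnX I (o + s • z) (β (o + s • z))) →
  ∀ (e : ℕ) (q : Fin c → Px n), (∀ j, (q j).IsHomogeneous e) →
  (∑ j, iX (q j) * X (Sum.inr j)) ∈ I →
  ∃ κ : ℂ, ∀ s : ℂ, s ≠ 0 → ‖s‖ < ε → ∑ j, eval o (q j) * β (o + s • z) j = κ * s

/-- VAN (50 lines, uses `S_Nrm`). A polynomial that vanishes along a local section is in `I`.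
PROOF. If `F ∉ I`: `F * H - iX f ∈ I` with `f ≠ 0`. For `x` near `o`: `f(x) = F(x, β x) H(x, β x) = 0`. A
polynomial that vanishes on an open set is `0` (`MvPolynomial.funext_set` with the intervals/balls of a
product neighbourhood, which are infinite). -/
def S_Van : Prop := ∀ (n c : ℕ) (G : Subgroup (Gl c)) [Finite G] (I : Ideal (Sx n c)), Dat n c G I →
  ∀ (o : Fin (n + 1) → ℂ) (β : (Fin (n + 1) → ℂ) → (Fin c → ℂ)), (∀ᶠ x in 𝓝 o, OnX I x (β x)) →
  ∀ F : Sx n c, (∀ᶠ x in 𝓝 o, eval (Sum.elim x (β x)) F = 0) → F ∈ I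

/-- LIN (200 lines, uses `S_Pt`, `S_Sec`, `S_Mul`, `S_Van`). The `y_j` are linearly independent over `ℂ[x]`.
PROOF. Let `F = ∑ iX (q_j) y_j ∈ I` and suppose some `q_j ≠ 0`. Taking homogeneous components (of degree `e`
of the `q_j`, of degree `e + 1` of `F`; `Dat.homog`) we may assume all `q_j` homogeneous of degree `e`, and
`q_J ≠ 0`. If `e = 0`, `F` is a linear form in `I`, so `F = 0` by `Dat.nondeg`, contradiction. So `e ≥ 1`.
For `g ∈ G`, `g ≠ 1` some row `j` of `g` is not the row of the identity, so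
`l_g = act g y_j - y_j` is a nonzero linear form, `l_g ∉ I`. `I` is prime: `iX (q_J) * ∏_{g ≠ 1} l_g ∉ I`. By
`S_Pt` there is `(o, b)` on the cone where it does not vanish: `q_J(o) ≠ 0` (so `o ≠ 0` as `e ≥ 1`),
and `g b ≠ b` for `g ≠ 1`. `S_Sec` gives `β`; let `β` be continuous and `(x, β x)` on the cone on the ball
`‖x - o‖ < ε`. Put `v_j = q_j(o)`, `μ(x) = ∑ v_j β_j(x)`: differentiable at `o`, with derivative `L`, and
`μ(o) = F(o, b) = 0`. Let `‖z‖ < ε` with `o, z` linearly independent (so `z ≠ 0`): `S_Mul` with the radius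
`ε/‖z‖ > 1` gives `κ` with `μ(o + s z) = κ s` for `0 < ‖s‖ < ε/‖z‖`; letting `s → 0`, `κ = L z`, and for
`s = 1`: `μ(o + z) = L z`. The set of the `z` linearly independent of `o` is dense as `n ≥ 1` (if `w` is not a
multiple of `o` then `z + τ w` is independent of `o` for all `τ` but at most one), `μ` is continuous on the
ball, so `μ(o + z) = L z` for all `‖z‖ < ε`. The polynomial `∑ v_j y_j - ∑_i L(e_i) (x_i - o_i)` vanishes
at `(x, β x)` for `x` near `o`, so it is in `I` by `S_Van`. Its component of degree `1`,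
`∑ v_j y_j - ∑ L(e_i) x_i`, is in `I`, so it is `0` by `Dat.nondeg`, and `v_J = 0`: contradiction. -/
def S_Lin : Prop := ∀ (n c : ℕ) (G : Subgroup (Gl c)) [Finite G] (I : Ideal (Sx n c)), Dat n c G I →
  1 ≤ n → ∀ q : Fin c → Px n, (∑ j, iX (q j) * X (Sum.inr j)) ∈ I → q = 0

/-- GEN (150 lines; independent of `S_Lin`, which is replaced by the hypothesis `hlin`). At a general point the
orbit spans.
PROOF. `R = Sx n c ⧸ I` is a domain, `L` its fraction field. Rows `r_g = (act g y_j)_j ∈ L^c`, `g ∈ G`. (i) If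
the rows span `L^c`, there are `g_1, …, g_c ∈ G` with `D = det (act g_i y_j) ∉ I` (a determinant of a
`c × c` matrix over `Sx n c`; `exists_linearIndependent`/basis from a spanning family, then
`Matrix.det ≠ 0` in `L`). At a point with `D(x,y) ≠ 0`: `∑_j v_j (g_i y)_j = 0` for all `i` implies `v = 0`
(`Matrix.eq_zero_of_mulVec_eq_zero`). (ii) Otherwise there is a nonzero vector `a ∈ L^c` orthogonal to all the rows;
clear denominators and lift: `a_j ∈ Sx n c`, some `a_J ∉ I`, `∑_j a_j act g y_j ∈ I` for all `g ∈ G`. For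
`H ∈ Sx n c` put `A_j = ∑ g : G, act g (H a_j)`: invariant, so `A_j - iX q_j ∈ I`. We have
`∑_j A_j y_j = ∑_g act g H * act g (∑_j a_j act g⁻¹ y_j) ∈ I`, so `∑ iX q_j * y_j ∈ I`, `q = 0` by `hlin` and
`A_j ∈ I` for all `j`. Take `j = J`, `H = ∏_{g ≠ 1} act g a_J`: `H a_J = N = ∏_g act g a_J` is invariant, so
`A_J = |G| N ∈ I`, so `N ∈ I`, some `act g a_J ∈ I`, and `a_J ∈ I`: contradiction. -/
def S_Gen : Prop := ∀ (n c : ℕ) (G : Subgroup (Gl c)) [Finite G] (I : Ideal (Sx n c)), Dat n c G I →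
  (∀ q : Fin c → Px n, (∑ j, iX (q j) * X (Sum.inr j)) ∈ I → q = 0) →
  ∃ D : Sx n c, D ∉ I ∧ ∀ x y, OnX I x y → eval (Sum.elim x y) D ≠ 0 → ∀ v : Fin c → ℂ,
    (∀ g ∈ G, ∑ j, v j * (g : Matrix (Fin c) (Fin c) ℂ).mulVec y j = 0) → v = 0

/-! ## C. A point of the fixed locus with many tangent directions -/

/-- CRV (180 lines). The set of the `x` with `(x, w₀)` on the cone has positive dimension.
PROOF. `R = Sx n c ⧸ I`, a noetherian domain, an algebra over `Px n` (`Ideal.Quotient.mk I ∘ iX`, injective by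
`Dat.indep`), integral: `R` is generated by the classes of the `y_j`, and `y_j` is a root of the
monic polynomial `∏ g : G, (T - act g y_j)`, whose coefficients are invariant, so congruent to elements `iX f`
(`Dat.quot`). (Or `Algebra.IsInvariant.isIntegral`.) `Px n` is integrally closed, so `R` has going-down over
`Px n` (`Mathlib/RingTheory/IntegralClosure/GoingDown.lean`). Let `M ⊂ R` be the maximal ideal of the point
`(x₀, w₀)` (kernel of the evaluation), `p = M ∩ Px n` the maximal ideal of `x₀`. `height p ≥ n + 1`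
(`MP7Z.Tsen.zP_height` in `Pool/Agent/Lib/MP_7f581e_Z/FF/Zero.lean` at the origin, and a translation
`x_i ↦ x_i + x₀_i`, `RingEquiv.height_comap`), and `height M ≥ height p`
(`Ideal.height_eq_height_add_of_liesOver_of_hasGoingDown`). Let `b ⊂ R` be the ideal generated by the `c`
classes of `y_j - w₀_j`; `b ≤ M`. If `M` were minimal over `b`, then `height M ≤ c ≤ n`
(`Ideal.height_le_card_of_mem_minimalPrimes_span_finset`): contradiction. So there is a prime `q'` with
`b ≤ q' < M` (`Ideal.exists_minimalPrimes_le`). `q = q' ∩ Px n` is prime; if it were maximal, `q'` would be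
maximal (`Ideal.isMaximal_of_isIntegral_of_isMaximal_comap`), so `q' = M`: contradiction. Let `x` be a
zero of `q` and `F ∈ I`. Let `f(x) = F(x, w₀) ∈ Px n`: `F - iX f` is in the ideal generated by the
`y_j - w₀_j`, so the class of `iX f` is in `b ≤ q'`, `f ∈ q`, and `F(x, w₀) = f(x) = 0`. -/
def S_Crv : Prop := ∀ (n c : ℕ) (G : Subgroup (Gl c)) [Finite G] (I : Ideal (Sx n c)), Dat n c G I →
  c ≤ n → ∀ (x₀ : Fin (n + 1) → ℂ) (w₀ : Fin c → ℂ), OnX I x₀ w₀ →
  ∃ q : Ideal (Px n), q.IsPrime ∧ ¬ q.IsMaximal ∧ ∀ x, (∀ f ∈ q, eval x f = 0) → OnX I x w₀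

/-- NOE (120 lines). The zero set of a prime ideal which is not maximal is unbounded.
PROOF. `A = Px n ⧸ q`, a finitely generated domain over `ℂ`. Noether normalization
(`exists_finite_inj_algHom_of_fg`): an injective finite homomorphism `u : MvPolynomial (Fin s) ℂ → A`. `s ≠ 0`: for
`s = 0`, `A` would be a finite-dimensional domain over `ℂ`, so a field, and `q` maximal. Let `f₀ ∈ Px n` be
a representative of `u(X_0)`, bounded by `K` on the ball `‖x‖ ≤ R` (compact). Let `τ ∈ ℂ` with `|τ| > K`. The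
maximal ideal `(X_0 - τ, X_i)` of `MvPolynomial (Fin s) ℂ` (kernel of an evaluation) is the contraction of a maximal
ideal of `A` (`Ideal.exists_ideal_over_maximal_of_isIntegral`), whose residue field is finite over `ℂ`, so it
is `ℂ`: this gives a homomorphism `A → ℂ` of algebras, i.e. a point `x` with `f(x) = 0` for `f ∈ q`, and
`f₀(x) = τ`, so `‖x‖ > R`. -/
def S_Noe : Prop := ∀ (n : ℕ) (q : Ideal (Px n)), q.IsPrime → ¬ q.IsMaximal → ∀ R : ℝ,
  ∃ x : Fin (n + 1) → ℂ, R < ‖x‖ ∧ ∀ f ∈ q, eval x f = 0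

/-- LIM (120 lines, uses `S_Fib`). The limit point.
PROOF. Choose `x_k` with `‖x_k‖ > k + 1` and `(x_k, w₀)` on the cone. `s_k = ‖x_k‖⁻¹ → 0`, and by `S_Fib` (e)
`(s_k x_k, s_k w₀)` is on the cone. The vectors `s_k x_k` have norm `1`; a subsequence converges to `p`,
`‖p‖ = 1`, so `p ≠ 0`, and `(p, 0)` is on the cone by continuity. Let `F ∈ I` with `F(x, 0) = 0` for all `x`. Then
`F ∈ (y_1, …, y_c)`, and there is a polynomial `Q(x, s)` (in `MvPolynomial (Option (Fin (n+1))) ℂ` or simply a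
continuous function) with `F(x, s w₀) = s Q(x, s)` and `Q(x, 0) = ∑_j ∂_{y_j}F(x, 0) w₀_j`: by linearity
take `F = ∑_j y_j H_j`, `Q(x,s) = ∑_j w₀_j H_j(x, s w₀)`, and `∂_{y_j} F (x,0) = H_j(x,0)`. From
`0 = F(s_k x_k, s_k w₀) = s_k Q(s_k x_k, s_k)` and `s_k ≠ 0` we get `Q(s_k x_k, s_k) = 0`, in the limit
`Q(p, 0) = 0`. (To write `F = ∑ y_j H_j`: induction on monomials; the coefficients of the monomials without `y`
vanish by `MvPolynomial.funext`.) -/
def S_Lim : Prop := ∀ (n c : ℕ) (G : Subgroup (Gl c)) [Finite G] (I : Ideal (Sx n c)), Dat n c G I →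
  ∀ w₀ : Fin c → ℂ, (∀ R : ℝ, ∃ x : Fin (n + 1) → ℂ, R < ‖x‖ ∧ OnX I x w₀) →
  ∃ p : Fin (n + 1) → ℂ, p ≠ 0 ∧ OnX I p 0 ∧
    ∀ F ∈ I, (∀ x : Fin (n + 1) → ℂ, eval (Sum.elim x (0 : Fin c → ℂ)) F = 0) →
      ∑ j, eval (Sum.elim p (0 : Fin c → ℂ)) (pderiv (Sum.inr j) F) * w₀ j = 0

/-- SPA (150 lines, uses `S_Fix`). At `(p, 0)` the gradients of the elements of `I` have no `y`-part, and their
`x`-parts are linear combinations of the gradients of the `h_t`.
PROOF. Let `F ∈ I`, `A = |G|⁻¹ ∑ g : G, act g F ∈ I`, invariant. `F - A` vanishes for `y = 0` (as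
`(act g F)(x, 0) = F(x, 0)`), so by hypothesis its `y`-derivatives at `(p, 0)` vanish; its `x`-derivatives at
`(p, 0)` vanish too (the polynomial in `x` obtained by `y = 0` is `0`; chain rule, or: `pderiv (inl i)` commutes with
the substitution `y = 0`). So `F` and `A` have the same gradient at `(p,0)`. The vector `v_j = ∂_{y_j} A(p,0)` satisfies
`v_k = ∂_{y_k}(act g A)(p,0) = ∑_j v_j g_jk`, so `v = 0` by `S_Fix`.
Now `x`-parts. Write `A = ∑_a iX (x^a) iY (η_a)` (finite sum over exponents `a` of the monomials in `x`; e.g.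
`MvPolynomial.sumToIter`/`sumAlgEquiv`, or define `η_a` by coefficients). As `A` is invariant and
`act g` only acts on the `iY` part, all `η_a ∈ invAlg G`. `A - ∑ iX (x^a φ(η_a)) ∈ I` and `A ∈ I`, so
`∑ x^a φ(η_a) = 0` (`Dat.indep`). With `η_a⁺ = η_a - η_a(0)`: the polynomial `A(x, 0) = ∑ x^a η_a(0)` equals
`- ∑ x^a φ(η_a⁺)`. `φ(η_a⁺)(p) = η_a⁺(0) = 0` since `(p,0)` is on the cone. So
`∂_{x_i} A (p, 0) = - ∑_a p^a ∂_i φ(η_a⁺)(p)`, and `η_a⁺` is the sum of its homogeneous components of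
degrees `k > 0` (which are in `invAlg G`: `actV g` is graded). -/
def S_Spa : Prop := ∀ (n c : ℕ) (G : Subgroup (Gl c)) [Finite G] (I : Ideal (Sx n c)), Dat n c G I →
  ∀ φ : invAlg G →ₐ[ℂ] Px n, (∀ a : invAlg G, iY (a : Vx c) - iX (φ a) ∈ I) →
  ∀ p : Fin (n + 1) → ℂ, OnX I p 0 →
  (∀ F ∈ I, (∀ x : Fin (n + 1) → ℂ, eval (Sum.elim x (0 : Fin c → ℂ)) F = 0) →
    ∀ j, eval (Sum.elim p (0 : Fin c → ℂ)) (pderiv (Sum.inr j) F) = 0) →
  ∀ F ∈ I, (∀ j, eval (Sum.elim p (0 : Fin c → ℂ)) (pderiv (Sum.inr j) F) = 0) ∧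
    (fun i => eval (Sum.elim p (0 : Fin c → ℂ)) (pderiv (Sum.inl i) F)) ∈
      Submodule.span ℂ {u : Fin (n + 1) → ℂ | ∃ (t : invAlg G) (k : ℕ), 0 < k ∧
        (t : Vx c).IsHomogeneous k ∧ u = fun i => eval p (pderiv i (φ t))}

/-- SPL (100 lines; `hspa` is the conclusion of `S_Spa` at `p`). Choice of `c` invariants.
PROOF. Let `T` be the span of the gradients of the elements of `I` at `a = (p, 0) ≠ 0`: dimension `c` by
`Dat.smooth`. By `hspa` the vectors of `T` have zero `y`-part and their `x`-parts are in the span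
`T'` of the gradients of the `φ t`; conversely for `t` in the set, `F = iY t - iX (φ t) ∈ I` has the `x`-part
`- ∇ φ t (p)` . So `T` is the image of `T'` under the injective linear map `u ↦ (u, 0)`, and `T'` has dimension
`c`. Choose `c` linearly independent vectors in the spanning set of `T'` (`exists_linearIndependent`, or
`Module.Basis`/`Submodule.exists_fun_fin_finrank_span_eq`), which gives `t_i`, `m_i`. Finally
`φ(t_i)(p) = t_i(0) = 0` since `(p, 0)` is on the cone and `t_i` is homogeneous of positive degree. -/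
def S_Spl : Prop := ∀ (n c : ℕ) (G : Subgroup (Gl c)) [Finite G] (I : Ideal (Sx n c)), Dat n c G I →
  ∀ φ : invAlg G →ₐ[ℂ] Px n, (∀ a : invAlg G, iY (a : Vx c) - iX (φ a) ∈ I) →
  ∀ p : Fin (n + 1) → ℂ, p ≠ 0 → OnX I p 0 →
  (∀ F ∈ I, (∀ j, eval (Sum.elim p (0 : Fin c → ℂ)) (pderiv (Sum.inr j) F) = 0) ∧
    (fun i => eval (Sum.elim p (0 : Fin c → ℂ)) (pderiv (Sum.inl i) F)) ∈
      Submodule.span ℂ {u : Fin (n + 1) → ℂ | ∃ (t : invAlg G) (k : ℕ), 0 < k ∧
        (t : Vx c).IsHomogeneous k ∧ u = fun i => eval p (pderiv i (φ t))}) →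
  ∃ (t : Fin c → invAlg G) (m : Fin c → ℕ), (∀ i, 0 < m i) ∧
    (∀ i, (t i : Vx c).IsHomogeneous (m i)) ∧ (∀ i, eval p (φ (t i)) = 0) ∧
    LinearIndependent ℂ (fun i k => eval p (pderiv k (φ (t i))))

/-! ## D. The invariants are polynomials in `c` of them -/

/-- WT (60 lines). Substitutions which raise weights.
PROOF. For a monomial `z^d` of weight `k`: `∏ (z_i + e_i)^(d_i) - z^d`, `e_i` of weights `> m_i`; induction on `d`
(product rule: if `u` is weighted homogeneous of weight `k` and `u' - u ∈ Hi m k`, same for `v`, `l`, then `u' v' - u v`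
is in `Hi m (k + l)`; `Hi m k` times a polynomial all of whose monomials have weight `≥ l` is in `Hi m (k + l)`:
`MvPolynomial.support_mul`, `map_add` of `Finsupp.weight`). Then linear combinations
(`MvPolynomial.IsWeightedHomogeneous`). -/
def S_Wt : Prop := ∀ (c : ℕ) (m : Fin c → ℕ) (a : Fin c → Vx c), (∀ i, Hi m (m i) (a i - X i)) →
  ∀ (k : ℕ) (g : Vx c), g.IsWeightedHomogeneous m k → Hi m k (aeval a g - g)

/-- NEW (130 lines). Newton iteration.
PROOF. Induction on `M`. `M = 0`: `Γ = C ∘ p`: `aeval Γ h_i = C (h_i(p)) = 0` and `0 - X i ∈ Hi m 0` as `m i > 0`.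
Step `M → M + 1`: let `ε_i` be the component of weight `M + 1` of `aeval Γ h_i - X i`
(`weightedHomogeneousComponent`). The matrix `J = (∂_k h_i (p))` has linearly independent rows, so it has a
right inverse: there are `r : Fin (n+1) → Fin c → ℂ` with `∑_k J_ik r_kj = δ_ij`. Put
`Δ_k = - ∑_j r_kj ε_j` and `Γ' = Γ + Δ`; `Δ_k` has weight `M + 1`. Taylor: `aeval (Γ + Δ) h_i` is congruent to
`aeval Γ h_i + ∑_k (aeval Γ (∂_k h_i)) Δ_k` modulo the ideal generated by the `Δ_k Δ_l` (prove it by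
`MvPolynomial.induction_on`, or for polynomials in general), the products have weights
`≥ 2 M + 2 > M + 1`, and `aeval Γ (∂_k h_i) - C (∂_k h_i (p)) ∈ Hi m 0` by `Γ - C ∘ p ∈ Hi m 0`. So modulo
`Hi m (M+1)` the error is `(error of Γ) - ε_i`, which is in `Hi m (M + 1)`. -/
def S_New : Prop := ∀ (n c : ℕ) (m : Fin c → ℕ), (∀ i, 0 < m i) → ∀ (p : Fin (n + 1) → ℂ)
  (h : Fin c → Px n), (∀ i, eval p (h i) = 0) →
  LinearIndependent ℂ (fun i k => eval p (pderiv k (h i))) → ∀ M : ℕ,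
  ∃ Γ : Fin (n + 1) → Vx c, (∀ k, Hi m 0 (Γ k - C (p k))) ∧ ∀ i, Hi m M (aeval Γ (h i) - X i)

/-- IND (50 lines, uses `S_Wt`, `S_New`). Algebraic independence.
PROOF. Let `g ≠ 0` with `aeval h g = 0`; `k` the least weight with `g_k ≠ 0`
(`g_k` the weighted homogeneous component); `M = ∑ m_i`, `Γ` from `S_New`, `a_i = aeval Γ (h i)`. Then
`0 = aeval Γ (aeval h g) = aeval a g`. `a_i - X i ∈ Hi m M`, so in `Hi m (m i)`. By `S_Wt` for the components,
`aeval a g - g_k ∈ Hi m k`, so the component of weight `k` of `0` is `g_k`: contradiction. -/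
def S_Ind : Prop := ∀ (n c : ℕ) (m : Fin c → ℕ), (∀ i, 0 < m i) → ∀ (p : Fin (n + 1) → ℂ)
  (h : Fin c → Px n), (∀ i, eval p (h i) = 0) →
  LinearIndependent ℂ (fun i k => eval p (pderiv k (h i))) → AlgebraicIndependent ℂ h

/-- REL (100 lines). A weighted homogeneous relation with nonzero constant term. `G_j` is the coefficient of `u^j`.
PROOF. The `c + 1` polynomials `t_1, …, t_c, b` in `c` variables are algebraically dependent (transcendence
degree: `MvPolynomial` in `c` variables has transcendence degree `c`; search `trdeg`, `AlgebraicIndependent`,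
`cardinalMk_le_trdeg`). So there is a nonzero polynomial `g` in `z_1, …, z_c, u` with `g(t, b) = 0`; give `z_i`
the weight `m i` and `u` the weight `k`: every weighted homogeneous component of `g` is a relation too
(components of degree `w` of `0 = g(t, b)`), so we may take `g` weighted homogeneous of weight `w`. Write
`g = ∑_j G_j(z) u^j`; `G_j` is weighted homogeneous of weight `w - j k` (and `0` if `w < j k`). Let `j_0` be the
least `j` with `G_j ≠ 0`; as `b ≠ 0` and `Vx c` is a domain we may divide by `b^(j_0)` (replace `G_j` by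
`G_(j + j_0)` and `w` by `w - j_0 k`): so `G_0 ≠ 0`. -/
def S_Rel : Prop := ∀ (c : ℕ) (m : Fin c → ℕ) (t : Fin c → Vx c), (∀ i, (t i).IsHomogeneous (m i)) →
  ∀ (b : Vx c) (k : ℕ), b.IsHomogeneous k → b ≠ 0 →
  ∃ (w D : ℕ) (G : ℕ → Vx c), G 0 ≠ 0 ∧ G D ≠ 0 ∧ (∀ j, D < j → G j = 0) ∧
    (∀ j, j * k ≤ w → (G j).IsWeightedHomogeneous m (w - j * k)) ∧ (∀ j, w < j * k → G j = 0) ∧
    ∑ j ∈ Finset.range (D + 1), aeval t (G j) * b ^ j = 0

/-- POL (150 lines, uses `S_Wt`, `S_New`, `S_Ind`, `S_Rel`).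
PROOF. Elements of `A` are sums of homogeneous elements of `A` (`hA`), so let `θ ∈ A` be homogeneous of degree
`k`. `h_i = φ(t_i)`, `M = k + ∑ m_i`, `Γ` from `S_New` (to be taken with a large `M` depending on the relations
used below: it is enough that `M ≥ m_i` for all `i`), `a_i = aeval Γ h_i`. Let `E` be the weighted homogeneous
component of weight `k` of `aeval Γ (φ θ)` and `b = θ - aeval t E ∈ A`, homogeneous of degree `k` (as
`E` has weight `k`). CLAIM `b = 0` (which proves `θ ∈ adjoin`). Suppose `b ≠ 0`, `G_j`, `w`, `D` from `S_Rel`.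
Let `ξ = aeval Γ (φ b) = aeval Γ (φ θ) - aeval a E`; by `S_Wt` its component of weight `k` is `E - E = 0`.
Applying `aeval Γ ∘ φ` to the relation: `∑_{j ≤ D} aeval a (G_j) ξ^j = 0` (*).
(i) `ξ` has no component of weight `< k`: let `κ < k` be the least weight with `ξ_κ ≠ 0`. `D ≥ 1`: if `D = 0`
the relation is `aeval t (G_0) = 0`, `G_0 ≠ 0`, against the algebraic independence of the `t_i` (which follows from
`S_Ind` for `h = φ ∘ t`). Note `D k ≤ w` as `G_D ≠ 0`. In (*) the term `j` has all its weights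
`≥ w - j k + j κ = w - j (k - κ)`, and for `j < D` these are `> w - D (k - κ)`; the component of weight
`w - D (k - κ)` of the term `j = D` is `G_D ξ_κ^D ≠ 0`. Contradiction.
(ii) So `ξ ∈ Hi m k` (its components of weights `≤ k` vanish). In (*) the terms `j ≥ 1` are in
`Hi m w` (weights `≥ w - j k` times weights `> j k`), and the term `j = 0` is congruent to `G_0` modulo
`Hi m w` by `S_Wt`. So `G_0 ∈ Hi m w`, and `G_0` is weighted homogeneous of weight `w`: `G_0 = 0`, contradiction. -/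
def S_Pol : Prop := ∀ (n c : ℕ) (A : Subalgebra ℂ (Vx c)) (φ : A →ₐ[ℂ] Px n)
  (p : Fin (n + 1) → ℂ) (m : Fin c → ℕ) (t : Fin c → A),
  (∀ a ∈ A, ∀ k : ℕ, homogeneousComponent k a ∈ A) → (∀ i, 0 < m i) →
  (∀ i, (t i : Vx c).IsHomogeneous (m i)) → (∀ i, eval p (φ (t i)) = 0) →
  LinearIndependent ℂ (fun i k => eval p (pderiv k (φ (t i)))) →
  ∀ a ∈ A, a ∈ Algebra.adjoin ℂ (Set.range fun i => (t i : Vx c))

/-! ## E. The ideal -/

/-- ZER (60 lines). If the `t_i` generate the invariants, their only common zero is `0`.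
PROOF. For `j` the coefficients `a_i` (`i < D = |G|`) of `∏ g : G, (T - actV g y_j)` are in `invAlg G` and homogeneous of
degree `D - i > 0`, so `a_i(0) = 0`. The evaluations at `b` and at `0` agree on the `t_i` (both
are `0`: `t_i` is homogeneous of positive degree), so on `adjoin`, so `a_i(b) = a_i(0) = 0`, and
`b_j^D = b_j^D + ∑ a_i(b) b_j^i = ∏_g (b_j - (g b)_j) = 0` (factor `g = 1`). -/
def S_Zer : Prop := ∀ (c : ℕ) (G : Subgroup (Gl c)) [Finite G] (t : Fin c → Vx c) (m : Fin c → ℕ),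
  (∀ i, 0 < m i) → (∀ i, (t i).IsHomogeneous (m i)) →
  (∀ a ∈ invAlg G, a ∈ Algebra.adjoin ℂ (Set.range t)) →
  ∀ b : Fin c → ℂ, (∀ i, eval b (t i) = 0) → b = 0

/-- TRA (90 lines). The trace form is nondegenerate.
PROOF. Suppose `det τ = 0`. There is `q ≠ 0` with `∑_i q_i τ_ij = 0` for all `j`
(`Matrix.exists_vecMul_eq_zero_iff`, `Vx c` is a domain). `a = ∑ aeval t (q_i) b_i ≠ 0` by the uniqueness of the
representation of `0`. `aeval t (q_i)` is invariant (`t_i` invariant), so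
`∑_g actV g (a b_j) = ∑_i aeval t (q_i) aeval t (τ_ij) = 0`, and then `∑_g actV g (a H) = 0` for all `H`
(write `H = ∑ aeval t (r_j) b_j`). Take `H = ∏_{g ≠ 1} actV g a`: `a H = N = ∏_g actV g a` is invariant, so
`|G| N = 0`, `N = 0`, so some `actV g a = 0` and `a = 0` (`actV g⁻¹`): contradiction. -/
def S_Tra : Prop := ∀ (c : ℕ) (G : Subgroup (Gl c)) [Fintype G] (t : Fin c → Vx c),
  (∀ i, t i ∈ invAlg G) → ∀ (N : ℕ) (b : Fin N → Vx c),
  (∀ P : Vx c, ∃! q : Fin N → Vx c, P = ∑ i, aeval t (q i) * b i) →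
  ∀ τ : Matrix (Fin N) (Fin N) (Vx c),
  (∀ i j, aeval t (τ i j) = ∑ g : G, actV (g : Gl c) (b i * b j)) → τ.det ≠ 0

/-- COR (150 lines, uses `S_Tra`). The ideal is generated by the `t_i - h_i`.
PROOF. `J = (iY t_i - iX (φ t_i))_i ⊂ I`. `J` is stable under `act g` (its generators are fixed).
(1) Every `F ∈ Sx n c` is congruent modulo `J` to some `∑_i iX (q_i) iY (b_i)`: by linearity for
`F = iX f * iY P`, `P = ∑ aeval t (c_i) b_i`, and `iY (aeval t c_i) - iX (aeval h c_i) ∈ J` (`h_i = φ(t_i)`; both sides are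
homomorphisms which agree on `X i` modulo `J`). (2) `τ_ij ∈ Vx c` with
`aeval t (τ_ij) = ∑_g actV g (b_i b_j)` exist by `hgen` (an element of `Algebra.adjoin` of a family is in the range of
`aeval`: `Algebra.adjoin_range_eq_range_aeval`). (3) Let `F ∈ I`, `F` congruent to `∑ iX (q_i) iY (b_i)`
modulo `J`. For every `j`: `∑_g act g (F iY b_j) ∈ I`, and it is congruent modulo `J` to
`∑_i iX (q_i) iY (∑_g actV g (b_i b_j))`, so to `iX (∑_i q_i aeval h (τ_ij))`. So this is in `I`, and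
`∑_i q_i aeval h (τ_ij) = 0` by `Dat.indep`. The determinant of `(aeval h (τ_ij))` is `aeval h (det τ) ≠ 0` by
`S_Tra` and `hind`. So `q = 0` (`Matrix.eq_zero_of_vecMul_eq_zero`) and `F ∈ J`. -/
def S_Cor : Prop := ∀ (n c : ℕ) (G : Subgroup (Gl c)) [Finite G] (I : Ideal (Sx n c)), Dat n c G I →
  ∀ φ : invAlg G →ₐ[ℂ] Px n, (∀ a : invAlg G, iY (a : Vx c) - iX (φ a) ∈ I) →
  ∀ t : Fin c → invAlg G,
  (∀ a ∈ invAlg G, a ∈ Algebra.adjoin ℂ (Set.range fun i => (t i : Vx c))) →
  AlgebraicIndependent ℂ (fun i => φ (t i)) →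
  ∀ (N : ℕ) (b : Fin N → Vx c),
  (∀ P : Vx c, ∃! q : Fin N → Vx c, P = ∑ i, aeval (fun i => (t i : Vx c)) (q i) * b i) →
  I = Ideal.span (Set.range fun i => iY (t i : Vx c) - iX (φ (t i)))

/-- The final statement. -/
def S_GP : Prop := ∀ (n c : ℕ), c ≤ n → ∀ (G : Subgroup (Gl c)) [Finite G] (I : Ideal (Sx n c)),
  Dat n c G I → ∃ (F : Fin c → Sx n c) (m : Fin c → ℕ), (∀ i, (F i).IsHomogeneous (m i)) ∧
    I = Ideal.span (Set.range F)

end

end Pool.Agent.GQ
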