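import Pool.Agent.Lib.MP_776403_ag.GQ.Spec

/-!
# MP_776403_ag, GQ: VAN. A polynomial that vanishes along a local section is in the ideal
-/

set_option autoImplicit false

namespace Pool.Agent.GQ

open MvPolynomial Filter Topology

theorem qVan (h1 : S_Nrm) : S_Van := by
  intro n c G _ I hI o β hβ F hF
  by_contra hFI
  obtain ⟨f, H, hf, hFH⟩ := h1 n c G I hI F hFI
  apply hf
  have key : ∀ᶠ x in 𝓝 o, eval x f = 0 := by
    filter_upwards [hβ, hF] with x hx hFx
    have e1 := hx _ hFH
    rw [map_sub, map_mul, hFx, zero_mul, zero_sub, neg_eq_zero] at e1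
    unfold iX at e1
    rw [eval_rename] at e1
    exact e1
  obtain ⟨ε, hε, hball⟩ := Metric.eventually_nhds_iff_ball.mp key
  refine funext_set (fun i => Metric.ball (o i) ε) (fun i => ?_) (fun x hx => ?_)
  · exact infinite_of_mem_nhds (o i) (Metric.ball_mem_nhds (o i) hε)
  · rw [map_zero]
    refine hball x ?_
    rw [ball_pi o hε]
    exact hx

end Pool.Agent.GQ
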